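import Mathlib

/-! Definitions used in the statements about support expansion algebras. -/

open MeasureTheory Set
open scoped ENNReal NNReal

namespace Pool.Agent.MP_fe632d_an.Public

universe u

variable {X : Type u} [MeasurableSpace X]

/-- The complex Hilbert space `L²(X, μ)`. -/
def Hil (μ : Measure X) : Type u := Lp ℂ 2 μ

noncomputable instance instGrp (μ : Measure X) : NormedAddCommGroup (Hil μ) :=
  inferInstanceAs (NormedAddCommGroup (Lp ℂ 2 μ))

noncomputable instance instInner (μ : Measure X) : InnerProductSpace ℂ (Hil μ) :=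
  inferInstanceAs (InnerProductSpace ℂ (Lp ℂ 2 μ))

instance instComplete (μ : Measure X) : CompleteSpace (Hil μ) :=
  inferInstanceAs (CompleteSpace (Lp ℂ 2 μ))

/-- Bounded operators on `L²(X, μ)`. -/
abbrev Op (μ : Measure X) : Type u := Hil μ →L[ℂ] Hil μ

/-- `b` is the Hilbert space adjoint of `a`. -/
def IsAdj {μ : Measure X} (b a : Op μ) : Prop :=
  ∀ ξ η : Hil μ, inner ℂ (b ξ) η = inner ℂ ξ (a η)

/-- The measure of the support `{x | ξ x ≠ 0}` of a vector `ξ` of `L²(X, μ)`. -/
noncomputable def suppMeas {μ : Measure X} (ξ : Hil μ) : ℝ≥0∞ :=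
  μ (Function.support (show Lp ℂ 2 μ from ξ))

/-- `a` enlarges the measure of supports by a factor at most `lam`. -/
def ExpandsLE {μ : Measure X} (a : Op μ) (lam : ℝ≥0) : Prop :=
  ∀ ξ : Hil μ, suppMeas (a ξ) ≤ lam * suppMeas ξ

/-- `a` has support expansion at most `lam`: both `a` and its adjoint enlarge the measure of the
support of every vector by a factor at most `lam`. -/
def HasSupportExpansion {μ : Measure X} (a : Op μ) (lam : ℝ≥0) : Prop :=
  ExpandsLE a lam ∧ ∃ b : Op μ, IsAdj b a ∧ ExpandsLE b lam

/-- The algebra `C*_u(X, V_μ)`: the norm closure in the bounded operators on `L²(X, μ)` of the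
operators with support expansion at most `lam` for some `lam ≥ 0`. -/
def CStarU (μ : Measure X) : Set (Op μ) :=
  closure {a | ∃ lam : ℝ≥0, HasSupportExpansion a lam}

/-- `B` is an atom of `μ`. -/
def IsAtomOf (μ : Measure X) (B : Set X) : Prop :=
  MeasurableSet B ∧ μ B ≠ 0 ∧ ∀ C, MeasurableSet C → C ⊆ B → μ C = 0 ∨ μ (B \ C) = 0

/-- `μ` is purely atomic: every measurable set of finite positive measure contains an atom. -/
def PurelyAtomic (μ : Measure X) : Prop :=
  ∀ A, MeasurableSet A → μ A ≠ 0 → μ A ≠ ∞ → ∃ B ⊆ A, IsAtomOf μ B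

/-- The density of a set `A`: the least cardinality of a family of measurable sets approximating
every measurable set in measure on `A` (`MeasureDense` for the restricted measure). -/
noncomputable def density (μ : Measure X) (A : Set X) : Cardinal.{u} :=
  sInf {c | ∃ 𝒜 : Set (Set X), Cardinal.mk 𝒜 = c ∧ (μ.restrict A).MeasureDense 𝒜}

end Pool.Agent.MP_fe632d_an.Public
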