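import Pool.Agent.MP_fe632d_an.Main5
import Pool.Agent.MP_fe632d_an.Public

open MeasureTheory Set
open scoped ENNReal NNReal

namespace Pool.Agent.MP_fe632d_an

universe u

variable {X : Type u} [MeasurableSpace X]

theorem hasSupportExpansion_iff {μ : Measure X} (a : Lp ℂ 2 μ →L[ℂ] Lp ℂ 2 μ) (lam : ℝ≥0) :
    HasSupportExpansion μ a lam ↔ Public.HasSupportExpansion (μ := μ) a lam := by
  constructor
  · rintro ⟨h1, h2⟩
    exact ⟨h1, ContinuousLinearMap.adjoint a,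
      fun ξ η => ContinuousLinearMap.adjoint_inner_left a η ξ, h2⟩
  · rintro ⟨h1, b, hb, h2⟩
    refine ⟨h1, ?_⟩
    have : b = ContinuousLinearMap.adjoint (show Lp ℂ 2 μ →L[ℂ] Lp ℂ 2 μ from a) :=
      (ContinuousLinearMap.eq_adjoint_iff _ _).2 hb
    rw [← this]
    exact h2

theorem cStarU_eq_public (μ : Measure X) :
    (CStarU μ : Set (Lp ℂ 2 μ →L[ℂ] Lp ℂ 2 μ)) = Public.CStarU μ := by
  have h : {a : Lp ℂ 2 μ →L[ℂ] Lp ℂ 2 μ | ∃ lam : ℝ≥0, HasSupportExpansion μ a lam}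
      = {a : Public.Op μ | ∃ lam : ℝ≥0, Public.HasSupportExpansion a lam} := by
    ext a
    exact exists_congr fun lam => hasSupportExpansion_iff a lam
  change closure {a : Lp ℂ 2 μ →L[ℂ] Lp ℂ 2 μ | ∃ lam : ℝ≥0, HasSupportExpansion μ a lam} = _
  rw [h]
  rfl

end Pool.Agent.MP_fe632d_an
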