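import Mathlib

open MeasureTheory Set
open scoped ENNReal NNReal

namespace Pool.Agent.MP_fe632d_an

variable {X : Type*} [MeasurableSpace X]

/-- `a` has support expansion at most `lam`: both `a` and its adjoint enlarge the measure of the
support of every vector by a factor at most `lam`. -/
def HasSupportExpansion (μ : Measure X) (a : Lp ℂ 2 μ →L[ℂ] Lp ℂ 2 μ) (lam : ℝ≥0) : Prop :=
  (∀ ξ : Lp ℂ 2 μ, μ (Function.support (a ξ)) ≤ lam * μ (Function.support ξ)) ∧
    ∀ ξ : Lp ℂ 2 μ, μ (Function.support (ContinuousLinearMap.adjoint a ξ))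
      ≤ lam * μ (Function.support ξ)

/-- The algebra `C*_u(X, V_μ)`: the norm closure in the bounded operators on `L²(X, μ)` of the
operators with support expansion at most `lam` for some `lam ≥ 0`. -/
def CStarU (μ : Measure X) : Set (Lp ℂ 2 μ →L[ℂ] Lp ℂ 2 μ) :=
  closure {a | ∃ lam : ℝ≥0, HasSupportExpansion μ a lam}

end Pool.Agent.MP_fe632d_an
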