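import Mathlib

open MeasureTheory Set
open scoped ENNReal NNReal symmDiff

namespace Pool.Agent.MP_fe632d_an

/-- A closed subspace of `L²` of a finite measure containing the indicators of a generating
pi-system and of the whole space is everything. -/
theorem submodule_eq_top_of_pi {X : Type*} [mX : MeasurableSpace X] {μ : Measure X}
    [IsFiniteMeasure μ]
    (S : Submodule ℂ (Lp ℂ 2 μ)) (hS : IsClosed (S : Set (Lp ℂ 2 μ)))
    (C : Set (Set X)) (hgen : mX = MeasurableSpace.generateFrom C) (hpi : IsPiSystem C)
    (huniv : indicatorConstLp 2 MeasurableSet.univ (measure_ne_top μ _) (1:ℂ) ∈ S)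
    (hC : ∀ s (hs : MeasurableSet s), s ∈ C →
      indicatorConstLp 2 hs (measure_ne_top μ _) (1:ℂ) ∈ S) : S = ⊤ := by
  have key : ∀ s (hs : MeasurableSet s),
      indicatorConstLp 2 hs (measure_ne_top μ _) (1:ℂ) ∈ S := by
    intro s hs
    induction s, hs using MeasurableSpace.induction_on_inter hgen hpi with
    | empty => simp
    | basic t ht => exact hC t _ ht
    | compl t ht iht =>
      have : indicatorConstLp 2 ht.compl (measure_ne_top μ _) (1:ℂ)
          = indicatorConstLp 2 MeasurableSet.univ (measure_ne_top μ _) (1:ℂ)
            - indicatorConstLp 2 ht (measure_ne_top μ _) (1:ℂ) := by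
        apply Lp.ext
        filter_upwards [indicatorConstLp_coeFn (p := 2) (hs := ht.compl)
            (hμs := measure_ne_top μ _) (c := (1:ℂ)),
          indicatorConstLp_coeFn (p := 2) (hs := ht) (hμs := measure_ne_top μ _) (c := (1:ℂ)),
          indicatorConstLp_coeFn (p := 2) (hs := MeasurableSet.univ)
            (hμs := measure_ne_top μ _) (c := (1:ℂ)),
          Lp.coeFn_sub (indicatorConstLp 2 MeasurableSet.univ (measure_ne_top μ _) (1:ℂ))
            (indicatorConstLp 2 ht (measure_ne_top μ _) (1:ℂ))] with x h1 h2 h3 h4
        rw [h1, h4, Pi.sub_apply, h2, h3]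
        by_cases hx : x ∈ t <;> simp [hx]
      rw [this]
      exact S.sub_mem huniv iht
    | iUnion f hd hf ih =>
      have hfin : ∀ n, MeasurableSet (⋃ i ∈ Finset.range n, f i) := fun n =>
        Finset.measurableSet_biUnion _ fun i _ => hf i
      have hmem : ∀ n, indicatorConstLp 2 (hfin n) (measure_ne_top μ _) (1:ℂ) ∈ S := by
        intro n
        induction n with
        | zero =>
          have : indicatorConstLp 2 (hfin 0) (measure_ne_top μ _) (1:ℂ) = 0 := by
            apply Lp.ext
            filter_upwards [indicatorConstLp_coeFn (p := 2) (hs := hfin 0)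
              (hμs := measure_ne_top μ _) (c := (1:ℂ)), Lp.coeFn_zero ℂ 2 μ] with x h1 h2
            rw [h1, h2]; simp
          rw [this]; exact S.zero_mem
        | succ n ihn =>
          have : indicatorConstLp 2 (hfin (n+1)) (measure_ne_top μ _) (1:ℂ)
            = indicatorConstLp 2 (hfin n) (measure_ne_top μ _) (1:ℂ)
            + indicatorConstLp 2 (hf n) (measure_ne_top μ _) (1:ℂ) := by
            apply Lp.ext
            filter_upwards [indicatorConstLp_coeFn (p := 2) (hs := hfin (n+1))
                (hμs := measure_ne_top μ _) (c := (1:ℂ)),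
              indicatorConstLp_coeFn (p := 2) (hs := hfin n)
                (hμs := measure_ne_top μ _) (c := (1:ℂ)),
              indicatorConstLp_coeFn (p := 2) (hs := hf n)
                (hμs := measure_ne_top μ _) (c := (1:ℂ)),
              Lp.coeFn_add (indicatorConstLp 2 (hfin n) (measure_ne_top μ _) (1:ℂ))
                (indicatorConstLp 2 (hf n) (measure_ne_top μ _) (1:ℂ))] with x h1 h2 h3 h4
            rw [h1, h4, Pi.add_apply, h2, h3]
            by_cases hx : x ∈ f n
            · have hx' : x ∉ ⋃ i ∈ Finset.range n, f i := by
                simp only [mem_iUnion, not_exists]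
                intro i hi hxi
                exact Set.disjoint_left.1 (hd (ne_of_lt (Finset.mem_range.1 hi))) hxi hx
              have hx'' : x ∈ ⋃ i ∈ Finset.range (n+1), f i := by
                simp only [mem_iUnion]
                exact ⟨n, by simp, hx⟩
              simp only [Set.indicator_of_mem hx'', Set.indicator_of_notMem hx',
                Set.indicator_of_mem hx, zero_add]
            · by_cases hy : x ∈ ⋃ i ∈ Finset.range n, f i
              · have hx'' : x ∈ ⋃ i ∈ Finset.range (n+1), f i := by
                  simp only [mem_iUnion, Finset.mem_range] at hy ⊢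
                  obtain ⟨i, hi, hxi⟩ := hy
                  exact ⟨i, by omega, hxi⟩
                simp only [Set.indicator_of_mem hx'', Set.indicator_of_mem hy,
                  Set.indicator_of_notMem hx, add_zero]
              · have hx'' : x ∉ ⋃ i ∈ Finset.range (n+1), f i := by
                  simp only [mem_iUnion, Finset.mem_range, not_exists] at hy ⊢
                  intro i hi hxi
                  rcases Nat.lt_succ_iff_lt_or_eq.1 hi with h | h
                  · exact hy i h hxi
                  · exact hx (h ▸ hxi)
                simp only [Set.indicator_of_notMem hx'', Set.indicator_of_notMem hy,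
                  Set.indicator_of_notMem hx, add_zero]
          rw [this]
          exact S.add_mem ihn (ih n)
      refine hS.mem_of_tendsto (b := Filter.atTop)
        (f := fun n => indicatorConstLp 2 (hfin n) (measure_ne_top μ _) (1:ℂ)) ?_
        (Filter.Eventually.of_forall hmem)
      apply tendsto_indicatorConstLp_set (by simp)
      have hsub : ∀ n, (⋃ i ∈ Finset.range n, f i) ∆ (⋃ i, f i)
          = (⋃ i, f i) \ (⋃ i ∈ Finset.range n, f i) := by
        intro n
        rw [Set.symmDiff_def, Set.diff_eq_empty.2, Set.empty_union]
        exact iUnion_mono fun i => iUnion_subset fun _ => subset_rfl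
      simp only [hsub]
      have hanti : Antitone fun n => (⋃ i, f i) \ (⋃ i ∈ Finset.range n, f i) := by
        intro m n hmn
        apply Set.diff_subset_diff_right
        apply biUnion_mono
        · intro i hi
          exact Finset.mem_range.2 (lt_of_lt_of_le (Finset.mem_range.1 hi) hmn)
        · intro i _; exact subset_rfl
      have hlim := tendsto_measure_iInter_atTop (μ := μ)
        (s := fun n => (⋃ i, f i) \ (⋃ i ∈ Finset.range n, f i))
        (fun n => ((MeasurableSet.iUnion hf).diff (hfin n)).nullMeasurableSet) hanti
        ⟨0, measure_ne_top μ _⟩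
      have hemp : (⋂ n, (⋃ i, f i) \ (⋃ i ∈ Finset.range n, f i)) = ∅ := by
        ext x
        simp only [mem_iInter, mem_diff, mem_iUnion, not_exists, mem_empty_iff_false,
          iff_false, not_forall]
        by_cases hx : ∃ i, x ∈ f i
        · obtain ⟨i, hi⟩ := hx
          refine ⟨i+1, fun h => h.2 i (by simp) hi⟩
        · exact ⟨0, fun h => hx h.1⟩
      rw [hemp, measure_empty] at hlim
      exact hlim
  rw [eq_top_iff]
  intro f _
  refine Lp.induction (p := 2) (μ := μ) (E := ℂ) (by simp) (fun g => g ∈ S) ?_ ?_ hS f
  · intro c s hs hμs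
    have : (Lp.simpleFunc.indicatorConst 2 hs hμs.ne c : Lp ℂ 2 μ)
        = c • indicatorConstLp 2 hs (measure_ne_top μ _) (1:ℂ) := by
      rw [Lp.simpleFunc.coe_indicatorConst]
      apply Lp.ext
      filter_upwards [indicatorConstLp_coeFn (p := 2) (hs := hs)
          (hμs := measure_ne_top μ _) (c := c),
        indicatorConstLp_coeFn (p := 2) (hs := hs)
          (hμs := measure_ne_top μ _) (c := (1:ℂ)),
        Lp.coeFn_smul c (indicatorConstLp 2 hs (measure_ne_top μ _) (1:ℂ))] with x h1 h2 h3
      rw [h1, h3, Pi.smul_apply, h2]
      by_cases hx : x ∈ s <;> simp [hx]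
    rw [this]
    exact S.smul_mem _ (key s hs)
  · intro f g hf hg _ h1 h2
    exact S.add_mem h1 h2

end Pool.Agent.MP_fe632d_an
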