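import Pool.Agent.MP_fe632d_an.Expand

open MeasureTheory Set
open scoped ENNReal NNReal symmDiff

namespace Pool.Agent.MP_fe632d_an

variable {X : Type*} [MeasurableSpace X] {μ : Measure X} {E F : Set X} {ι : Type*}

/-- A coding of the measure `μ` restricted to `E` by the cube. -/
structure Coding (μ : Measure X) (E : Set X) (ι : Type*) where
  /-- the coding map -/
  map : X → (ι → Bool)
  meas : Measurable map
  map_eq : (μ.restrict E).map map = μ E • cube ι
  dense : ∀ A, MeasurableSet A → ∀ ε : ℝ≥0∞, 0 < ε →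
    ∃ B : Set (ι → Bool), MeasurableSet B ∧ (μ.restrict E) (A ∆ (map ⁻¹' B)) < ε

namespace Coding

variable (C : Coding μ E ι)

theorem ae_restrict {p : (ι → Bool) → Prop} (h : ∀ᵐ y ∂(cube ι), p y) :
    ∀ᵐ x ∂(μ.restrict E), p (C.map x) := by
  have h1 : ∀ᵐ y ∂(μ E • cube ι), p y := Measure.smul_absolutelyContinuous h
  rw [← C.map_eq] at h1
  exact ae_of_ae_map C.meas.aemeasurable h1

theorem ae {p : (ι → Bool) → Prop} (hE : MeasurableSet E) (h : ∀ᵐ y ∂(cube ι), p y) :
    ∀ᵐ x ∂μ, x ∈ E → p (C.map x) := by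
  have := C.ae_restrict h
  rwa [ae_restrict_iff' hE] at this

theorem eLpNorm_comp (φ : Lp ℂ 2 (cube ι)) (h0 : μ E ≠ 0) :
    eLpNorm (φ ∘ C.map) 2 (μ.restrict E) = (μ E) ^ (1 / 2 : ℝ) * eLpNorm φ 2 (cube ι) := by
  rw [← eLpNorm_map_measure ?_ C.meas.aemeasurable, C.map_eq,
    eLpNorm_smul_measure_of_ne_zero h0]
  · simp
  · rw [C.map_eq]
    exact (Lp.aestronglyMeasurable φ).smul_measure _

theorem memLp (φ : Lp ℂ 2 (cube ι)) (hE : MeasurableSet E) (h0 : μ E ≠ 0) (ht : μ E ≠ ∞) :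
    MemLp (E.indicator (φ ∘ C.map)) 2 μ := by
  rw [memLp_indicator_iff_restrict hE]
  refine ⟨?_, ?_⟩
  · refine ((Lp.stronglyMeasurable φ).comp_measurable C.meas).aestronglyMeasurable
  · rw [C.eLpNorm_comp φ h0]
    exact ENNReal.mul_lt_top (ENNReal.rpow_lt_top_of_nonneg (by norm_num) ht) (Lp.memLp φ).2

/-- The embedding of the `L²` space of the cube into `L²(μ)`. -/
noncomputable def V (hE : MeasurableSet E) (h0 : μ E ≠ 0) (ht : μ E ≠ ∞) :
    Lp ℂ 2 (cube ι) →L[ℂ] Lp ℂ 2 μ :=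
  LinearMap.mkContinuous
    { toFun := fun φ => (C.memLp φ hE h0 ht).toLp (E.indicator (φ ∘ C.map))
      map_add' := by
        intro φ ψ
        rw [← MemLp.toLp_add]
        apply MemLp.toLp_congr
        filter_upwards [C.ae hE (Lp.coeFn_add φ ψ)] with x hx
        by_cases hxE : x ∈ E
        · simp only [Set.indicator_of_mem hxE, Function.comp_apply, Pi.add_apply, hx hxE]
        · simp [hxE]
      map_smul' := by
        intro c φ
        rw [RingHom.id_apply, ← MemLp.toLp_const_smul]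
        apply MemLp.toLp_congr
        filter_upwards [C.ae hE (Lp.coeFn_smul c φ)] with x hx
        by_cases hxE : x ∈ E
        · simp only [Set.indicator_of_mem hxE, Function.comp_apply, Pi.smul_apply, hx hxE]
        · simp [hxE] } ((μ E) ^ (1 / 2 : ℝ)).toReal (by
      intro φ
      simp only [LinearMap.coe_mk, AddHom.coe_mk]
      rw [Lp.norm_toLp, eLpNorm_indicator_eq_eLpNorm_restrict hE, C.eLpNorm_comp φ h0,
        ENNReal.toReal_mul, Lp.norm_def])

variable (hE : MeasurableSet E) (h0 : μ E ≠ 0) (ht : μ E ≠ ∞)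

theorem coeFn_V (φ : Lp ℂ 2 (cube ι)) :
    (C.V hE h0 ht φ : X → ℂ) =ᵐ[μ] E.indicator (φ ∘ C.map) :=
  MemLp.coeFn_toLp (C.memLp φ hE h0 ht)

theorem norm_V (φ : Lp ℂ 2 (cube ι)) :
    ‖C.V hE h0 ht φ‖ = ((μ E) ^ (1 / 2 : ℝ)).toReal * ‖φ‖ := by
  change ‖(C.memLp φ hE h0 ht).toLp (E.indicator (φ ∘ C.map))‖ = _
  rw [Lp.norm_toLp, eLpNorm_indicator_eq_eLpNorm_restrict hE, C.eLpNorm_comp φ h0,
        ENNReal.toReal_mul, Lp.norm_def]

theorem sq_toReal : ((μ E) ^ (1 / 2 : ℝ)).toReal ^ 2 = (μ E).toReal := by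
  rw [← ENNReal.toReal_pow, ← ENNReal.rpow_natCast, ← ENNReal.rpow_mul]
  norm_num

theorem inner_V (φ ψ : Lp ℂ 2 (cube ι)) :
    inner ℂ (C.V hE h0 ht φ) (C.V hE h0 ht ψ) = ((μ E).toReal : ℂ) * inner ℂ φ ψ := by
  rw [L2.inner_def, L2.inner_def]
  have h1 : ∀ᵐ x ∂μ, inner ℂ (C.V hE h0 ht φ x) (C.V hE h0 ht ψ x)
      = E.indicator (fun x => inner ℂ (φ (C.map x)) (ψ (C.map x))) x := by
    filter_upwards [C.coeFn_V hE h0 ht φ, C.coeFn_V hE h0 ht ψ] with x hx hy
    rw [hx, hy]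
    by_cases hxE : x ∈ E
    · simp [hxE]
    · simp [hxE]
  rw [integral_congr_ae h1, integral_indicator hE]
  have h2 : ∫ x in E, inner ℂ (φ (C.map x)) (ψ (C.map x)) ∂μ
      = ∫ y, inner ℂ (φ y) (ψ y) ∂((μ.restrict E).map C.map) := by
    rw [integral_map C.meas.aemeasurable]
    exact ((Lp.stronglyMeasurable φ).inner (Lp.stronglyMeasurable ψ)).aestronglyMeasurable
  rw [h2, C.map_eq, integral_smul_measure, Complex.real_smul]

theorem measure_support_V (φ : Lp ℂ 2 (cube ι)) :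
    μ (Function.support (C.V hE h0 ht φ)) = μ E * cube ι (Function.support φ) := by
  rw [support_measure_congr (C.coeFn_V hE h0 ht φ)]
  have h1 : Function.support (E.indicator (φ ∘ C.map)) = (C.map ⁻¹' (Function.support φ)) ∩ E := by
    ext x
    simp [and_comm]
  have hm : MeasurableSet (Function.support φ) :=
    measurableSet_support (Lp.stronglyMeasurable φ).measurable
  rw [h1, ← Measure.restrict_apply' hE, ← Measure.map_apply C.meas hm, C.map_eq]
  rfl

theorem adjoint_V_V (φ : Lp ℂ 2 (cube ι)) :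
    ContinuousLinearMap.adjoint (C.V hE h0 ht) (C.V hE h0 ht φ) = ((μ E).toReal : ℂ) • φ := by
  refine ext_inner_left ℂ fun ψ => ?_
  rw [ContinuousLinearMap.adjoint_inner_right, inner_V, inner_smul_right]

/-- multiplication by the indicator of `E`. -/
theorem memLp_indicator (f : Lp ℂ 2 μ) (hE : MeasurableSet E) : MemLp (E.indicator f) 2 μ :=
  (Lp.memLp f).indicator hE

/-- The restricted version of `V`, into the `L²` space of the restricted measure. -/
noncomputable def W : Lp ℂ 2 (cube ι) →L[ℂ] Lp ℂ 2 (μ.restrict E) :=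
  (LpToLpRestrictCLM X ℂ ℂ μ 2 E).comp (C.V hE h0 ht)

theorem coeFn_W (φ : Lp ℂ 2 (cube ι)) :
    (C.W hE h0 ht φ : X → ℂ) =ᵐ[μ.restrict E] φ ∘ C.map := by
  have h1 := LpToLpRestrictCLM_coeFn ℂ E (C.V hE h0 ht φ)
  have h2 := ae_restrict_of_ae (s := E) (C.coeFn_V hE h0 ht φ)
  filter_upwards [h1, h2, ae_restrict_mem hE] with x h1 h2 h3
  change (LpToLpRestrictCLM X ℂ ℂ μ 2 E (C.V hE h0 ht φ)) x = _
  rw [h1, h2, Set.indicator_of_mem h3]

theorem norm_W (φ : Lp ℂ 2 (cube ι)) :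
    ‖C.W hE h0 ht φ‖ = ((μ E) ^ (1 / 2 : ℝ)).toReal * ‖φ‖ := by
  rw [Lp.norm_def, eLpNorm_congr_ae (C.coeFn_W hE h0 ht φ), C.eLpNorm_comp φ h0,
        ENNReal.toReal_mul, Lp.norm_def]

theorem W_surjective : Function.Surjective (C.W hE h0 ht) := by
  have : IsFiniteMeasure (μ.restrict E) := ⟨by rw [Measure.restrict_apply_univ]; exact ht.lt_top⟩
  set c := ((μ E) ^ (1 / 2 : ℝ)).toReal with hc
  have hcpos : 0 < c := by
    rw [hc, ENNReal.toReal_pos_iff]
    exact ⟨ENNReal.rpow_pos (pos_iff_ne_zero.2 h0) ht,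
      ENNReal.rpow_lt_top_of_nonneg (by norm_num) ht⟩
  have hanti : AntilipschitzWith (⟨c⁻¹, by positivity⟩ : ℝ≥0) (C.W hE h0 ht) := by
    refine AddMonoidHomClass.antilipschitz_of_bound _ fun φ => ?_
    rw [norm_W]
    change ‖φ‖ ≤ c⁻¹ * (c * ‖φ‖)
    rw [← mul_assoc, inv_mul_cancel₀ hcpos.ne', one_mul]
  have hclosed : IsClosed (Set.range (C.W hE h0 ht)) :=
    hanti.isClosed_range (C.W hE h0 ht).uniformContinuous
  have hcl : IsClosed ((LinearMap.range (C.W hE h0 ht).toLinearMap : Submodule ℂ _) : Set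
      (Lp ℂ 2 (μ.restrict E))) := by
    have : ((LinearMap.range (C.W hE h0 ht).toLinearMap : Submodule ℂ _) : Set
      (Lp ℂ 2 (μ.restrict E))) = Set.range (C.W hE h0 ht) := rfl
    rw [this]; exact hclosed
  have hind : ∀ B : Set (ι → Bool), ∀ hB : MeasurableSet B,
      indicatorConstLp 2 (C.meas hB) (measure_ne_top (μ.restrict E) _) (1:ℂ)
        ∈ LinearMap.range (C.W hE h0 ht).toLinearMap := by
    intro B hB
    refine ⟨indicatorConstLp 2 hB (measure_ne_top (cube ι) _) (1:ℂ), ?_⟩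
    apply Lp.ext
    have h2 := C.ae_restrict (indicatorConstLp_coeFn (p := 2) (hs := hB)
      (hμs := measure_ne_top (cube ι) _) (c := (1:ℂ)))
    filter_upwards [C.coeFn_W hE h0 ht (indicatorConstLp 2 hB (measure_ne_top (cube ι) _) (1:ℂ)),
      h2, indicatorConstLp_coeFn (p := 2) (hs := C.meas hB)
      (hμs := measure_ne_top (μ.restrict E) _) (c := (1:ℂ))] with x h3 h4 h5
    rw [h5]
    change (C.W hE h0 ht (indicatorConstLp 2 hB (measure_ne_top (cube ι) _) (1:ℂ))) x = _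
    rw [h3, Function.comp_apply, h4]
    rfl
  have htop := submodule_eq_top_of_pi (μ := μ.restrict E)
    (LinearMap.range (C.W hE h0 ht).toLinearMap) hcl {s | MeasurableSet s}
    (MeasurableSpace.generateFrom_measurableSet).symm MeasurableSpace.isPiSystem_measurableSet
    (by have := hind Set.univ MeasurableSet.univ; exact this)
    (by
      intro s hs _
      have hex : ∀ n : ℕ, ∃ B : Set (ι → Bool), MeasurableSet B ∧
          (μ.restrict E) (s ∆ (C.map ⁻¹' B)) < ((n : ℝ≥0∞) + 1)⁻¹ := by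
        intro n
        exact C.dense s hs _ (by simp)
      choose B hB hBlt using hex
      refine hcl.mem_of_tendsto (b := Filter.atTop) (f := fun n => indicatorConstLp 2
        (C.meas (hB n)) (measure_ne_top (μ.restrict E) _) (1:ℂ)) ?_
        (Filter.Eventually.of_forall fun n => hind _ (hB n))
      apply tendsto_indicatorConstLp_set (by simp)
      have hlim : Filter.Tendsto (fun n : ℕ => ((n : ℝ≥0∞) + 1)⁻¹) Filter.atTop (nhds 0) := by
        have := ENNReal.tendsto_inv_nat_nhds_zero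
        have h2 := this.comp (Filter.tendsto_add_atTop_nat 1)
        refine h2.congr fun n => ?_
        simp
      refine tendsto_of_tendsto_of_tendsto_of_le_of_le tendsto_const_nhds hlim
        (fun n => bot_le) (fun n => ?_)
      change (μ.restrict E) ((C.map ⁻¹' B n) ∆ s) ≤ _
      rw [symmDiff_comm]; exact (hBlt n).le)
  intro f
  have : f ∈ LinearMap.range (C.W hE h0 ht).toLinearMap := by rw [htop]; trivial
  exact this

theorem exists_V_eq (f : Lp ℂ 2 μ) :
    ∃ φ, C.V hE h0 ht φ = (memLp_indicator f hE).toLp (E.indicator f) := by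
  obtain ⟨φ, hφ⟩ := C.W_surjective hE h0 ht (LpToLpRestrictCLM X ℂ ℂ μ 2 E f)
  refine ⟨φ, ?_⟩
  apply Lp.ext
  have h1 := C.coeFn_W hE h0 ht φ
  rw [hφ] at h1
  have h2 := (LpToLpRestrictCLM_coeFn ℂ E f).symm.trans h1
  rw [Filter.EventuallyEq, ae_restrict_iff' hE] at h2
  filter_upwards [C.coeFn_V hE h0 ht φ, MemLp.coeFn_toLp (memLp_indicator f hE), h2]
    with x h3 h4 h5
  rw [h3, h4]
  by_cases hx : x ∈ E
  · rw [Set.indicator_of_mem hx, Set.indicator_of_mem hx, h5 hx]
  · rw [Set.indicator_of_notMem hx, Set.indicator_of_notMem hx]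

theorem V_adjoint_V (f : Lp ℂ 2 μ) :
    C.V hE h0 ht (ContinuousLinearMap.adjoint (C.V hE h0 ht) f)
      = ((μ E).toReal : ℂ) • (memLp_indicator f hE).toLp (E.indicator f) := by
  obtain ⟨φ, hφ⟩ := C.exists_V_eq hE h0 ht f
  have h1 : ContinuousLinearMap.adjoint (C.V hE h0 ht) f
      = ContinuousLinearMap.adjoint (C.V hE h0 ht) (C.V hE h0 ht φ) := by
    refine ext_inner_left ℂ fun ψ => ?_
    rw [ContinuousLinearMap.adjoint_inner_right, ContinuousLinearMap.adjoint_inner_right,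
      L2.inner_def, L2.inner_def]
    apply integral_congr_ae
    rw [hφ]
    filter_upwards [C.coeFn_V hE h0 ht ψ, MemLp.coeFn_toLp (memLp_indicator f hE)] with x h1 h2
    rw [h1, h2]
    by_cases hx : x ∈ E
    · rw [Set.indicator_of_mem hx, Set.indicator_of_mem hx]
    · rw [Set.indicator_of_notMem hx, Set.indicator_of_notMem hx]; simp
  rw [h1, adjoint_V_V, map_smul, hφ]

theorem exps_V : Exps (C.V hE h0 ht) (μ E).toNNReal := by
  intro φ
  rw [measure_support_V, ENNReal.coe_toNNReal ht]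

theorem exps_adjoint_V : Exps (ContinuousLinearMap.adjoint (C.V hE h0 ht)) ((μ E).toNNReal)⁻¹ := by
  intro f
  have h1 := C.measure_support_V hE h0 ht (ContinuousLinearMap.adjoint (C.V hE h0 ht) f)
  rw [V_adjoint_V, support_measure_congr (Lp.coeFn_smul _ _)] at h1
  have h2 : μ (Function.support ((((μ E).toReal : ℂ)) •
      (((memLp_indicator f hE).toLp (E.indicator f) : Lp ℂ 2 μ) : X → ℂ)))
      ≤ μ (Function.support f) := by
    have h3 : μ (Function.support ((((μ E).toReal : ℂ)) •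
      (((memLp_indicator f hE).toLp (E.indicator f) : Lp ℂ 2 μ) : X → ℂ)))
      ≤ μ (Function.support ((((memLp_indicator f hE).toLp (E.indicator f) : Lp ℂ 2 μ)
        : X → ℂ))) := by
      refine measure_mono ?_
      intro x hx
      simp only [Function.mem_support, Pi.smul_apply, smul_eq_mul] at hx ⊢
      exact right_ne_zero_of_mul hx
    refine h3.trans ?_
    rw [support_measure_congr (MemLp.coeFn_toLp (memLp_indicator f hE))]
    refine measure_mono ?_
    intro x hx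
    by_cases hxE : x ∈ E
    · simpa [hxE] using hx
    · simp [hxE] at hx
  rw [h1] at h2
  have hne : (μ E).toNNReal ≠ 0 := by
    rw [Ne, ENNReal.toNNReal_eq_zero_iff]; push Not; exact ⟨h0, ht⟩
  rw [ENNReal.coe_inv hne, ENNReal.coe_toNNReal ht]
  rw [← ENNReal.div_eq_inv_mul, ENNReal.le_div_iff_mul_le (Or.inl h0) (Or.inl ht), mul_comm]
  exact h2

theorem bexps_V : BExps (C.V hE h0 ht) := by
  refine ⟨max (μ E).toNNReal ((μ E).toNNReal)⁻¹, (C.exps_V hE h0 ht).mono (le_max_left _ _),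
    (C.exps_adjoint_V hE h0 ht).mono (le_max_right _ _)⟩

theorem V_one : C.V hE h0 ht (one' ι) = indicatorConstLp 2 hE ht (1:ℂ) := by
  apply Lp.ext
  have h1 : ∀ᵐ y ∂(cube ι), (one' ι) y = 1 := by
    filter_upwards [coeFn_walshLp (ι := ι) ∅] with y hy
    unfold one'
    rw [hy]; simp [walsh]
  filter_upwards [C.coeFn_V hE h0 ht (one' ι), C.ae hE h1,
    indicatorConstLp_coeFn (p := 2) (hs := hE) (hμs := ht) (c := (1:ℂ))] with x h2 h3 h4
  rw [h2, h4]
  by_cases hx : x ∈ E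
  · rw [Set.indicator_of_mem hx, Set.indicator_of_mem hx, Function.comp_apply, h3 hx]
  · rw [Set.indicator_of_notMem hx, Set.indicator_of_notMem hx]

end Coding

/-- The rank-one operator between the indicators of two sets coded by the same infinite cube
belongs to `C*_u`. -/
theorem rankOne_mem_of_coding [Infinite ι] (C : Coding μ E ι) (D : Coding μ F ι)
    (hE : MeasurableSet E) (h0 : μ E ≠ 0) (ht : μ E ≠ ∞)
    (hF : MeasurableSet F) (hF0 : μ F ≠ 0) (hFt : μ F ≠ ∞) :
    InnerProductSpace.rankOne ℂ (indicatorConstLp 2 hE ht (1:ℂ))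
      (indicatorConstLp 2 hF hFt (1:ℂ)) ∈ CStarU μ := by
  rw [CStarU, Metric.mem_closure_iff]
  intro ε hε
  set A := C.V hE h0 ht with hA
  set B := ContinuousLinearMap.adjoint (D.V hF hF0 hFt) with hB
  set M : ℝ := ‖A‖ * ‖B‖ + 1 with hM
  have hMpos : 0 < M := by positivity
  obtain ⟨T, hT, hTε⟩ := exists_approx_proj0 ι (div_pos hε hMpos)
  refine ⟨A ∘L T ∘L B, ?_, ?_⟩
  · exact ((D.bexps_V hF hF0 hFt).adjoint.comp hT).comp (C.bexps_V hE h0 ht)
  · have heq : InnerProductSpace.rankOne ℂ (indicatorConstLp 2 hE ht (1:ℂ))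
        (indicatorConstLp 2 hF hFt (1:ℂ)) = A ∘L proj0 ι ∘L B := by
      ext1 f
      rw [InnerProductSpace.rankOne_apply, ContinuousLinearMap.comp_apply,
        ContinuousLinearMap.comp_apply, proj0, InnerProductSpace.rankOne_apply, map_smul, hA,
        Coding.V_one, hB, ContinuousLinearMap.adjoint_inner_right, Coding.V_one]
    rw [heq, dist_eq_norm]
    have : A ∘L proj0 ι ∘L B - A ∘L T ∘L B = A ∘L (proj0 ι - T) ∘L B := by
      rw [ContinuousLinearMap.sub_comp, ContinuousLinearMap.comp_sub]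
    rw [this]
    calc ‖A ∘L (proj0 ι - T) ∘L B‖ ≤ ‖A‖ * ‖(proj0 ι - T) ∘L B‖ :=
          ContinuousLinearMap.opNorm_comp_le _ _
      _ ≤ ‖A‖ * (‖proj0 ι - T‖ * ‖B‖) := by
          gcongr; exact ContinuousLinearMap.opNorm_comp_le _ _
      _ = ‖A‖ * ‖B‖ * ‖T - proj0 ι‖ := by rw [norm_sub_rev]; ring
      _ ≤ ‖A‖ * ‖B‖ * (ε / M) := by gcongr
      _ < M * (ε / M) := by
          apply mul_lt_mul_of_pos_right _ (div_pos hε hMpos)
          rw [hM]; linarith
      _ = ε := by field_simp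

end Pool.Agent.MP_fe632d_an
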