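import Pool.Agent.MP_fe632d_an.Walsh

open MeasureTheory Set
open scoped ENNReal NNReal symmDiff

namespace Pool.Agent.MP_fe632d_an

theorem hasSum_repr_sq {J H : Type*} [NormedAddCommGroup H] [InnerProductSpace ℂ H]
    (b : HilbertBasis J ℂ H) (f : H) : HasSum (fun j => ‖b.repr f j‖ ^ 2) (‖f‖ ^ 2) := by
  have h := lp.hasSum_norm (p := 2) (by norm_num) (b.repr f)
  have h2 : (2 : ℝ≥0∞).toReal = ((2 : ℕ) : ℝ) := by norm_num
  simp only [h2, Real.rpow_natCast, LinearIsometryEquiv.norm_map] at h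
  exact h

theorem tsum_abs_sq_sub_sq_le {J H : Type*} [NormedAddCommGroup H] [InnerProductSpace ℂ H]
    (b : HilbertBasis J ℂ H) (f g : H) (hfg : ‖g‖ = ‖f‖) :
    Summable (fun j => |‖b.repr f j‖ ^ 2 - ‖b.repr g j‖ ^ 2|) ∧
    ∑' j, |‖b.repr f j‖ ^ 2 - ‖b.repr g j‖ ^ 2| ≤ 2 * ‖f‖ * ‖f - g‖ := by
  have hf := hasSum_repr_sq b f
  have hg := hasSum_repr_sq b g
  have hd := hasSum_repr_sq b (f - g)
  have hd' : HasSum (fun j => ‖b.repr f j - b.repr g j‖ ^ 2) (‖f - g‖ ^ 2) := by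
    simpa [map_sub] using hd
  set a : J → ℝ := fun j => ‖b.repr f j - b.repr g j‖ with ha
  set c : J → ℝ := fun j => ‖b.repr f j‖ + ‖b.repr g j‖ with hc
  have hc2 : ∀ j, c j ^ 2 ≤ 2 * ‖b.repr f j‖ ^ 2 + 2 * ‖b.repr g j‖ ^ 2 := by
    intro j
    simp only [hc]
    nlinarith [sq_nonneg (‖b.repr f j‖ - ‖b.repr g j‖)]
  have hsum2 : HasSum (fun j => 2 * ‖b.repr f j‖ ^ 2 + 2 * ‖b.repr g j‖ ^ 2)
      (2 * ‖f‖ ^ 2 + 2 * ‖g‖ ^ 2) := (hf.mul_left 2).add (hg.mul_left 2)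
  have hcs : Summable (fun j => c j ^ 2) :=
    Summable.of_nonneg_of_le (fun j => sq_nonneg _) hc2 hsum2.summable
  have hct : ∑' j, c j ^ 2 ≤ (2 * ‖f‖) ^ 2 := by
    refine (hcs.tsum_le_tsum hc2 hsum2.summable).trans ?_
    rw [hsum2.tsum_eq, hfg]; nlinarith [sq_nonneg ‖f‖]
  have hpq : (2 : ℝ).HolderConjugate 2 := by
    rw [Real.holderConjugate_iff]; norm_num
  have hA : Summable fun j => a j ^ (2:ℝ) := by simpa using hd'.summable
  have hC : Summable fun j => c j ^ (2:ℝ) := by simpa using hcs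
  have h1 : Summable fun j => a j * c j :=
    Real.summable_mul_of_Lp_Lq_of_nonneg hpq (fun j => norm_nonneg _)
    (fun j => by positivity) hA hC
  have h2 := Real.inner_le_Lp_mul_Lq_tsum_of_nonneg hpq (f := a) (g := c)
    (fun j => norm_nonneg _) (fun j => by positivity) hA hC
  have hle : ∀ j, |‖b.repr f j‖ ^ 2 - ‖b.repr g j‖ ^ 2| ≤ a j * c j := by
    intro j
    have : ‖b.repr f j‖ ^ 2 - ‖b.repr g j‖ ^ 2
      = (‖b.repr f j‖ - ‖b.repr g j‖) * (‖b.repr f j‖ + ‖b.repr g j‖) := by ring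
    rw [this, abs_mul, abs_of_nonneg (a := ‖b.repr f j‖ + ‖b.repr g j‖) (by positivity)]
    exact mul_le_mul_of_nonneg_right (abs_norm_sub_norm_le _ _) (by positivity)
  have hS : Summable (fun j => |‖b.repr f j‖ ^ 2 - ‖b.repr g j‖ ^ 2|) :=
    Summable.of_nonneg_of_le (fun j => abs_nonneg _) hle h1
  refine ⟨hS, ?_⟩
  refine (hS.tsum_le_tsum hle h1).trans (h2.trans ?_)
  have e1 : (∑' i, a i ^ (2:ℝ)) ^ (1 / (2:ℝ)) = ‖f - g‖ := by
    have : (fun i => a i ^ (2:ℝ)) = fun i => a i ^ 2 := by funext i; simp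
    rw [this, hd'.tsum_eq, ← Real.sqrt_eq_rpow, Real.sqrt_sq (norm_nonneg _)]
  have e2 : (∑' i, c i ^ (2:ℝ)) ^ (1 / (2:ℝ)) ≤ 2 * ‖f‖ := by
    have : (fun i => c i ^ (2:ℝ)) = fun i => c i ^ 2 := by funext i; simp
    rw [this, ← Real.sqrt_eq_rpow]
    exact Real.sqrt_le_iff.2 ⟨by positivity, hct⟩
  rw [e1]
  calc ‖f - g‖ * _ ≤ ‖f - g‖ * (2 * ‖f‖) := mul_le_mul_of_nonneg_left e2 (norm_nonneg _)
    _ = _ := by ring

variable {ι : Type*}

attribute [local instance] Classical.propDecidable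

/-- The share of `S` lying in `W`. -/
noncomputable def wt (W : Set ι) (S : Finset ι) : ℝ :=
  ((@Finset.filter ι (· ∈ W) (fun _ => Classical.propDecidable _) S).card : ℝ) / S.card

theorem wt_nonneg (W : Set ι) (S : Finset ι) : 0 ≤ wt W S := by unfold wt; positivity

theorem wt_le_one (W : Set ι) (S : Finset ι) : wt W S ≤ 1 := by
  unfold wt
  refine div_le_one_of_le₀ ?_ (by positivity)
  exact_mod_cast Finset.card_filter_le _ _

theorem wt_compl (W : Set ι) {S : Finset ι} (hS : S.Nonempty) : wt Wᶜ S = 1 - wt W S := by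
  classical
  have hc : (S.card : ℝ) ≠ 0 := by exact_mod_cast hS.card_pos.ne'
  have h := Finset.card_filter_add_card_filter_not (s := S) (fun i => i ∈ W)
  have h1 : wt W S = ((S.filter (fun i => i ∈ W)).card : ℝ) / S.card := by
    unfold wt; congr
  have h2 : wt Wᶜ S = ((S.filter (fun i => i ∉ W)).card : ℝ) / S.card := by
    unfold wt; congr
  have h' : ((S.filter (fun i => i ∈ W)).card : ℝ) + ((S.filter (fun i => i ∉ W)).card : ℝ)
      = S.card := by
    exact_mod_cast h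
  rw [h1, h2]
  field_simp
  linarith

theorem wt_sum (c : ι → Fin 3) {S : Finset ι} (hS : S.Nonempty) :
    wt (c ⁻¹' {0}) S + wt (c ⁻¹' {1}) S + wt (c ⁻¹' {2}) S = 1 := by
  classical
  have hc : (S.card : ℝ) ≠ 0 := by exact_mod_cast hS.card_pos.ne'
  have h : ((S.filter (fun i => c i = 0)).card) + ((S.filter (fun i => c i = 1)).card)
      + ((S.filter (fun i => c i = 2)).card) = S.card := by
    have := Finset.card_eq_sum_card_fiberwise (s := S) (t := Finset.univ) (f := c)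
      (fun _ _ => Finset.mem_coe.2 (Finset.mem_univ _))
    rw [this, Fin.sum_univ_three]
  have h' : ((S.filter (fun i => c i = 0)).card : ℝ) + ((S.filter (fun i => c i = 1)).card : ℝ)
      + ((S.filter (fun i => c i = 2)).card : ℝ) = S.card := by exact_mod_cast h
  have hk : ∀ k, wt (c ⁻¹' {k}) S = ((S.filter (fun i => c i = k)).card : ℝ) / S.card := by
    intro k
    unfold wt; congr
  rw [hk, hk, hk]
  field_simp
  linarith

theorem wt_image (σ : Equiv.Perm ι) (W : Set ι) (S : Finset ι) :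
    wt (σ '' W) (S.map σ.toEmbedding) = wt W S := by
  unfold wt
  rw [Finset.card_map]
  congr 2
  rw [Finset.filter_map, Finset.card_map]
  congr 1
  ext i
  simp

/-- The key estimate for one permutation exchanging `W` and its complement. -/
theorem key_one (σ : Equiv.Perm ι) (W : Set ι) (hW : σ '' W = Wᶜ) (f : Lp ℂ 2 (cube ι))
    (hf : (walshBasis ι).repr f ∅ = 0) :
    ‖f‖ ^ 2 ≤ 2 * ∑' S, ‖(walshBasis ι).repr f S‖ ^ 2 * wt W S + 2 * ‖f‖ * ‖f - koop σ f‖ := by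
  set b := walshBasis ι with hb
  have hsq := hasSum_repr_sq b f
  have hW' : ∀ V : Set ι, Summable fun S => ‖b.repr f S‖ ^ 2 * wt V S := by
    intro V
    refine Summable.of_nonneg_of_le (fun S => mul_nonneg (sq_nonneg _) (wt_nonneg _ _))
      (fun S => ?_) hsq.summable
    exact mul_le_of_le_one_right (sq_nonneg _) (wt_le_one _ _)
  obtain ⟨hs, hle⟩ := tsum_abs_sq_sub_sq_le b f (koop σ f) (LinearIsometry.norm_map _ _)
  -- sum over the complement
  have h1 : ∑' S, ‖b.repr f S‖ ^ 2 * wt Wᶜ S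
      = ‖f‖ ^ 2 - ∑' S, ‖b.repr f S‖ ^ 2 * wt W S := by
    rw [← hsq.tsum_eq, ← hsq.summable.tsum_sub (hW' W)]
    refine tsum_congr fun S => ?_
    rcases S.eq_empty_or_nonempty with h | h
    · subst h; rw [hf]; simp
    · rw [wt_compl W h]; ring
  -- reindex
  have hW'' : Summable fun S => ‖b.repr (koop σ f) S‖ ^ 2 * wt Wᶜ S := by
    refine Summable.of_nonneg_of_le (fun S => mul_nonneg (sq_nonneg _) (wt_nonneg _ _))
      (fun S => ?_) (hasSum_repr_sq b (koop σ f)).summable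
    exact mul_le_of_le_one_right (sq_nonneg _) (wt_le_one _ _)
  have h2 : ∑' S, ‖b.repr (koop σ f) S‖ ^ 2 * wt Wᶜ S = ∑' S, ‖b.repr f S‖ ^ 2 * wt W S := by
    rw [← (Equiv.finsetCongr σ).tsum_eq (fun S => ‖b.repr (koop σ f) S‖ ^ 2 * wt Wᶜ S)]
    refine tsum_congr fun S => ?_
    rw [Equiv.finsetCongr_apply, repr_koop, ← hW, wt_image]
  have h3 : ∑' S, ‖b.repr f S‖ ^ 2 * wt Wᶜ S - ∑' S, ‖b.repr (koop σ f) S‖ ^ 2 * wt Wᶜ S
      ≤ ∑' S, |‖b.repr f S‖ ^ 2 - ‖b.repr (koop σ f) S‖ ^ 2| := by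
    rw [← (hW' Wᶜ).tsum_sub hW'']
    refine ((hW' Wᶜ).sub hW'').tsum_le_tsum (fun S => ?_) hs
    rw [← sub_mul]
    calc (‖b.repr f S‖ ^ 2 - ‖b.repr (koop σ f) S‖ ^ 2) * wt Wᶜ S
        ≤ |‖b.repr f S‖ ^ 2 - ‖b.repr (koop σ f) S‖ ^ 2| * wt Wᶜ S :=
          mul_le_mul_of_nonneg_right (le_abs_self _) (wt_nonneg _ _)
      _ ≤ _ := mul_le_of_le_one_right (abs_nonneg _) (wt_le_one _ _)
  linarith

/-- Three permutations each exchanging one block of a three-block partition with its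
complement have a joint spectral gap. -/
theorem gap_three (σ : Fin 3 → Equiv.Perm ι) (c : ι → Fin 3)
    (hσ : ∀ k, σ k '' (c ⁻¹' {k}) = (c ⁻¹' {k})ᶜ) (f : Lp ℂ 2 (cube ι))
    (hf : (walshBasis ι).repr f ∅ = 0) :
    ‖f‖ ≤ 2 * ∑ k, ‖f - koop (σ k) f‖ := by
  have h0 := key_one (σ 0) _ (hσ 0) f hf
  have h1 := key_one (σ 1) _ (hσ 1) f hf
  have h2 := key_one (σ 2) _ (hσ 2) f hf
  set b := walshBasis ι with hb
  have hsq := hasSum_repr_sq b f
  have hW' : ∀ V : Set ι, Summable fun S => ‖b.repr f S‖ ^ 2 * wt V S := by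
    intro V
    refine Summable.of_nonneg_of_le (fun S => mul_nonneg (sq_nonneg _) (wt_nonneg _ _))
      (fun S => ?_) hsq.summable
    exact mul_le_of_le_one_right (sq_nonneg _) (wt_le_one _ _)
  have hsum : (∑' S, ‖b.repr f S‖ ^ 2 * wt (c ⁻¹' {0}) S)
      + (∑' S, ‖b.repr f S‖ ^ 2 * wt (c ⁻¹' {1}) S)
      + (∑' S, ‖b.repr f S‖ ^ 2 * wt (c ⁻¹' {2}) S) = ‖f‖ ^ 2 := by
    rw [← (hW' _).tsum_add (hW' _), ← ((hW' _).add (hW' _)).tsum_add (hW' _), ← hsq.tsum_eq]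
    refine tsum_congr fun S => ?_
    rcases S.eq_empty_or_nonempty with h | h
    · subst h; rw [hf]; simp
    · rw [← mul_add, ← mul_add, wt_sum c h, mul_one]
  rw [Fin.sum_univ_three]
  rcases eq_or_lt_of_le (norm_nonneg f) with h | h
  · rw [← h]; positivity
  · have : ‖f‖ * ‖f‖ ≤ ‖f‖ * (2 * (‖f - koop (σ 0) f‖ + ‖f - koop (σ 1) f‖
        + ‖f - koop (σ 2) f‖)) := by nlinarith
    exact le_of_mul_le_mul_left this h

/-- On an infinite set there are three permutations as above. -/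
theorem exists_perms (ι : Type*) [Infinite ι] : ∃ (σ : Fin 3 → Equiv.Perm ι) (c : ι → Fin 3),
    ∀ k, σ k '' (c ⁻¹' {k}) = (c ⁻¹' {k})ᶜ := by
  classical
  have e : Nonempty (ι ≃ ι × Fin 3) := by
    rw [← Cardinal.eq]
    rw [Cardinal.mk_prod, Cardinal.mk_fin]
    simp only [Cardinal.lift_natCast, Cardinal.lift_uzero]
    exact (Cardinal.mul_eq_left (Cardinal.aleph0_le_mk ι)
      ((Cardinal.natCast_lt_aleph0 (n := 3)).le.trans (Cardinal.aleph0_le_mk ι))
      (by norm_num)).symm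
  obtain ⟨e⟩ := e
  let c : ι → Fin 3 := fun i => (e i).2
  have hcard : ∀ k, Nonempty ((c ⁻¹' {k} : Set ι) ≃ ((c ⁻¹' {k})ᶜ : Set ι)) := by
    intro k
    rw [← Cardinal.eq]
    have hk : ∀ j, Cardinal.mk (c ⁻¹' {j} : Set ι) = Cardinal.mk ι := by
      intro j
      refine le_antisymm (Cardinal.mk_set_le _) ?_
      refine Cardinal.mk_le_of_injective (f := fun i : ι => (⟨e.symm (i, j), by simp [c]⟩ :
        (c ⁻¹' {j} : Set ι))) ?_
      intro i i' h
      simpa using h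
    rw [hk]
    refine le_antisymm ?_ (Cardinal.mk_set_le _)
    obtain ⟨j, hj⟩ := exists_ne k
    rw [← hk j]
    refine Cardinal.mk_le_mk_of_subset ?_
    intro i hi
    simp only [mem_preimage, mem_singleton_iff, mem_compl_iff] at hi ⊢
    rw [hi]; exact hj
  have hperm : ∀ k, ∃ σ : Equiv.Perm ι, σ '' (c ⁻¹' {k}) = (c ⁻¹' {k})ᶜ := by
    intro k
    obtain ⟨f⟩ := hcard k
    let g : Equiv.Perm ι := (Equiv.Set.sumCompl (c ⁻¹' {k})).symm.trans
      ((Equiv.sumCongr f f.symm).trans ((Equiv.sumComm _ _).trans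
        (Equiv.Set.sumCompl (c ⁻¹' {k}))))
    have hg1 : ∀ i (hi : i ∈ c ⁻¹' {k}), g i = f ⟨i, hi⟩ := by
      intro i hi
      simp only [g, Equiv.trans_apply]
      rw [Equiv.Set.sumCompl_symm_apply_of_mem hi]
      simp
    refine ⟨g, ?_⟩
    ext i
    constructor
    · rintro ⟨j, hj, rfl⟩
      rw [hg1 j hj]
      exact (f ⟨j, hj⟩).2
    · intro hi
      refine ⟨f.symm ⟨i, hi⟩, (f.symm ⟨i, hi⟩).2, ?_⟩
      rw [hg1 _ (f.symm ⟨i, hi⟩).2]
      simp
  choose σ hσ using hperm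
  exact ⟨σ, c, hσ⟩

end Pool.Agent.MP_fe632d_an
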