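import Pool.Agent.MP_fe632d_an.Defs
import Pool.Agent.MP_fe632d_an.Gap

open MeasureTheory Set
open scoped ENNReal NNReal

namespace Pool.Agent.MP_fe632d_an

variable {X Y Z : Type*} [MeasurableSpace X] [MeasurableSpace Y] [MeasurableSpace Z]
  {μ : Measure X} {ν : Measure Y} {ρ : Measure Z}

/-- One-sided support expansion between two `L²` spaces. -/
def Exps (T : Lp ℂ 2 μ →L[ℂ] Lp ℂ 2 ν) (c : ℝ≥0) : Prop :=
  ∀ ξ : Lp ℂ 2 μ, ν (Function.support (T ξ)) ≤ c * μ (Function.support ξ)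

theorem support_measure_congr {f g : X → ℂ} (h : f =ᵐ[μ] g) :
    μ (Function.support f) = μ (Function.support g) := by
  apply measure_congr
  filter_upwards [h] with x hx
  have : (Function.support f) x = (Function.support g) x := by
    change (f x ≠ 0) = (g x ≠ 0)
    rw [hx]
  exact this

theorem Exps.comp {T : Lp ℂ 2 μ →L[ℂ] Lp ℂ 2 ν} {S : Lp ℂ 2 ν →L[ℂ] Lp ℂ 2 ρ} {c d : ℝ≥0}
    (hT : Exps T c) (hS : Exps S d) : Exps (S ∘L T) (d * c) := by
  intro ξ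
  calc ρ (Function.support (S (T ξ))) ≤ d * ν (Function.support (T ξ)) := hS _
    _ ≤ d * (c * μ (Function.support ξ)) := by gcongr; exact hT ξ
    _ = _ := by rw [ENNReal.coe_mul, mul_assoc]

theorem Exps.add {T S : Lp ℂ 2 μ →L[ℂ] Lp ℂ 2 ν} {c d : ℝ≥0}
    (hT : Exps T c) (hS : Exps S d) : Exps (T + S) (c + d) := by
  intro ξ
  have h : ν (Function.support ((T + S) ξ)) ≤ ν (Function.support (T ξ))
      + ν (Function.support (S ξ)) := by
    rw [show (T + S) ξ = T ξ + S ξ from rfl, support_measure_congr (Lp.coeFn_add (T ξ) (S ξ))]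
    refine (measure_mono ?_).trans (measure_union_le _ _)
    exact Function.support_add _ _
  refine h.trans ((add_le_add (hT ξ) (hS ξ)).trans ?_)
  rw [ENNReal.coe_add, add_mul]

theorem Exps.smul {T : Lp ℂ 2 μ →L[ℂ] Lp ℂ 2 ν} {c : ℝ≥0}
    (hT : Exps T c) (a : ℂ) : Exps (a • T) c := by
  intro ξ
  have h : ν (Function.support ((a • T) ξ)) ≤ ν (Function.support (T ξ)) := by
    rw [show (a • T) ξ = a • T ξ from rfl, support_measure_congr (Lp.coeFn_smul a (T ξ))]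
    refine measure_mono ?_
    intro x hx
    simp only [Function.mem_support, Pi.smul_apply, smul_eq_mul] at hx ⊢
    exact right_ne_zero_of_mul hx
  exact h.trans (hT ξ)

theorem Exps.zero : Exps (0 : Lp ℂ 2 μ →L[ℂ] Lp ℂ 2 ν) 0 := by
  intro ξ
  rw [show (0 : Lp ℂ 2 μ →L[ℂ] Lp ℂ 2 ν) ξ = 0 from rfl,
    support_measure_congr (Lp.coeFn_zero ℂ 2 ν)]
  simp

theorem Exps.id : Exps (ContinuousLinearMap.id ℂ (Lp ℂ 2 μ)) 1 := by
  intro ξ; simp

theorem Exps.mono {T : Lp ℂ 2 μ →L[ℂ] Lp ℂ 2 ν} {c d : ℝ≥0} (hT : Exps T c) (h : c ≤ d) :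
    Exps T d := by
  intro ξ
  refine (hT ξ).trans ?_
  gcongr

/-- Two-sided support expansion between two `L²` spaces. -/
def BExps (T : Lp ℂ 2 μ →L[ℂ] Lp ℂ 2 ν) : Prop :=
  ∃ c : ℝ≥0, Exps T c ∧ Exps (ContinuousLinearMap.adjoint T) c

theorem BExps.comp {T : Lp ℂ 2 μ →L[ℂ] Lp ℂ 2 ν} {S : Lp ℂ 2 ν →L[ℂ] Lp ℂ 2 ρ}
    (hT : BExps T) (hS : BExps S) : BExps (S ∘L T) := by
  obtain ⟨c, h1, h2⟩ := hT
  obtain ⟨d, h3, h4⟩ := hS
  refine ⟨d * c, h1.comp h3, ?_⟩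
  rw [ContinuousLinearMap.adjoint_comp, mul_comm]
  exact h4.comp h2

theorem BExps.add {T S : Lp ℂ 2 μ →L[ℂ] Lp ℂ 2 ν} (hT : BExps T) (hS : BExps S) :
    BExps (T + S) := by
  obtain ⟨c, h1, h2⟩ := hT
  obtain ⟨d, h3, h4⟩ := hS
  refine ⟨c + d, h1.add h3, ?_⟩
  rw [map_add]
  exact h2.add h4

theorem BExps.smul {T : Lp ℂ 2 μ →L[ℂ] Lp ℂ 2 ν} (hT : BExps T) (a : ℂ) : BExps (a • T) := by
  obtain ⟨c, h1, h2⟩ := hT
  refine ⟨c, h1.smul a, ?_⟩
  rw [map_smulₛₗ]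
  exact h2.smul _

theorem BExps.zero : BExps (0 : Lp ℂ 2 μ →L[ℂ] Lp ℂ 2 ν) :=
  ⟨0, Exps.zero, by rw [map_zero]; exact Exps.zero⟩

theorem BExps.id : BExps (ContinuousLinearMap.id ℂ (Lp ℂ 2 μ)) :=
  ⟨1, Exps.id, by
    have : ContinuousLinearMap.adjoint (ContinuousLinearMap.id ℂ (Lp ℂ 2 μ))
      = ContinuousLinearMap.id ℂ (Lp ℂ 2 μ) := by
      symm
      rw [ContinuousLinearMap.eq_adjoint_iff]; intro x y; rfl
    rw [this]; exact Exps.id⟩

theorem BExps.adjoint {T : Lp ℂ 2 μ →L[ℂ] Lp ℂ 2 ν} (hT : BExps T) :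
    BExps (ContinuousLinearMap.adjoint T) := by
  obtain ⟨c, h1, h2⟩ := hT
  exact ⟨c, h2, by rw [ContinuousLinearMap.adjoint_adjoint]; exact h1⟩

theorem bexps_iff {a : Lp ℂ 2 μ →L[ℂ] Lp ℂ 2 μ} :
    BExps a ↔ ∃ lam : ℝ≥0, HasSupportExpansion μ a lam := Iff.rfl

/-- The operators of finite support expansion form a linear subspace. -/
def finExp (μ : Measure X) : Submodule ℂ (Lp ℂ 2 μ →L[ℂ] Lp ℂ 2 μ) where
  carrier := {a | BExps a}
  add_mem' := fun h1 h2 => h1.add h2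
  zero_mem' := BExps.zero
  smul_mem' := fun c _ h => h.smul c

theorem cStarU_eq (μ : Measure X) : CStarU μ = ((finExp μ).topologicalClosure : Set _) := by
  rw [Submodule.topologicalClosure_coe]; rfl

theorem mem_cStarU_iff {a : Lp ℂ 2 μ →L[ℂ] Lp ℂ 2 μ} :
    a ∈ CStarU μ ↔ a ∈ (finExp μ).topologicalClosure := by
  rw [cStarU_eq]; rfl

/-! ### The averaging operator on the cube -/

variable {ι : Type*}

/-- The Koopman operator as a bounded operator. -/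
noncomputable def koopL (σ : Equiv.Perm ι) : Lp ℂ 2 (cube ι) →L[ℂ] Lp ℂ 2 (cube ι) :=
  (koop σ).toContinuousLinearMap

theorem koopL_apply (σ : Equiv.Perm ι) (f : Lp ℂ 2 (cube ι)) : koopL σ f = koop σ f := rfl

theorem exps_koopL (σ : Equiv.Perm ι) : Exps (koopL σ) 1 := by
  intro ξ
  rw [koopL_apply, support_measure_congr (coeFn_koop σ ξ)]
  have h : Function.support (fun x => ξ (permMap σ x)) = permMap σ ⁻¹' (Function.support ξ) := rfl
  rw [h, (measurePreserving_permMap σ).measure_preimage]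
  · simp
  · exact (measurableSet_support (Lp.stronglyMeasurable ξ).measurable).nullMeasurableSet

theorem koop_koop_inv (σ : Equiv.Perm ι) (f : Lp ℂ 2 (cube ι)) :
    koop σ (koop σ⁻¹ f) = f := by
  apply Lp.ext
  have h := (measurePreserving_permMap σ).quasiMeasurePreserving.ae_eq_comp
    (coeFn_koop σ⁻¹ f)
  filter_upwards [coeFn_koop σ (koop σ⁻¹ f), h] with x h1 h2
  rw [h1]
  have h3 : (koop σ⁻¹ f) (permMap σ x) = f (permMap σ⁻¹ (permMap σ x)) := h2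
  rw [h3]
  congr 1
  funext i
  simp [permMap]

theorem adjoint_koopL (σ : Equiv.Perm ι) :
    ContinuousLinearMap.adjoint (koopL σ) = koopL σ⁻¹ := by
  symm
  rw [ContinuousLinearMap.eq_adjoint_iff]
  intro f g
  rw [koopL_apply, koopL_apply]
  conv_lhs => rw [← LinearIsometry.inner_map_map (koop σ), koop_koop_inv]

theorem bexps_koopL (σ : Equiv.Perm ι) : BExps (koopL σ) :=
  ⟨1, exps_koopL σ, by rw [adjoint_koopL]; exact exps_koopL _⟩

/-- The averaging operator `(1/3) ∑ₖ (1 + U_k)/2`. -/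
noncomputable def avg (σ : Fin 3 → Equiv.Perm ι) : Lp ℂ 2 (cube ι) →L[ℂ] Lp ℂ 2 (cube ι) :=
  (3⁻¹ : ℂ) • ∑ k, (2⁻¹ : ℂ) • (ContinuousLinearMap.id ℂ _ + koopL (σ k))

theorem bexps_sum {J : Type*} (s : Finset J) (T : J → (Lp ℂ 2 μ →L[ℂ] Lp ℂ 2 ν))
    (h : ∀ j ∈ s, BExps (T j)) : BExps (∑ j ∈ s, T j) := by
  classical
  induction s using Finset.induction_on with
  | empty => simpa using BExps.zero
  | insert j s hj ih =>
    rw [Finset.sum_insert hj]
    exact (h j (Finset.mem_insert_self _ _)).add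
      (ih fun i hi => h i (Finset.mem_insert_of_mem hi))

theorem bexps_avg (σ : Fin 3 → Equiv.Perm ι) : BExps (avg σ) := by
  unfold avg
  refine BExps.smul (bexps_sum _ _ fun k _ => BExps.smul (BExps.add BExps.id (bexps_koopL _)) _) _

theorem bexps_avg_pow (σ : Fin 3 → Equiv.Perm ι) (n : ℕ) : BExps (avg σ ^ n) := by
  induction n with
  | zero => exact BExps.id
  | succ n ih => rw [pow_succ']; exact ih.comp (bexps_avg σ)

/-- The contraction ratio. -/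
noncomputable def rat : ℝ := (2 + √(143 / 144)) / 3

theorem rat_nonneg : 0 ≤ rat := by unfold rat; positivity
theorem rat_lt_one : rat < 1 := by
  unfold rat
  have : √(143 / 144) < 1 := by
    rw [Real.sqrt_lt' one_pos]; norm_num
  linarith

theorem norm_half_add {H : Type*} [NormedAddCommGroup H] [InnerProductSpace ℂ H] (f g : H)
    (h : ‖g‖ = ‖f‖) : ‖(2⁻¹ : ℂ) • (f + g)‖ ^ 2 = ‖f‖ ^ 2 - ‖f - g‖ ^ 2 / 4 := by
  have h1 := parallelogram_law_with_norm ℂ f g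
  rw [norm_smul, mul_pow]
  have h2 : ‖(2⁻¹ : ℂ)‖ = 1 / 2 := by simp
  rw [h2]
  rw [h] at h1
  nlinarith

theorem norm_avg_le (σ : Fin 3 → Equiv.Perm ι) (c : ι → Fin 3)
    (hσ : ∀ k, σ k '' (c ⁻¹' {k}) = (c ⁻¹' {k})ᶜ) (f : Lp ℂ 2 (cube ι))
    (hf : (walshBasis ι).repr f ∅ = 0) : ‖avg σ f‖ ≤ rat * ‖f‖ := by
  have hgap := gap_three σ c hσ f hf
  have happ : avg σ f = (3⁻¹ : ℂ) • ∑ k, (2⁻¹ : ℂ) • (f + koop (σ k) f) := by
    unfold avg
    simp only [smul_apply, sum_apply,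
      add_apply, ContinuousLinearMap.id_apply, koopL_apply]
  have hk : ∀ k, ‖(2⁻¹ : ℂ) • (f + koop (σ k) f)‖ ^ 2 = ‖f‖ ^ 2 - ‖f - koop (σ k) f‖ ^ 2 / 4 :=
    fun k => norm_half_add f _ (LinearIsometry.norm_map _ _)
  have hk1 : ∀ k, ‖(2⁻¹ : ℂ) • (f + koop (σ k) f)‖ ≤ ‖f‖ := by
    intro k
    refine le_of_sq_le_sq ?_ (norm_nonneg _)
    rw [hk]; nlinarith [sq_nonneg ‖f - koop (σ k) f‖]
  have hex : ∃ k, ‖f‖ / 6 ≤ ‖f - koop (σ k) f‖ := by
    by_contra hcon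
    push Not at hcon
    rw [Fin.sum_univ_three] at hgap
    have h0 := hcon 0
    have h1 := hcon 1
    have h2 := hcon 2
    linarith
  obtain ⟨k0, hk0⟩ := hex
  have hk2 : ‖(2⁻¹ : ℂ) • (f + koop (σ k0) f)‖ ≤ √(143 / 144) * ‖f‖ := by
    refine le_of_sq_le_sq ?_ (by positivity)
    rw [hk, mul_pow, Real.sq_sqrt (by norm_num)]
    have : (‖f‖ / 6) ^ 2 ≤ ‖f - koop (σ k0) f‖ ^ 2 :=
      pow_le_pow_left₀ (by positivity) hk0 2
    nlinarith
  have hsum : ‖∑ k, (2⁻¹ : ℂ) • (f + koop (σ k) f)‖ ≤ (2 + √(143 / 144)) * ‖f‖ := by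
    rw [← Finset.add_sum_erase Finset.univ _ (Finset.mem_univ k0)]
    refine (norm_add_le _ _).trans ?_
    have h2 : ‖∑ k ∈ Finset.univ.erase k0, (2⁻¹ : ℂ) • (f + koop (σ k) f)‖ ≤ 2 * ‖f‖ := by
      refine (norm_sum_le _ _).trans ?_
      refine (Finset.sum_le_sum fun k _ => hk1 k).trans ?_
      rw [Finset.sum_const, Finset.card_erase_of_mem (Finset.mem_univ _)]
      simp
    linarith
  rw [happ, norm_smul]
  have h3 : ‖(3⁻¹ : ℂ)‖ = 1 / 3 := by simp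
  rw [h3]; unfold rat
  linarith

/-- The constant function `1`. -/
noncomputable def one' (ι : Type*) : Lp ℂ 2 (cube ι) := walshLp ∅

theorem koop_one (σ : Equiv.Perm ι) : koop σ (one' ι) = one' ι := by
  unfold one'
  rw [koop_walshLp, Finset.map_empty]

theorem avg_one (σ : Fin 3 → Equiv.Perm ι) : avg σ (one' ι) = one' ι := by
  unfold avg
  simp only [smul_apply, sum_apply,
      add_apply, ContinuousLinearMap.id_apply, koopL_apply, koop_one]
  rw [Finset.sum_const, Finset.card_univ, Fintype.card_fin, ← two_smul ℂ (one' ι), smul_smul,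
    ← Nat.cast_smul_eq_nsmul ℂ 3, smul_smul, smul_smul]
  norm_num

theorem repr_avg (σ : Fin 3 → Equiv.Perm ι) (f : Lp ℂ 2 (cube ι)) :
    (walshBasis ι).repr (avg σ f) ∅ = (walshBasis ι).repr f ∅ := by
  have hk : ∀ k, (walshBasis ι).repr (koop (σ k) f) ∅ = (walshBasis ι).repr f ∅ := by
    intro k
    have := repr_koop (σ k) f ∅
    rwa [Finset.map_empty] at this
  have happ : avg σ f = (3⁻¹ : ℂ) • ∑ k, (2⁻¹ : ℂ) • (f + koop (σ k) f) := by
    unfold avg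
    simp only [smul_apply, sum_apply,
      add_apply, ContinuousLinearMap.id_apply, koopL_apply]
  rw [happ, Fin.sum_univ_three]
  simp only [map_smul, map_add, lp.coeFn_smul, lp.coeFn_add, Pi.smul_apply, Pi.add_apply, hk,
    smul_eq_mul]
  ring

/-- The projection onto the constants. -/
noncomputable def proj0 (ι : Type*) : Lp ℂ 2 (cube ι) →L[ℂ] Lp ℂ 2 (cube ι) :=
  InnerProductSpace.rankOne ℂ (one' ι) (one' ι)

theorem norm_avg_pow_sub_le (σ : Fin 3 → Equiv.Perm ι) (c : ι → Fin 3)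
    (hσ : ∀ k, σ k '' (c ⁻¹' {k}) = (c ⁻¹' {k})ᶜ) (n : ℕ) :
    ‖avg σ ^ n - proj0 ι‖ ≤ 2 * rat ^ n := by
  refine ContinuousLinearMap.opNorm_le_bound _ (by have := rat_nonneg; positivity) fun f => ?_
  set g : Lp ℂ 2 (cube ι) := f - proj0 ι f with hg
  have hnorm1 : ‖one' ι‖ = 1 := (orthonormal_walshLp (ι := ι)).1 ∅
  have hcoef : ∀ h : Lp ℂ 2 (cube ι), (walshBasis ι).repr h ∅ = inner ℂ (one' ι) h := by
    intro h; rw [HilbertBasis.repr_apply_apply, walshBasis_apply]; rfl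
  have hg0 : (walshBasis ι).repr g ∅ = 0 := by
    rw [hcoef, hg, inner_sub_right, proj0, InnerProductSpace.rankOne_apply, inner_smul_right,
      inner_self_eq_norm_sq_to_K, hnorm1]
    simp
  have hpow : ∀ m, (walshBasis ι).repr ((avg σ ^ m) g) ∅ = 0 ∧
      ‖(avg σ ^ m) g‖ ≤ rat ^ m * ‖g‖ := by
    intro m
    induction m with
    | zero => simp [hg0]
    | succ m ih =>
      rw [pow_succ', mul_apply_eq_comp]
      refine ⟨by rw [repr_avg]; exact ih.1, ?_⟩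
      refine (norm_avg_le σ c hσ _ ih.1).trans ?_
      rw [pow_succ', mul_assoc]
      exact mul_le_mul_of_nonneg_left ih.2 rat_nonneg
  have hone : ∀ m, (avg σ ^ m) (one' ι) = one' ι := by
    intro m
    induction m with
    | zero => simp
    | succ m ih => rw [pow_succ', mul_apply_eq_comp, ih, avg_one]
  have hproj : (avg σ ^ n) (proj0 ι f) = proj0 ι f := by
    rw [proj0, InnerProductSpace.rankOne_apply, map_smul, hone]
  have heq : (avg σ ^ n - proj0 ι) f = (avg σ ^ n) g := by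
    rw [hg, map_sub, hproj, sub_apply]
  rw [heq]
  refine (hpow n).2.trans ?_
  have hg2 : ‖g‖ ≤ 2 * ‖f‖ := by
    have : ‖proj0 ι f‖ ≤ ‖f‖ := by
      rw [proj0, InnerProductSpace.rankOne_apply, norm_smul, hnorm1, mul_one]
      refine (norm_inner_le_norm _ _).trans ?_
      rw [hnorm1, one_mul]
    calc ‖g‖ ≤ ‖f‖ + ‖proj0 ι f‖ := norm_sub_le _ _
      _ ≤ 2 * ‖f‖ := by linarith
  have := rat_nonneg
  calc rat ^ n * ‖g‖ ≤ rat ^ n * (2 * ‖f‖) := by gcongr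
    _ = _ := by ring

/-- The projection onto constants is a norm limit of operators of finite expansion. -/
theorem exists_approx_proj0 (ι : Type*) [Infinite ι] {ε : ℝ} (hε : 0 < ε) :
    ∃ T : Lp ℂ 2 (cube ι) →L[ℂ] Lp ℂ 2 (cube ι), BExps T ∧ ‖T - proj0 ι‖ < ε := by
  obtain ⟨σ, c, hσ⟩ := exists_perms ι
  obtain ⟨n, hn⟩ := exists_pow_lt_of_lt_one (half_pos hε) rat_lt_one
  refine ⟨avg σ ^ n, bexps_avg_pow σ n, (norm_avg_pow_sub_le σ c hσ n).trans_lt ?_⟩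
  linarith

end Pool.Agent.MP_fe632d_an
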