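import Mathlib

open MeasureTheory Set
open scoped ENNReal NNReal symmDiff

namespace Pool.Agent.MP_fe632d_an

attribute [local instance] Classical.propDecidable

universe u

variable {X : Type u} [mX : MeasurableSpace X]

omit mX in
/-- the membership vector of a family of sets -/
noncomputable def code {J : Type*} (D : J → Set X) (x : X) (j : J) : Bool := decide (x ∈ D j)

theorem measurable_code {J : Type*} {D : J → Set X} (hD : ∀ j, MeasurableSet (D j)) :
    Measurable (code D) := by
  refine measurable_pi_lambda _ fun j => ?_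
  refine measurable_to_bool ?_
  have : (fun x => code D x j) ⁻¹' {true} = D j := by
    ext x; simp [code]
  rw [this]; exact hD j

omit mX in
/-- The sigma-algebra generated by the family. -/
@[reducible] noncomputable def gen {J : Type*} (D : J → Set X) : MeasurableSpace X :=
  MeasurableSpace.comap (code D) MeasurableSpace.pi

theorem gen_le {J : Type*} {D : J → Set X} (hD : ∀ j, MeasurableSet (D j)) : gen D ≤ mX :=
  (measurable_code hD).comap_le

omit mX in
theorem measurableSet_gen_iff {J : Type*} {D : J → Set X} {G : Set X} :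
    MeasurableSet[gen D] G ↔ ∃ B : Set (J → Bool), MeasurableSet B ∧ code D ⁻¹' B = G := Iff.rfl

omit mX in
theorem mem_gen {J : Type*} {D : J → Set X} (j : J) : MeasurableSet[gen D] (D j) := by
  refine ⟨{y | y j = true}, ?_, ?_⟩
  · exact measurable_pi_apply (X := fun _ : J => Bool) j (measurableSet_singleton true)
  · ext x; simp [code]

/-- The countable-type index of cylinders. -/
abbrev CylIdx (J : Type u) : Type u := Σ S : Finset J, Set (S → Bool)

omit mX in
/-- The set attached to a cylinder index. -/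
noncomputable def cylSet {J : Type u} (D : J → Set X) (c : CylIdx J) : Set X :=
  code D ⁻¹' (cylinder c.1 c.2)

theorem measurableSet_cylSet {J : Type u} {D : J → Set X} (hD : ∀ j, MeasurableSet (D j))
    (c : CylIdx J) : MeasurableSet (cylSet D c) := by
  refine measurable_code hD ?_
  exact MeasurableSet.cylinder _ (Set.toFinite _).measurableSet

theorem card_cylIdx_lt {J : Type u} {κ : Cardinal.{u}} (hκ : Cardinal.aleph0 ≤ κ)
    (hJ : Cardinal.mk J < κ) : Cardinal.mk (CylIdx J) < κ := by
  rcases finite_or_infinite J with hfin | hinf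
  · have : Finite (CylIdx J) := by
      have := Fintype.ofFinite J
      infer_instance
    exact (Cardinal.lt_aleph0_of_finite _).trans_le hκ
  · rw [Cardinal.mk_sigma]
    refine lt_of_le_of_lt (Cardinal.sum_le_mk_mul_iSup _) ?_
    rw [Cardinal.mk_finset_of_infinite]
    refine lt_of_le_of_lt (b := Cardinal.mk J * Cardinal.aleph0) ?_ ?_
    · gcongr
      refine ciSup_le' fun S => ?_
      exact (Cardinal.lt_aleph0_of_finite _).le
    · rw [Cardinal.mul_aleph0_eq (Cardinal.aleph0_le_mk J)]
      exact hJ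

theorem approx_cyl {J : Type u} {D : J → Set X} (hD : ∀ j, MeasurableSet (D j))
    (P : Measure X) [IsFiniteMeasure P] {G : Set X} (hG : MeasurableSet[gen D] G) {ε : ℝ}
    (hε : 0 < ε) : ∃ c : CylIdx J, P (G ∆ cylSet D c) < ENNReal.ofReal ε := by
  obtain ⟨B, hB, rfl⟩ := hG
  have hdense : (P.map (code D)).MeasureDense (measurableCylinders (fun _ : J => Bool)) :=
    Measure.MeasureDense.of_generateFrom_isSetAlgebra_finite _ isSetAlgebra_measurableCylinders
      generateFrom_measurableCylinders.symm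
  obtain ⟨t, ht, hlt⟩ := hdense.approx B hB (measure_ne_top _ _) ε hε
  rw [mem_measurableCylinders] at ht
  obtain ⟨S, T, hT, rfl⟩ := ht
  refine ⟨⟨S, T⟩, ?_⟩
  rw [Measure.map_apply (measurable_code hD) (hB.symmDiff (MeasurableSet.cylinder _ hT))] at hlt
  exact hlt

/-- The density of a set: least cardinality of a family of measurable sets which is dense
(Mathlib's `MeasureDense`) for the restricted measure. -/
noncomputable def density (μ : Measure X) (A : Set X) : Cardinal.{u} :=
  sInf {c | ∃ 𝒜 : Set (Set X), Cardinal.mk 𝒜 = c ∧ (μ.restrict A).MeasureDense 𝒜}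

theorem density_le_of {μ : Measure X} {A : Set X} {𝒜 : Set (Set X)}
    (h : (μ.restrict A).MeasureDense 𝒜) : density μ A ≤ Cardinal.mk 𝒜 :=
  csInf_le' ⟨𝒜, rfl, h⟩

theorem exists_density (μ : Measure X) (A : Set X) : ∃ 𝒜 : Set (Set X),
    Cardinal.mk 𝒜 = density μ A ∧ (μ.restrict A).MeasureDense 𝒜 :=
  csInf_mem (s := {c | ∃ 𝒜 : Set (Set X), Cardinal.mk 𝒜 = c ∧ (μ.restrict A).MeasureDense 𝒜})
    ⟨_, _, rfl, measureDense_measurableSet⟩

/-- Relative atomlessness (Maharam): small subfamilies do not generate anything on any set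
of positive measure. -/
theorem exists_not_trace {J : Type u} {D : J → Set X} (hD : ∀ j, MeasurableSet (D j))
    (P : Measure X) [IsFiniteMeasure P] {κ : Cardinal.{u}} (hκ : Cardinal.aleph0 ≤ κ)
    (hJ : Cardinal.mk J < κ) {A : Set X} (hA : MeasurableSet A)
    (hdens : κ ≤ density P A) :
    ∃ C, MeasurableSet C ∧ C ⊆ A ∧ ∀ G, MeasurableSet[gen D] G → P (C ∆ (A ∩ G)) ≠ 0 := by
  by_contra hcon
  push Not at hcon
  have hMD : (P.restrict A).MeasureDense (Set.range (cylSet D)) := by
    refine ⟨?_, ?_⟩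
    · rintro _ ⟨c, rfl⟩; exact measurableSet_cylSet hD c
    · intro s hs _ ε hε
      obtain ⟨G, hG, hG0⟩ := hcon (s ∩ A) (hs.inter hA) inter_subset_right
      obtain ⟨c, hc⟩ := approx_cyl hD P hG hε
      refine ⟨_, ⟨c, rfl⟩, ?_⟩
      rw [Measure.restrict_apply (hs.symmDiff (measurableSet_cylSet hD c))]
      refine lt_of_le_of_lt ?_ hc
      have hsub : (s ∆ cylSet D c) ∩ A ⊆ ((s ∩ A) ∆ (A ∩ G)) ∪ (G ∆ cylSet D c) := by
        intro x
        simp only [mem_inter_iff, mem_symmDiff, mem_union]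
        tauto
      calc P ((s ∆ cylSet D c) ∩ A) ≤ P (((s ∩ A) ∆ (A ∩ G)) ∪ (G ∆ cylSet D c)) :=
            measure_mono hsub
        _ ≤ P ((s ∩ A) ∆ (A ∩ G)) + P (G ∆ cylSet D c) := measure_union_le _ _
        _ = P (G ∆ cylSet D c) := by rw [hG0, zero_add]
  have h1 := density_le_of hMD
  have h2 : Cardinal.mk (Set.range (cylSet D)) ≤ Cardinal.mk (CylIdx J) := Cardinal.mk_range_le
  exact absurd (hdens.trans (h1.trans h2)) (not_le.2 (card_cylIdx_lt hκ hJ))

/-- General exhaustion. -/
theorem exists_maximal (P : Measure X) [IsFiniteMeasure P] (p : Set X → Prop) (h0 : p ∅)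
    (hU : ∀ f : ℕ → Set X, Monotone f → (∀ n, p (f n)) → p (⋃ n, f n)) :
    ∃ D, p D ∧ ∀ D', p D' → D ⊆ D' → P.real D' ≤ P.real D := by
  set s : Set X → ℝ := fun D => sSup {r | ∃ D', p D' ∧ D ⊆ D' ∧ P.real D' = r} with hs
  have hbdd : ∀ D, BddAbove {r | ∃ D', p D' ∧ D ⊆ D' ∧ P.real D' = r} := by
    intro D
    refine ⟨P.real univ, ?_⟩
    rintro r ⟨D', _, _, rfl⟩
    exact measureReal_mono (subset_univ _)
  have hstep : ∀ D (n : ℕ), p D → ∃ D', p D' ∧ D ⊆ D' ∧ s D - 1 / ((n : ℝ) + 1) < P.real D' := by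
    intro D n hD
    have hne : {r | ∃ D', p D' ∧ D ⊆ D' ∧ P.real D' = r}.Nonempty := ⟨_, D, hD, subset_rfl, rfl⟩
    obtain ⟨r, ⟨D', h1, h2, rfl⟩, hr⟩ := exists_lt_of_lt_csSup hne
      (show s D - 1 / ((n : ℝ) + 1) < s D by
        have : (0:ℝ) < 1 / ((n : ℝ) + 1) := by positivity
        linarith)
    exact ⟨D', h1, h2, hr⟩
  choose! nxt hn1 hn2 hn3 using hstep
  let f : ℕ → Set X := fun n => Nat.rec ∅ (fun k D => nxt D k) n
  have hf : ∀ n, p (f n) := by
    intro n
    induction n with
    | zero => exact h0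
    | succ n ih => exact hn1 (f n) n ih
  have hmono : Monotone f := monotone_nat_of_le_succ fun n => hn2 (f n) n (hf n)
  refine ⟨⋃ n, f n, hU f hmono hf, fun D' hD' hsub => ?_⟩
  have hkey : ∀ n : ℕ, P.real D' ≤ P.real (⋃ n, f n) + 1 / ((n : ℝ) + 1) := by
    intro n
    have h1 : P.real D' ≤ s (f n) :=
      le_csSup (hbdd _) ⟨D', hD', (subset_iUnion f n).trans hsub, rfl⟩
    have h2 := hn3 (f n) n (hf n)
    have h3 : P.real (nxt (f n) n) ≤ P.real (⋃ n, f n) :=
      measureReal_mono (subset_iUnion f (n+1))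
    linarith
  have hlim : Filter.Tendsto (fun n : ℕ => P.real (⋃ n, f n) + 1 / ((n : ℝ) + 1))
      Filter.atTop (nhds (P.real (⋃ n, f n) + 0)) :=
    tendsto_const_nhds.add tendsto_one_div_add_atTop_nhds_zero_nat
  rw [add_zero] at hlim
  exact ge_of_tendsto' hlim hkey

end Pool.Agent.MP_fe632d_an
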