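import Pool.Agent.MP_fe632d_an.Maharam1

open MeasureTheory Set
open scoped ENNReal NNReal symmDiff

set_option linter.unusedSectionVars false

namespace Pool.Agent.MP_fe632d_an

universe u

/-- conditional probability -/
noncomputable def cp {X : Type u} {mX : MeasurableSpace X} (P : Measure X)
    (m : MeasurableSpace X) (A : Set X) : X → ℝ :=
  P[A.indicator (fun _ => (1:ℝ)) | m]

/-- The relative atomlessness hypothesis. -/
def RelAtomless {X : Type u} {mX : MeasurableSpace X} (P : Measure X)
    (m : MeasurableSpace X) : Prop :=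
  ∀ A, MeasurableSet[mX] A → P A ≠ 0 →
    ∃ C, MeasurableSet[mX] C ∧ C ⊆ A ∧ ∀ G, MeasurableSet[m] G → P (C ∆ (A ∩ G)) ≠ 0

theorem sm_lt {Y : Type*} {mY : MeasurableSpace Y} {f g : Y → ℝ}
    (hf : StronglyMeasurable[mY] f) (hg : StronglyMeasurable[mY] g) :
    MeasurableSet[mY] {x | f x < g x} := hf.measurableSet_lt hg

theorem sm_le {Y : Type*} {mY : MeasurableSpace Y} {f g : Y → ℝ}
    (hf : StronglyMeasurable[mY] f) (hg : StronglyMeasurable[mY] g) :
    MeasurableSet[mY] {x | f x ≤ g x} := hf.measurableSet_le hg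

theorem sm_const {Y : Type*} (mY : MeasurableSpace Y) (c : ℝ) :
    StronglyMeasurable[mY] (fun _ : Y => c) := stronglyMeasurable_const

section
variable {X : Type u} {m : MeasurableSpace X} [mX : MeasurableSpace X]
variable {P : Measure X} [IsFiniteMeasure P] (hm : m ≤ mX)
include hm

omit hm in
theorem integrable_ind {A : Set X} (hA : MeasurableSet A) :
    Integrable (A.indicator (fun _ => (1:ℝ))) P :=
  (integrable_const 1).indicator hA

omit hm in
theorem sm_cp (A : Set X) : StronglyMeasurable[m] (cp P m A) := stronglyMeasurable_condExp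

omit hm in
theorem integrable_cp (A : Set X) : Integrable (cp P m A) P := integrable_condExp

omit hm in
theorem cp_nonneg (A : Set X) : 0 ≤ᵐ[P] cp P m A :=
  condExp_nonneg (Filter.Eventually.of_forall fun x => Set.indicator_nonneg (by simp) x)

theorem cp_mono {A B : Set X} (hA : MeasurableSet A) (hB : MeasurableSet B) (h : A ⊆ B) :
    cp P m A ≤ᵐ[P] cp P m B :=
  condExp_mono (integrable_ind hA) (integrable_ind hB)
    (Filter.Eventually.of_forall fun x =>
      Set.indicator_le_indicator_of_subset h (fun _ => zero_le_one) x)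

theorem cp_univ : cp P m univ = fun _ => 1 := by
  unfold cp
  rw [Set.indicator_univ]
  exact condExp_const hm 1

theorem cp_le_one {A : Set X} (hA : MeasurableSet A) : cp P m A ≤ᵐ[P] fun _ => 1 := by
  have := cp_mono (P := P) hm hA MeasurableSet.univ (subset_univ A)
  rwa [cp_univ hm] at this

theorem cp_union {A B : Set X} (hA : MeasurableSet A) (hB : MeasurableSet B)
    (h : Disjoint A B) : cp P m (A ∪ B) =ᵐ[P] cp P m A + cp P m B := by
  unfold cp
  have h1 : (A ∪ B).indicator (fun _ => (1:ℝ)) = A.indicator (fun _ => (1:ℝ))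
      + B.indicator (fun _ => (1:ℝ)) := Set.indicator_union_of_disjoint h _
  rw [h1]
  exact condExp_add (integrable_ind hA) (integrable_ind hB) m

theorem cp_inter {A G : Set X} (hA : MeasurableSet A) (hG : MeasurableSet[m] G) :
    cp P m (A ∩ G) =ᵐ[P] G.indicator (cp P m A) := by
  unfold cp
  have h1 : (A ∩ G).indicator (fun _ => (1:ℝ)) = G.indicator (A.indicator fun _ => (1:ℝ)) := by
    rw [Set.indicator_indicator, inter_comm]
  rw [h1]
  exact condExp_indicator (integrable_ind hA) hG

theorem setIntegral_cp {A G : Set X} (hA : MeasurableSet A) (hG : MeasurableSet[m] G) :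
    ∫ x in G, cp P m A x ∂P = P.real (A ∩ G) := by
  unfold cp
  rw [setIntegral_condExp hm (integrable_ind hA) hG, integral_indicator hA,
    Measure.restrict_restrict hA]
  simp

omit hm in
/-- if a function is positive on a set of positive measure then the integral is positive. -/
theorem setIntegral_pos {f : X → ℝ} (hf : Integrable f P) {G : Set X} (hG : MeasurableSet G)
    (hpos : ∀ x ∈ G, 0 < f x) (h0 : P G ≠ 0) : 0 < ∫ x in G, f x ∂P := by
  have hnn : 0 ≤ᵐ[P.restrict G] f := by
    filter_upwards [ae_restrict_mem hG] with x hx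
    exact (hpos x hx).le
  rw [integral_pos_iff_support_of_nonneg_ae hnn hf.integrableOn, Measure.restrict_apply' hG]
  have : Function.support f ∩ G = G := by
    ext x
    simp only [mem_inter_iff, Function.mem_support, and_iff_right_iff_imp]
    intro hx; exact (hpos x hx).ne'
  rw [this]
  exact pos_iff_ne_zero.2 h0

/-- Halving. -/
theorem exists_half
    {A : Set X} (hA : MeasurableSet A)
    (hrel : ∃ C, MeasurableSet C ∧ C ⊆ A ∧ ∀ G, MeasurableSet[m] G → P (C ∆ (A ∩ G)) ≠ 0) :
    ∃ C, MeasurableSet C ∧ C ⊆ A ∧ P C ≠ 0 ∧ cp P m C ≤ᵐ[P] fun x => 1 / 2 * cp P m A x := by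
  obtain ⟨C, hC, hCA, hCG⟩ := hrel
  set g1 := cp P m C with hg1
  set g2 := cp P m (A \ C) with hg2
  have hAC : MeasurableSet (A \ C) := hA.diff hC
  have hm1 : StronglyMeasurable[m] g1 := sm_cp C
  have hm2 : StronglyMeasurable[m] g2 := sm_cp (A \ C)
  have hsum : cp P m A =ᵐ[P] g1 + g2 := by
    have := cp_union (P := P) hm hC hAC disjoint_sdiff_right
    rwa [union_sdiff_cancel hCA] at this
  have hG1 : MeasurableSet[m] {x | 0 < g1 x} :=
    sm_lt (sm_const m 0) hm1
  have hG2 : MeasurableSet[m] {x | 0 < g2 x} :=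
    sm_lt (sm_const m 0) hm2
  have hle : MeasurableSet[m] {x | g1 x ≤ g2 x} :=
    sm_le hm1 hm2
  have hlt : MeasurableSet[m] {x | g2 x < g1 x} :=
    sm_lt hm2 hm1
  have hpos : P ({x | 0 < g1 x} ∩ {x | 0 < g2 x}) ≠ 0 := by
    intro hz
    apply hCG _ hG1
    have e1 : P (C ∩ {x | 0 < g1 x}ᶜ) = 0 := by
      have h1 := setIntegral_cp (P := P) hm hC hG1.compl
      have h2 : ∫ x in {x | 0 < g1 x}ᶜ, g1 x ∂P ≤ 0 := by
        apply setIntegral_nonpos (hm _ hG1.compl)
        intro x hx
        exact not_lt.1 hx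
      rw [h1] at h2
      have h3 : P.real (C ∩ {x | 0 < g1 x}ᶜ) = 0 := le_antisymm h2 measureReal_nonneg
      exact (measureReal_eq_zero_iff).1 h3
    have e2 : P ((A \ C) ∩ {x | 0 < g1 x}) = 0 := by
      have h1 := setIntegral_cp (P := P) hm hAC hG1
      have h2 : ∫ x in {x | 0 < g1 x}, g2 x ∂P ≤ 0 := by
        have h3 : g2 ≤ᵐ[P.restrict {x | 0 < g1 x}] 0 := by
          rw [Filter.EventuallyLE, ae_restrict_iff' (hm _ hG1)]
          have h4 : ∀ᵐ x ∂P, x ∉ ({x | 0 < g1 x} ∩ {x | 0 < g2 x}) := measure_eq_zero_iff_ae_notMem.1 hz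
          filter_upwards [h4] with x hx hx1
          by_contra hcon
          exact hx ⟨hx1, not_le.1 hcon⟩
        exact integral_nonpos_of_ae h3
      rw [h1] at h2
      have h3 : P.real ((A \ C) ∩ {x | 0 < g1 x}) = 0 := le_antisymm h2 measureReal_nonneg
      exact (measureReal_eq_zero_iff).1 h3
    have hsub : C ∆ (A ∩ {x | 0 < g1 x}) ⊆ (C ∩ {x | 0 < g1 x}ᶜ) ∪ ((A \ C) ∩ {x | 0 < g1 x}) := by
      intro x
      simp only [mem_symmDiff, mem_inter_iff, mem_union, mem_compl_iff, mem_sdiff]
      have := @hCA x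
      tauto
    exact measure_mono_null hsub (measure_union_null e1 e2)
  have hcov : {x | 0 < g1 x} ∩ {x | 0 < g2 x}
      ⊆ (({x | 0 < g1 x} ∩ {x | 0 < g2 x}) ∩ {x | g1 x ≤ g2 x})
        ∪ (({x | 0 < g1 x} ∩ {x | 0 < g2 x}) ∩ {x | g2 x < g1 x}) := by
    intro x hx
    rcases le_or_gt (g1 x) (g2 x) with h | h
    · exact Or.inl ⟨hx, h⟩
    · exact Or.inr ⟨hx, h⟩
  have hor : P (({x | 0 < g1 x} ∩ {x | 0 < g2 x}) ∩ {x | g1 x ≤ g2 x}) ≠ 0 ∨
      P (({x | 0 < g1 x} ∩ {x | 0 < g2 x}) ∩ {x | g2 x < g1 x}) ≠ 0 := by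
    by_contra hcon
    push Not at hcon
    exact hpos (measure_mono_null hcov (measure_union_null hcon.1 hcon.2))
  rcases hor with h | h
  · set H := (({x | 0 < g1 x} ∩ {x | 0 < g2 x}) ∩ {x | g1 x ≤ g2 x}) with hH
    have hHm : MeasurableSet[m] H := (hG1.inter hG2).inter hle
    refine ⟨C ∩ H, hC.inter (hm _ hHm), inter_subset_left.trans hCA, ?_, ?_⟩
    · have h1 := setIntegral_cp (P := P) hm hC hHm
      have h2 := setIntegral_pos (integrable_cp (P := P) (m := m) C) (hm _ hHm)
        (fun x hx => hx.1.1) h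
      rw [h1] at h2
      intro h0
      rw [measureReal_def, h0] at h2
      simp at h2
    · filter_upwards [cp_inter (P := P) hm hC hHm, hsum, cp_nonneg (P := P) (m := m) C,
        cp_nonneg (P := P) (m := m) (A \ C)] with x hx1 hx2 hx3 hx4
      rw [hx1, hx2]
      simp only [Pi.add_apply, Pi.zero_apply] at *
      by_cases hxH : x ∈ H
      · rw [Set.indicator_of_mem hxH]
        have : g1 x ≤ g2 x := hxH.2
        linarith
      · rw [Set.indicator_of_notMem hxH]
        have h5 : 0 ≤ g1 x := hx3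
        have h6 : 0 ≤ g2 x := hx4
        linarith
  · set H := (({x | 0 < g1 x} ∩ {x | 0 < g2 x}) ∩ {x | g2 x < g1 x}) with hH
    have hHm : MeasurableSet[m] H := (hG1.inter hG2).inter hlt
    refine ⟨(A \ C) ∩ H, hAC.inter (hm _ hHm), inter_subset_left.trans sdiff_subset, ?_, ?_⟩
    · have h1 := setIntegral_cp (P := P) hm hAC hHm
      have h2 := setIntegral_pos (integrable_cp (P := P) (m := m) (A \ C)) (hm _ hHm)
        (fun x hx => hx.1.2) h
      rw [h1] at h2
      intro h0
      rw [measureReal_def, h0] at h2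
      simp at h2
    · filter_upwards [cp_inter (P := P) hm hAC hHm, hsum, cp_nonneg (P := P) (m := m) C,
        cp_nonneg (P := P) (m := m) (A \ C)] with x hx1 hx2 hx3 hx4
      rw [hx1, hx2]
      simp only [Pi.add_apply, Pi.zero_apply] at *
      by_cases hxH : x ∈ H
      · rw [Set.indicator_of_mem hxH]
        have : g2 x < g1 x := hxH.2
        change g2 x ≤ _
        linarith
      · rw [Set.indicator_of_notMem hxH]
        have h5 : 0 ≤ g1 x := hx3
        have h6 : 0 ≤ g2 x := hx4
        linarith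

theorem exists_small (hrel : RelAtomless P m) (n : ℕ) {A : Set X} (hA : MeasurableSet A)
    (h0 : P A ≠ 0) :
    ∃ C, MeasurableSet C ∧ C ⊆ A ∧ P C ≠ 0 ∧ cp P m C ≤ᵐ[P] fun x => (1 / 2) ^ n * cp P m A x := by
  induction n with
  | zero => exact ⟨A, hA, subset_rfl, h0, by simp only [pow_zero, one_mul]; exact Filter.EventuallyLE.rfl⟩
  | succ n ih =>
    obtain ⟨C, hC, hCA, hC0, hle⟩ := ih
    obtain ⟨C', hC', hCC', hC0', hle'⟩ := exists_half hm hC (hrel C hC hC0)
    refine ⟨C', hC', hCC'.trans hCA, hC0', ?_⟩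
    filter_upwards [hle, hle'] with x h1 h2
    refine h2.trans ?_
    rw [pow_succ']
    nlinarith

/-- Maharam's lemma. -/
theorem exists_cp_eq (hrel : RelAtomless P m) {B : Set X} (hB : MeasurableSet B)
    {h : X → ℝ} (hsm : StronglyMeasurable[m] h) (h0 : 0 ≤ᵐ[P] h) (hle : h ≤ᵐ[P] cp P m B) :
    ∃ D, MeasurableSet D ∧ D ⊆ B ∧ cp P m D =ᵐ[P] h := by
  have hint : Integrable h P := by
    refine (integrable_cp (P := P) (m := m) B).mono' (hsm.mono hm).aestronglyMeasurable ?_
    filter_upwards [h0, hle] with x h1 h2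
    rw [Real.norm_of_nonneg h1]; exact h2
  obtain ⟨D, ⟨hD, hDB, hDG⟩, hmax⟩ := exists_maximal P
    (fun D => MeasurableSet D ∧ D ⊆ B ∧
      ∀ G, MeasurableSet[m] G → P.real (D ∩ G) ≤ ∫ x in G, h x ∂P)
    (by
      refine ⟨MeasurableSet.empty, empty_subset _, fun G hG => ?_⟩
      simp only [empty_inter, measureReal_empty]
      exact setIntegral_nonneg_of_ae h0)
    (by
      intro f hf hp
      refine ⟨MeasurableSet.iUnion fun n => (hp n).1, iUnion_subset fun n => (hp n).2.1,
        fun G hG => ?_⟩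
      rw [iUnion_inter]
      have hmono : Monotone fun n => f n ∩ G := fun i j hij => inter_subset_inter_left _ (hf hij)
      have hlim := tendsto_measure_iUnion_atTop (μ := P) hmono
      have hlim' : Filter.Tendsto (fun n => P.real (f n ∩ G)) Filter.atTop
          (nhds (P.real (⋃ n, f n ∩ G))) :=
        (ENNReal.tendsto_toReal (measure_ne_top _ _)).comp hlim
      exact le_of_tendsto' hlim' fun n => (hp n).2.2 G hG)
  refine ⟨D, hD, hDB, ?_⟩
  set g := cp P m D with hg
  have hgm : StronglyMeasurable[m] g := sm_cp D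
  have hgi : Integrable g P := integrable_cp D
  have hgh : g ≤ᵐ[P] h := by
    have hGm : MeasurableSet[m] {x | h x < g x} :=
      sm_lt hsm hgm
    by_contra hcon
    have hne : P {x | h x < g x} ≠ 0 := by
      intro hz
      apply hcon
      have h4 : ∀ᵐ x ∂P, x ∉ {x | h x < g x} := measure_eq_zero_iff_ae_notMem.1 hz
      filter_upwards [h4] with x hx
      exact not_lt.1 hx
    have h1 := setIntegral_pos (hgi.sub hint) (hm _ hGm)
      (fun x (hx : h x < g x) => by simpa using hx) hne
    simp only [Pi.sub_apply] at h1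
    rw [integral_sub hgi.integrableOn hint.integrableOn, setIntegral_cp hm hD hGm] at h1
    have := hDG _ hGm
    linarith
  by_contra hcon
  have hex : ∃ n : ℕ, P {x | g x + (1/2) ^ n < h x} ≠ 0 := by
    by_contra hall
    push Not at hall
    apply hcon
    have h4 : ∀ᵐ x ∂P, ∀ n : ℕ, x ∉ {x | g x + (1/2) ^ n < h x} :=
      ae_all_iff.2 fun n => measure_eq_zero_iff_ae_notMem.1 (hall n)
    filter_upwards [h4, hgh] with x hx hx2
    refine le_antisymm hx2 ?_
    have h5 : ∀ n : ℕ, h x ≤ g x + (1/2) ^ n := fun n => not_lt.1 (hx n)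
    have hlim : Filter.Tendsto (fun n : ℕ => g x + (1/2 : ℝ) ^ n) Filter.atTop
        (nhds (g x + 0)) :=
      tendsto_const_nhds.add (tendsto_pow_atTop_nhds_zero_of_lt_one (by norm_num) (by norm_num))
    rw [add_zero] at hlim
    exact ge_of_tendsto' hlim h5
  obtain ⟨n, hn⟩ := hex
  set Gn := {x | g x + (1/2) ^ n < h x} with hGn
  have hGm : MeasurableSet[m] Gn :=
    sm_lt (hgm.add (sm_const m _)) hsm
  have hBD : MeasurableSet (B \ D) := hB.diff hD
  have hcpBD : cp P m B =ᵐ[P] g + cp P m (B \ D) := by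
    have := cp_union (P := P) hm hD hBD disjoint_sdiff_right
    rwa [union_sdiff_cancel hDB] at this
  have hA0 : P ((B \ D) ∩ Gn) ≠ 0 := by
    intro hz
    have h1 := setIntegral_cp (P := P) hm hBD hGm
    rw [measureReal_def, hz, ENNReal.toReal_zero] at h1
    have h2 : ∫ x in Gn, (h x - g x) ∂P ≤ ∫ x in Gn, cp P m (B \ D) x ∂P := by
      apply integral_mono_ae (hint.sub hgi).integrableOn (integrable_cp _).integrableOn
      refine ae_restrict_of_ae ?_
      filter_upwards [hcpBD, hle] with x hx1 hx2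
      rw [hx1] at hx2
      simp only [Pi.add_apply] at hx2
      simp only [Pi.sub_apply]
      linarith
    have h3 := setIntegral_pos (hint.sub hgi) (hm _ hGm)
      (fun x (hx : g x + (1/2) ^ n < h x) => by
        have : (0:ℝ) < (1/2) ^ n := by positivity
        simp only [Pi.sub_apply]
        linarith) hn
    simp only [Pi.sub_apply] at h3
    linarith
  obtain ⟨C, hC, hCA, hC0, hCle⟩ := exists_small hm hrel n (hBD.inter (hm _ hGm)) hA0
  have hdisj : Disjoint D C := by
    rw [Set.disjoint_left]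
    intro x hxD hxC
    exact (hCA hxC).1.2 hxD
  have hCG : C ∩ Gn = C := inter_eq_left.2 (hCA.trans inter_subset_right)
  have hcpC : cp P m C =ᵐ[P] Gn.indicator (cp P m C) := by
    have := cp_inter (P := P) hm hC hGm
    rwa [hCG] at this
  have hle2 : cp P m (D ∪ C) ≤ᵐ[P] h := by
    filter_upwards [cp_union (P := P) hm hD hC hdisj, hcpC, hCle, hgh,
      cp_le_one (P := P) hm (hBD.inter (hm _ hGm))] with x h1 h2 h3 h4 h5
    rw [h1]
    simp only [Pi.add_apply]
    by_cases hx : x ∈ Gn
    · have h6 : g x + (1/2) ^ n < h x := hx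
      have h7 : (0:ℝ) < (1/2) ^ n := by positivity
      have h8 : (1/2 : ℝ) ^ n * cp P m ((B \ D) ∩ Gn) x ≤ (1/2) ^ n * 1 :=
        mul_le_mul_of_nonneg_left h5 h7.le
      change g x + _ ≤ _
      linarith
    · rw [h2, Set.indicator_of_notMem hx, add_zero]
      exact h4
  have hbig := hmax (D ∪ C) ⟨hD.union hC, union_subset hDB (hCA.trans
    (inter_subset_left.trans sdiff_subset)), fun G hG => by
      rw [← setIntegral_cp (P := P) hm (hD.union hC) hG]
      exact integral_mono_ae (integrable_cp _).integrableOn hint.integrableOn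
        (ae_restrict_of_ae hle2)⟩ subset_union_left
  rw [measureReal_union hdisj hC] at hbig
  have : 0 < P.real C := by
    rw [measureReal_def, ENNReal.toReal_pos_iff]
    exact ⟨pos_iff_ne_zero.2 hC0, measure_lt_top _ _⟩
  linarith

/-- The splitting lemma: a set of conditional probability one half, aligned with `b`. -/
theorem exists_split (hrel : RelAtomless P m) {b : Set X} (hb : MeasurableSet b) :
    ∃ D, MeasurableSet D ∧ (cp P m D =ᵐ[P] fun _ => 1 / 2) ∧
      b ∩ {x | cp P m b x ≤ 1 / 2} ⊆ D ∧ D ∩ {x | 1 / 2 < cp P m b x} ⊆ b := by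
  set g := cp P m b with hg
  have hgm : StronglyMeasurable[m] g := sm_cp b
  set G := {x | g x ≤ 1 / 2} with hG
  have hGm : MeasurableSet[m] G :=
    sm_le hgm (sm_const m _)
  have hGX := hm _ hGm
  set h : X → ℝ := G.indicator (fun x => 1 / 2 - g x) + Gᶜ.indicator (fun _ => 1 / 2) with hh
  have hhm : StronglyMeasurable[m] h := by
    refine StronglyMeasurable.add ?_ ?_
    · exact ((sm_const m _).sub hgm).indicator hGm
    · exact (sm_const m _).indicator hGm.compl
  have hval : ∀ x, h x = if x ∈ G then 1 / 2 - g x else 1 / 2 := by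
    intro x
    by_cases hx : x ∈ G <;> simp [hh, hx]
  have hdisj0 : Disjoint (bᶜ ∩ G) (b ∩ Gᶜ) := by
    rw [Set.disjoint_left]; intro x h1 h2; exact h1.1 h2.1
  have hB0 : MeasurableSet (bᶜ ∩ G ∪ b ∩ Gᶜ) :=
    (hb.compl.inter hGX).union (hb.inter hGX.compl)
  have hbc : cp P m bᶜ =ᵐ[P] fun x => 1 - g x := by
    have := cp_union (P := P) hm hb hb.compl disjoint_compl_right
    rw [union_compl_self, cp_univ hm] at this
    filter_upwards [this] with x hx
    simp only [Pi.add_apply] at hx
    change cp P m bᶜ x = _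
    rw [hg]; linarith
  obtain ⟨D, hD, hDB, hcp⟩ := exists_cp_eq hm hrel hB0 hhm
    (by
      filter_upwards with x
      rw [hval]
      simp only [Pi.zero_apply]
      by_cases hx : x ∈ G
      · rw [if_pos hx]
        have : g x ≤ 1 / 2 := hx
        linarith
      · rw [if_neg hx]; norm_num)
    (by
      filter_upwards [cp_union (P := P) hm (hb.compl.inter hGX) (hb.inter hGX.compl) hdisj0,
        cp_inter (P := P) hm hb.compl hGm, cp_inter (P := P) hm hb hGm.compl, hbc]
        with x h1 h2 h3 h4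
      rw [h1, hval]
      simp only [Pi.add_apply]
      rw [h2, h3]
      by_cases hx : x ∈ G
      · rw [if_pos hx, Set.indicator_of_mem hx, Set.indicator_of_notMem (by simpa using hx), h4]
        linarith
      · rw [if_neg hx, Set.indicator_of_notMem hx, Set.indicator_of_mem hx]
        have : ¬ g x ≤ 1 / 2 := hx
        change 1 / 2 ≤ 0 + g x
        linarith [not_le.1 this])
  have hdisj1 : Disjoint D (b ∩ G) := by
    rw [Set.disjoint_left]
    intro x h1 h2
    rcases hDB h1 with h | h
    · exact h.1 h2.1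
    · exact h.2 h2.2
  refine ⟨D ∪ (b ∩ G), hD.union (hb.inter hGX), ?_, subset_union_right, ?_⟩
  · filter_upwards [cp_union (P := P) hm hD (hb.inter hGX) hdisj1,
      cp_inter (P := P) hm hb hGm, hcp] with x h1 h2 h3
    rw [h1]
    simp only [Pi.add_apply]
    rw [h2, h3, hval]
    by_cases hx : x ∈ G
    · rw [if_pos hx, Set.indicator_of_mem hx]; ring
    · rw [if_neg hx, Set.indicator_of_notMem hx]; ring
  · rintro x ⟨hx1, hx2⟩
    have hxG : x ∉ G := fun h => by
      have h1 : g x ≤ 1 / 2 := h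
      have h2 : 1 / 2 < g x := hx2
      linarith
    rcases hx1 with h | h
    · rcases hDB h with h' | h'
      · exact absurd h'.2 hxG
      · exact h'.1
    · exact h.1

end

end Pool.Agent.MP_fe632d_an
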