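import Pool.Agent.MP_fe632d_an.Dense

open MeasureTheory Set
open scoped ENNReal NNReal symmDiff

namespace Pool.Agent.MP_fe632d_an

/-- The fair coin measure on `Bool`. -/
noncomputable def coin : Measure Bool :=
  (2⁻¹ : ℝ≥0∞) • (Measure.dirac true + Measure.dirac false)

instance : IsProbabilityMeasure coin := by
  constructor
  simp only [coin, Measure.smul_apply, Measure.add_apply, measure_univ, smul_eq_mul]
  rw [one_add_one_eq_two]
  exact ENNReal.inv_mul_cancel (by simp) (by simp)

theorem coin_singleton (b : Bool) : coin {b} = 2⁻¹ := by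
  cases b <;> simp [coin]

theorem map_not_coin : coin.map (fun b => !b) = coin := by
  refine Measure.ext fun s hs => ?_
  rw [Measure.map_apply (measurable_of_countable _) hs]
  simp only [coin, Measure.smul_apply, Measure.add_apply, smul_eq_mul]
  rw [Measure.dirac_apply' _ hs, Measure.dirac_apply' _ hs,
    Measure.dirac_apply' _ (measurable_of_countable (fun b : Bool => !b) hs),
    Measure.dirac_apply' _ (measurable_of_countable (fun b : Bool => !b) hs)]
  have h1 : ∀ b : Bool, ((fun b : Bool => !b) ⁻¹' s).indicator (1 : Bool → ℝ≥0∞) b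
      = s.indicator 1 (!b) := fun b => rfl
  rw [h1, h1, Bool.not_true, Bool.not_false, add_comm]

/-- The product of fair coins. -/
noncomputable def cube (ι : Type*) : Measure (ι → Bool) :=
  Measure.infinitePi (fun _ : ι => coin)

instance (ι : Type*) : IsProbabilityMeasure (cube ι) := by
  unfold cube; infer_instance

/-- `±1` character of `Bool`. -/
def sgn (b : Bool) : ℂ := if b then -1 else 1

theorem sgn_mul_self (b : Bool) : sgn b * sgn b = 1 := by cases b <;> simp [sgn]
theorem sgn_not (b : Bool) : sgn (!b) = - sgn b := by cases b <;> simp [sgn]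
theorem norm_sgn (b : Bool) : ‖sgn b‖ = 1 := by cases b <;> simp [sgn]
theorem star_sgn (b : Bool) : (starRingEnd ℂ) (sgn b) = sgn b := by cases b <;> simp [sgn]

variable {ι : Type*}

/-- Walsh functions. -/
def walsh (S : Finset ι) (x : ι → Bool) : ℂ := ∏ i ∈ S, sgn (x i)

theorem measurable_walsh (S : Finset ι) : Measurable (walsh S) := by
  unfold walsh
  refine Finset.measurable_prod _ fun i _ => ?_
  exact (measurable_of_countable sgn).comp (measurable_pi_apply i)

theorem norm_walsh (S : Finset ι) (x : ι → Bool) : ‖walsh S x‖ = 1 := by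
  unfold walsh
  rw [norm_prod]
  simp [norm_sgn]

theorem star_walsh (S : Finset ι) (x : ι → Bool) :
    (starRingEnd ℂ) (walsh S x) = walsh S x := by
  unfold walsh
  rw [map_prod]
  simp [star_sgn]

theorem walsh_mul [DecidableEq ι] (S T : Finset ι) (x : ι → Bool) :
    walsh S x * walsh T x = walsh (S ∆ T) x := by
  unfold walsh
  have h1 : ∏ i ∈ S, sgn (x i) = (∏ i ∈ S \ T, sgn (x i)) * ∏ i ∈ S ∩ T, sgn (x i) := by
    rw [← Finset.prod_union (Finset.disjoint_sdiff_inter S T), Finset.sdiff_union_inter]
  have h2 : ∏ i ∈ T, sgn (x i) = (∏ i ∈ T \ S, sgn (x i)) * ∏ i ∈ S ∩ T, sgn (x i) := by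
    rw [Finset.inter_comm S T,
      ← Finset.prod_union (Finset.disjoint_sdiff_inter T S), Finset.sdiff_union_inter]
  have h3 : (∏ i ∈ S ∩ T, sgn (x i)) * (∏ i ∈ S ∩ T, sgn (x i)) = 1 := by
    rw [← Finset.prod_mul_distrib]
    exact Finset.prod_eq_one fun i _ => sgn_mul_self _
  have h4 : ∏ i ∈ S ∆ T, sgn (x i) = (∏ i ∈ S \ T, sgn (x i)) * ∏ i ∈ T \ S, sgn (x i) := by
    rw [symmDiff_def, Finset.sup_eq_union]
    rw [Finset.prod_union]
    exact disjoint_sdiff_sdiff
  rw [h1, h2, h4]
  calc _ = (∏ i ∈ S \ T, sgn (x i)) * (∏ i ∈ T \ S, sgn (x i)) *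
        ((∏ i ∈ S ∩ T, sgn (x i)) * (∏ i ∈ S ∩ T, sgn (x i))) := by ring
    _ = _ := by rw [h3, mul_one]

theorem memLp_walsh (S : Finset ι) : MemLp (walsh S) 2 (cube ι) :=
  MemLp.of_bound (measurable_walsh S).aestronglyMeasurable 1
    (Filter.Eventually.of_forall fun x => (norm_walsh S x).le)

theorem integral_walsh {S : Finset ι} (hS : S.Nonempty) : ∫ x, walsh S x ∂(cube ι) = 0 := by
  classical
  obtain ⟨i, hi⟩ := hS
  set φ : (ι → Bool) → (ι → Bool) := fun x j => if j = i then !(x j) else x j with hφ
  have hmeas : ∀ j : ι, Measurable (fun b : Bool => if j = i then !b else b) := fun j =>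
    measurable_of_countable _
  have hmp : MeasurePreserving φ (cube ι) (cube ι) := by
    refine ⟨?_, ?_⟩
    · refine measurable_pi_lambda _ fun j => ?_
      exact (hmeas j).comp (measurable_pi_apply j)
    · have := Measure.infinitePi_map_pi (fun _ : ι => coin)
        (f := fun j (b : Bool) => if j = i then !b else b) hmeas
      rw [cube]
      rw [show (fun (x : ι → Bool) j => if j = i then !(x j) else x j) = φ from rfl] at this
      rw [this]
      congr 1
      funext j
      by_cases hj : j = i
      · simp only [hj, if_true]; exact map_not_coin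
      · simp only [hj, if_false]; exact Measure.map_id
  have hneg : ∀ x, walsh S (φ x) = - walsh S x := by
    intro x
    unfold walsh
    rw [← Finset.mul_prod_erase S _ hi, ← Finset.mul_prod_erase S (fun j => sgn (x j)) hi]
    have h1 : sgn (φ x i) = - sgn (x i) := by simp [hφ, sgn_not]
    have h2 : ∏ j ∈ S.erase i, sgn (φ x j) = ∏ j ∈ S.erase i, sgn (x j) := by
      refine Finset.prod_congr rfl fun j hj => ?_
      have : j ≠ i := Finset.ne_of_mem_erase hj
      simp [hφ, this]
    rw [h1, h2]; ring
  have hemb : ∫ x, walsh S x ∂(cube ι) = ∫ x, walsh S (φ x) ∂(cube ι) := by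
    conv_lhs => rw [← hmp.map_eq]
    rw [integral_map hmp.measurable.aemeasurable]
    exact (measurable_walsh S).aestronglyMeasurable
  simp only [hneg, integral_neg] at hemb
  have h2 : (2 : ℂ) * ∫ x, walsh S x ∂(cube ι) = 0 := by
    rw [two_mul]; nth_rewrite 1 [hemb]; simp
  simpa using h2

/-- Walsh functions in `L²`. -/
noncomputable def walshLp (S : Finset ι) : Lp ℂ 2 (cube ι) := (memLp_walsh S).toLp _

theorem coeFn_walshLp (S : Finset ι) : (walshLp S : (ι → Bool) → ℂ) =ᵐ[cube ι] walsh S :=
  MemLp.coeFn_toLp _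

theorem orthonormal_walshLp : Orthonormal ℂ (walshLp (ι := ι)) := by
  classical
  rw [orthonormal_iff_ite]
  intro S T
  rw [L2.inner_def]
  have h : ∀ᵐ x ∂(cube ι), inner ℂ (walshLp S x) (walshLp T x) = walsh (S ∆ T) x := by
    filter_upwards [coeFn_walshLp S, coeFn_walshLp T] with x h1 h2
    rw [h1, h2, RCLike.inner_apply, star_walsh, mul_comm, walsh_mul]
  rw [integral_congr_ae h]
  by_cases hST : S = T
  · subst hST
    simp [walsh]
  · rw [if_neg hST]
    apply integral_walsh
    rw [Finset.nonempty_iff_ne_empty]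
    intro h0
    exact hST (symmDiff_eq_bot.1 h0)

/-- Functions in the linear span of the Walsh functions. -/
def walshSpan (ι : Type*) : Submodule ℂ ((ι → Bool) → ℂ) := Submodule.span ℂ (Set.range walsh)

theorem walshSpan_mul {f g : (ι → Bool) → ℂ} (hf : f ∈ walshSpan ι) (hg : g ∈ walshSpan ι) :
    f * g ∈ walshSpan ι := by
  classical
  unfold walshSpan at *
  induction hf using Submodule.span_induction with
  | mem f hf =>
    obtain ⟨S, rfl⟩ := hf
    induction hg using Submodule.span_induction with
    | mem g hg =>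
      obtain ⟨T, rfl⟩ := hg
      have : walsh S * walsh T = walsh (S ∆ T) := by
        funext x; exact walsh_mul S T x
      rw [this]
      exact Submodule.subset_span ⟨_, rfl⟩
    | zero => simp
    | add g h _ _ h1 h2 => rw [mul_add]; exact Submodule.add_mem _ h1 h2
    | smul c g _ h1 => rw [mul_smul_comm]; exact Submodule.smul_mem _ _ h1
  | zero => simp
  | add g h _ _ h1 h2 => rw [add_mul]; exact Submodule.add_mem _ h1 h2
  | smul c g _ h1 => rw [smul_mul_assoc]; exact Submodule.smul_mem _ _ h1

theorem walshSpan_one : (1 : (ι → Bool) → ℂ) ∈ walshSpan ι := by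
  have : (1 : (ι → Bool) → ℂ) = walsh ∅ := by funext x; simp [walsh]
  rw [this]; exact Submodule.subset_span ⟨_, rfl⟩

theorem walshSpan_coord (i : ι) (b : Bool) :
    (fun x : ι → Bool => if x i = b then (1:ℂ) else 0) ∈ walshSpan ι := by
  have h : (fun x : ι → Bool => if x i = b then (1:ℂ) else 0)
      = (2⁻¹ : ℂ) • ((1 : (ι → Bool) → ℂ) + sgn b • walsh {i}) := by
    funext x
    simp only [Pi.smul_apply, Pi.add_apply, Pi.one_apply, walsh, Finset.prod_singleton,
      smul_eq_mul]
    cases hx : x i <;> cases b <;> simp [sgn] <;> norm_num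
  rw [h]
  exact Submodule.smul_mem _ _ (Submodule.add_mem _ walshSpan_one
    (Submodule.smul_mem _ _ (Submodule.subset_span ⟨_, rfl⟩)))

theorem walshSpan_box [DecidableEq ι] (S : Finset ι) (a : ι → Bool) :
    (fun x : ι → Bool => if (∀ i ∈ S, x i = a i) then (1:ℂ) else 0) ∈ walshSpan ι := by
  induction S using Finset.induction_on with
  | empty =>
    have h : (fun x : ι → Bool => if (∀ i ∈ (∅ : Finset ι), x i = a i) then (1:ℂ) else 0) = 1 := by
      funext x; simp
    rw [h]; exact walshSpan_one
  | insert i S hi ih =>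
    have h : (fun x : ι → Bool => if (∀ j ∈ insert i S, x j = a j) then (1:ℂ) else 0)
        = (fun x : ι → Bool => if x i = a i then (1:ℂ) else 0)
          * (fun x : ι → Bool => if (∀ i ∈ S, x i = a i) then (1:ℂ) else 0) := by
      funext x
      simp only [Pi.mul_apply]
      by_cases h1 : x i = a i <;> by_cases h2 : ∀ j ∈ S, x j = a j <;> simp [h1, h2]
    rw [h]
    exact walshSpan_mul (walshSpan_coord i _) ih

theorem walshSpan_cylinder (S : Finset ι) (A : Set (S → Bool)) :
    ((cylinder S A).indicator (fun _ => (1:ℂ))) ∈ walshSpan ι := by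
  classical
  have h : (cylinder S A).indicator (fun _ => (1:ℂ))
      = ∑ a : S → Bool, if a ∈ A then
        (fun x : ι → Bool => if (∀ i ∈ S, x i = (if h : i ∈ S then a ⟨i, h⟩ else true))
          then (1:ℂ) else 0) else 0 := by
    funext x
    rw [Finset.sum_apply]
    rw [Finset.sum_eq_single (fun i : S => x i)]
    · by_cases hx : (fun i : S => x i) ∈ A
      · have hx' : x ∈ cylinder S A := hx
        rw [Set.indicator_of_mem hx', if_pos hx]
        rw [if_pos]
        intro i hi
        simp [hi]
      · have hx' : x ∉ cylinder S A := hx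
        rw [Set.indicator_of_notMem hx', if_neg hx]
        simp
    · intro a _ ha
      by_cases hA : a ∈ A
      · rw [if_pos hA]
        rw [if_neg]
        intro hall
        apply ha
        funext i
        have := hall i i.2
        simp only [i.2, dif_pos] at this
        exact this.symm
      · rw [if_neg hA]; simp
    · simp
  rw [h]
  refine Submodule.sum_mem _ fun a _ => ?_
  by_cases ha : a ∈ A
  · rw [if_pos ha]; exact walshSpan_box S _
  · rw [if_neg ha]; exact Submodule.zero_mem _

theorem toLp_mem_span {f : (ι → Bool) → ℂ} (hf : f ∈ walshSpan ι) :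
    ∃ h : MemLp f 2 (cube ι), h.toLp f ∈ Submodule.span ℂ (Set.range (walshLp (ι := ι))) := by
  unfold walshSpan at hf
  induction hf using Submodule.span_induction with
  | mem f hf =>
    obtain ⟨S, rfl⟩ := hf
    exact ⟨memLp_walsh S, Submodule.subset_span ⟨S, rfl⟩⟩
  | zero => exact ⟨MemLp.zero, by rw [MemLp.toLp_zero]; exact Submodule.zero_mem _⟩
  | add g h _ _ h1 h2 =>
    obtain ⟨m1, s1⟩ := h1
    obtain ⟨m2, s2⟩ := h2
    exact ⟨m1.add m2, by rw [MemLp.toLp_add m1 m2]; exact Submodule.add_mem _ s1 s2⟩
  | smul c g _ h1 =>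
    obtain ⟨m1, s1⟩ := h1
    exact ⟨m1.const_smul c, by rw [MemLp.toLp_const_smul c m1]; exact Submodule.smul_mem _ _ s1⟩

theorem span_walshLp : (Submodule.span ℂ (Set.range (walshLp (ι := ι)))).topologicalClosure = ⊤ := by
  classical
  refine submodule_eq_top_of_pi _ (Submodule.isClosed_topologicalClosure _)
    (measurableCylinders (fun _ : ι => Bool)) generateFrom_measurableCylinders.symm
    isPiSystem_measurableCylinders ?_ ?_
  · apply Submodule.le_topologicalClosure
    obtain ⟨h, hs⟩ := toLp_mem_span (walshSpan_one (ι := ι))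
    convert hs using 1
    apply Lp.ext
    filter_upwards [MemLp.coeFn_toLp h, indicatorConstLp_coeFn (p := 2)
      (hs := MeasurableSet.univ) (hμs := measure_ne_top (cube ι) _) (c := (1:ℂ))] with x h1 h2
    rw [h1, h2]; simp
  · intro s hs hsC
    apply Submodule.le_topologicalClosure
    rw [mem_measurableCylinders] at hsC
    obtain ⟨S, A, hA, rfl⟩ := hsC
    obtain ⟨h, hs'⟩ := toLp_mem_span (walshSpan_cylinder S A)
    exact hs'

/-- The Walsh basis. -/
noncomputable def walshBasis (ι : Type*) : HilbertBasis (Finset ι) ℂ (Lp ℂ 2 (cube ι)) :=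
  HilbertBasis.mk orthonormal_walshLp (by rw [span_walshLp])

theorem walshBasis_apply (S : Finset ι) : walshBasis ι S = walshLp S := by
  unfold walshBasis; rw [HilbertBasis.coe_mk]

/-- Coordinate permutation. -/
def permMap (σ : Equiv.Perm ι) (x : ι → Bool) : ι → Bool := fun i => x (σ i)

theorem measurePreserving_permMap (σ : Equiv.Perm ι) :
    MeasurePreserving (permMap σ) (cube ι) (cube ι) := by
  refine ⟨?_, ?_⟩
  · exact measurable_pi_lambda _ fun i => measurable_pi_apply _
  · exact Measure.map_infinitePi_infinitePi_of_inj (P := fun _ : ι => coin) σ.injective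

/-- The Koopman operator of a coordinate permutation. -/
noncomputable def koop (σ : Equiv.Perm ι) : Lp ℂ 2 (cube ι) →ₗᵢ[ℂ] Lp ℂ 2 (cube ι) :=
  Lp.compMeasurePreservingₗᵢ ℂ (permMap σ) (measurePreserving_permMap σ)

theorem coeFn_koop (σ : Equiv.Perm ι) (f : Lp ℂ 2 (cube ι)) :
    (koop σ f : (ι → Bool) → ℂ) =ᵐ[cube ι] fun x => f (permMap σ x) :=
  Lp.coeFn_compMeasurePreserving f (measurePreserving_permMap σ)

theorem walsh_permMap (σ : Equiv.Perm ι) (S : Finset ι) (x : ι → Bool) :
    walsh S (permMap σ x) = walsh (S.map σ.toEmbedding) x := by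
  unfold walsh permMap
  rw [Finset.prod_map]; rfl

theorem koop_walshLp (σ : Equiv.Perm ι) (S : Finset ι) :
    koop σ (walshLp S) = walshLp (S.map σ.toEmbedding) := by
  apply Lp.ext
  have h := (measurePreserving_permMap σ).quasiMeasurePreserving.ae_eq_comp (coeFn_walshLp S)
  filter_upwards [coeFn_koop σ (walshLp S), coeFn_walshLp (S.map σ.toEmbedding), h]
    with x h1 h2 h3
  rw [h1, h2]
  have : (walshLp S) (permMap σ x) = walsh S (permMap σ x) := h3
  rw [this, walsh_permMap]

theorem repr_koop (σ : Equiv.Perm ι) (f : Lp ℂ 2 (cube ι)) (S : Finset ι) :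
    (walshBasis ι).repr (koop σ f) (S.map σ.toEmbedding) = (walshBasis ι).repr f S := by
  rw [HilbertBasis.repr_apply_apply, HilbertBasis.repr_apply_apply, walshBasis_apply,
    walshBasis_apply, ← koop_walshLp, LinearIsometry.inner_map_map]

end Pool.Agent.MP_fe632d_an
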