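import Pool.Agent.MP_fe632d_an.Maharam2
import Pool.Agent.MP_fe632d_an.Walsh

open MeasureTheory Set
open scoped ENNReal NNReal symmDiff

set_option linter.unusedSectionVars false

namespace Pool.Agent.MP_fe632d_an

attribute [local instance] Classical.propDecidable

universe u

/-- distance squared of the indicator of `b` to the `m`-measurable functions. -/
noncomputable def er {X : Type u} {mX : MeasurableSpace X} (P : Measure X)
    (m : MeasurableSpace X) (b : Set X) : ℝ :=
  ∫ x, (b.indicator (fun _ => (1:ℝ)) x - cp P m b x) ^ 2 ∂P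

/-- the local uncertainty -/
noncomputable def unc {X : Type u} {mX : MeasurableSpace X} (P : Measure X)
    (m : MeasurableSpace X) (b : Set X) (x : X) : ℝ :=
  min (cp P m b x) (1 - cp P m b x)

theorem sm_min {Y : Type*} {mY : MeasurableSpace Y} {f g : Y → ℝ}
    (hf : StronglyMeasurable[mY] f) (hg : StronglyMeasurable[mY] g) :
    StronglyMeasurable[mY] (fun x => min (f x) (g x)) := hf.inf hg

section
variable {X : Type u} {m : MeasurableSpace X} [mX : MeasurableSpace X]
variable {P : Measure X} [IsFiniteMeasure P] (hm : m ≤ mX)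
include hm

theorem integral_mul_condExp' {ψ f : X → ℝ} (hψ : StronglyMeasurable[m] ψ) {C : ℝ}
    (hbd : ∀ᵐ x ∂P, ‖ψ x‖ ≤ C) (hf : Integrable f P) :
    ∫ x, ψ x * f x ∂P = ∫ x, ψ x * (P[f | m]) x ∂P := by
  have hint : Integrable (ψ * f) P := by
    have := hf.bdd_mul (c := C) (hψ.mono hm).aestronglyMeasurable hbd
    exact this
  have h1 := condExp_mul_of_stronglyMeasurable_left (μ := P) hψ hint hf
  have h2 : ∫ x, (ψ * f) x ∂P = ∫ x, (P[ψ * f | m]) x ∂P := (integral_condExp hm).symm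
  change ∫ x, (ψ * f) x ∂P = _
  rw [h2, integral_congr_ae h1]
  rfl

theorem ae_cp_bd {b : Set X} (hb : MeasurableSet b) :
    ∀ᵐ x ∂P, 0 ≤ cp P m b x ∧ cp P m b x ≤ 1 := by
  filter_upwards [cp_nonneg (P := P) (m := m) b, cp_le_one (P := P) hm hb] with x h1 h2
  exact ⟨h1, h2⟩

theorem integrable_of_bdd {f : X → ℝ} (hf : AEStronglyMeasurable f P) (C : ℝ)
    (h : ∀ᵐ x ∂P, ‖f x‖ ≤ C) : Integrable f P :=
  (integrable_const C).mono' hf h

theorem er_le {b : Set X} (hb : MeasurableSet b) {ψ : X → ℝ} (hψ : StronglyMeasurable[m] ψ)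
    {C : ℝ} (hbd : ∀ᵐ x ∂P, ‖ψ x‖ ≤ C) :
    er P m b ≤ ∫ x, (b.indicator (fun _ => (1:ℝ)) x - ψ x) ^ 2 ∂P := by
  set u : X → ℝ := b.indicator (fun _ => (1:ℝ)) with hu
  set g := cp P m b with hg
  have hgm : StronglyMeasurable[m] g := sm_cp b
  have hub : ∀ x, ‖u x‖ ≤ 1 := by
    intro x
    by_cases hx : x ∈ b <;> simp [hu, hx]
  have hui : Integrable u P := integrable_ind hb
  have hgi : Integrable g P := integrable_cp b
  have hgb : ∀ᵐ x ∂P, ‖g x‖ ≤ 1 := by
    filter_upwards [ae_cp_bd (P := P) hm hb] with x hx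
    rw [Real.norm_of_nonneg hx.1]; exact hx.2
  have hcond : P[u - g | m] =ᵐ[P] 0 := by
    have h1 := condExp_sub (μ := P) hui hgi m
    have h2 : P[g | m] = g := condExp_of_stronglyMeasurable hm hgm hgi
    filter_upwards [h1] with x hx
    rw [hx, Pi.sub_apply, h2]
    simp [hg, cp, hu]
  have hz : ∫ x, (g x - ψ x) * (u x - g x) ∂P = 0 := by
    have hbd2 : ∀ᵐ x ∂P, ‖(g - ψ) x‖ ≤ 1 + C := by
      filter_upwards [hbd, hgb] with x h1 h2
      exact (norm_sub_le _ _).trans (add_le_add h2 h1)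
    have h1 := integral_mul_condExp' (P := P) hm (hgm.sub hψ) hbd2 (hui.sub hgi)
    have h2 : ∫ x, (g - ψ) x * (P[u - g | m]) x ∂P = 0 := by
      rw [← integral_zero X ℝ (μ := P)]
      apply integral_congr_ae
      filter_upwards [hcond] with x hx
      rw [hx]; simp
    rw [h2] at h1
    exact h1
  have hψX := (hψ.mono hm).aestronglyMeasurable (μ := P)
  have hi1 : Integrable (fun x => (u x - g x) ^ 2) P := by
    refine integrable_of_bdd hm ((hui.aestronglyMeasurable.sub hgi.aestronglyMeasurable).pow 2)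
      ((1 + 1) ^ 2) ?_
    filter_upwards [hgb] with x hx
    change ‖(u x - g x) ^ 2‖ ≤ _
    rw [norm_pow]
    exact pow_le_pow_left₀ (norm_nonneg _) ((norm_sub_le _ _).trans (add_le_add (hub x) hx)) 2
  have hi2 : Integrable (fun x => (g x - ψ x) ^ 2) P := by
    refine integrable_of_bdd hm ((hgi.aestronglyMeasurable.sub hψX).pow 2) ((1 + C) ^ 2) ?_
    filter_upwards [hgb, hbd] with x hx h2
    change ‖(g x - ψ x) ^ 2‖ ≤ _
    rw [norm_pow]
    exact pow_le_pow_left₀ (norm_nonneg _) ((norm_sub_le _ _).trans (add_le_add hx h2)) 2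
  have hi3 : Integrable (fun x => (g x - ψ x) * (u x - g x)) P := by
    refine integrable_of_bdd hm ((hgi.aestronglyMeasurable.sub hψX).mul
      (hui.aestronglyMeasurable.sub hgi.aestronglyMeasurable)) ((1 + C) * (1 + 1)) ?_
    filter_upwards [hgb, hbd] with x hx h2
    change ‖(g x - ψ x) * (u x - g x)‖ ≤ _
    rw [norm_mul]
    have h3 : ‖g x - ψ x‖ ≤ 1 + C := (norm_sub_le _ _).trans (add_le_add hx h2)
    have h4 : ‖u x - g x‖ ≤ 1 + 1 := (norm_sub_le _ _).trans (add_le_add (hub x) hx)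
    exact mul_le_mul h3 h4 (norm_nonneg _) ((norm_nonneg _).trans h3)
  have hexp : ∫ x, (u x - ψ x) ^ 2 ∂P = ∫ x, (u x - g x) ^ 2 ∂P + ∫ x, (g x - ψ x) ^ 2 ∂P
      + 2 * ∫ x, (g x - ψ x) * (u x - g x) ∂P := by
    have e1 : ∫ x, ((u x - g x) ^ 2 + (g x - ψ x) ^ 2) ∂P = _ := integral_add hi1 hi2
    have e2 : ∫ x, (((u x - g x) ^ 2 + (g x - ψ x) ^ 2)
      + 2 * ((g x - ψ x) * (u x - g x))) ∂P = _ := integral_add (hi1.add hi2) (hi3.const_mul 2)
    rw [← integral_const_mul]
    refine Eq.trans ?_ (e2.trans (congrArg (· + _) e1))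
    apply integral_congr_ae
    filter_upwards with x
    ring
  rw [hz] at hexp
  have hnn : 0 ≤ ∫ x, (g x - ψ x) ^ 2 ∂P := integral_nonneg fun x => sq_nonneg _
  unfold er
  rw [hexp]; linarith

theorem er_step {b D : Set X} (hb : MeasurableSet b) (hD : MeasurableSet D)
    (hDc : cp P m D =ᵐ[P] fun _ => 1 / 2)
    (h1 : b ∩ {x | cp P m b x ≤ 1 / 2} ⊆ D) (h2 : D ∩ {x | 1 / 2 < cp P m b x} ⊆ b) :
    ∫ x, (b.indicator (fun _ => (1:ℝ)) x - (cp P m b x
      + unc P m b x * (2 * D.indicator (fun _ => (1:ℝ)) x - 1))) ^ 2 ∂P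
      = er P m b - ∫ x, unc P m b x ^ 2 ∂P := by
  set u : X → ℝ := b.indicator (fun _ => (1:ℝ)) with hu
  set v : X → ℝ := D.indicator (fun _ => (1:ℝ)) with hv
  set g := cp P m b with hg
  set w := unc P m b with hw
  set G := {x | g x ≤ 1 / 2} with hG
  have hgm : StronglyMeasurable[m] g := sm_cp b
  have hwm : StronglyMeasurable[m] w := by
    have : w = fun x => min (g x) (1 - g x) := rfl
    rw [this]
    exact sm_min hgm ((sm_const m 1).sub hgm)
  have hGm : MeasurableSet[m] G := sm_le hgm (sm_const m _)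
  have hub : ∀ x, u x = 0 ∨ u x = 1 := by
    intro x
    by_cases hx : x ∈ b <;> simp [hu, hx]
  have hvb : ∀ x, v x = 0 ∨ v x = 1 := by
    intro x
    by_cases hx : x ∈ D <;> simp [hv, hx]
  have hui : Integrable u P := integrable_ind hb
  have hvi : Integrable v P := integrable_ind hD
  have hgi : Integrable g P := integrable_cp b
  have hgb := ae_cp_bd (P := P) hm hb
  have hwb : ∀ᵐ x ∂P, 0 ≤ w x ∧ w x ≤ 1 := by
    filter_upwards [hgb] with x hx
    refine ⟨le_min hx.1 (by linarith [hx.2]), (min_le_left _ _).trans hx.2⟩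
  have hwi : Integrable w P := by
    refine integrable_of_bdd hm (hwm.mono hm).aestronglyMeasurable 1 ?_
    filter_upwards [hwb] with x hx
    rw [Real.norm_of_nonneg hx.1]; exact hx.2
  -- first pull-out : `∫ w g (2 v - 1) = 0`
  have hcv : P[v | m] =ᵐ[P] fun _ => 1 / 2 := hDc
  have hcρ : P[(2:ℝ) • v - fun _ => (1:ℝ) | m] =ᵐ[P] 0 := by
    have e1 := condExp_sub (μ := P) (hvi.smul (2:ℝ)) (integrable_const (1:ℝ)) m
    have e2 := condExp_smul (μ := P) (2:ℝ) v m
    filter_upwards [e1, e2, hcv] with x h1 h2 h3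
    rw [h1, Pi.sub_apply, h2, Pi.smul_apply, h3, condExp_const hm]
    simp
  have hz1 : ∫ x, (w x * g x) * (2 * v x - 1) ∂P = 0 := by
    have e1 := integral_mul_condExp' (P := P) hm (hwm.mul hgm) (C := 1) (by
      filter_upwards [hwb, hgb] with x h1 h2
      change ‖w x * g x‖ ≤ 1
      rw [norm_mul, Real.norm_of_nonneg h1.1, Real.norm_of_nonneg h2.1]
      nlinarith [h1.1, h1.2, h2.1, h2.2]) ((hvi.smul (2:ℝ)).sub (integrable_const (1:ℝ)))
    have e2 : ∫ x, (w * g) x * (P[(2:ℝ) • v - fun _ => (1:ℝ) | m]) x ∂P = 0 := by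
      rw [← integral_zero X ℝ (μ := P)]
      apply integral_congr_ae
      filter_upwards [hcρ] with x hx
      rw [hx]; simp
    rw [e2] at e1
    exact e1
  -- second pull-out
  set U : X → ℝ := G.indicator u + Gᶜ.indicator ((2:ℝ) • v - u) with hU
  have hUi : Integrable U P :=
    (hui.indicator (hm _ hGm)).add (((hvi.smul (2:ℝ)).sub hui).indicator (hm _ hGm.compl))
  have hcU : P[U | m] =ᵐ[P] w := by
    have e1 := condExp_add (μ := P) (hui.indicator (hm _ hGm))
      (((hvi.smul (2:ℝ)).sub hui).indicator (hm _ hGm.compl)) m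
    have e2 := condExp_indicator (μ := P) hui hGm
    have e3 := condExp_indicator (μ := P) ((hvi.smul (2:ℝ)).sub hui) hGm.compl
    have e4 := condExp_sub (μ := P) (hvi.smul (2:ℝ)) hui m
    have e5 := condExp_smul (μ := P) (2:ℝ) v m
    filter_upwards [e1, e2, e3, e4, e5, hcv, hgb] with x h1 h2 h3 h4 h5 h6 h7
    rw [h1, Pi.add_apply, h2, h3]
    by_cases hx : x ∈ G
    · rw [Set.indicator_of_mem hx, Set.indicator_of_notMem (by simpa using hx), add_zero]
      have hxg : g x ≤ 1 / 2 := hx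
      change g x = min (g x) (1 - g x)
      rw [min_eq_left (by linarith)]
    · rw [Set.indicator_of_notMem hx, Set.indicator_of_mem (by simpa using hx), zero_add,
        h4, Pi.sub_apply, h5, Pi.smul_apply, h6]
      have hxg : ¬ g x ≤ 1 / 2 := hx
      change (2:ℝ) • (1 / 2 : ℝ) - g x = min (g x) (1 - g x)
      rw [min_eq_right (by linarith [not_le.1 hxg])]
      norm_num
  have hUval : ∀ x, U x = (2 * v x - 1) * u x := by
    intro x
    by_cases hx : x ∈ G
    · have : U x = u x := by simp [hU, hx]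
      rw [this]
      by_cases hxb : x ∈ b
      · have hxD : x ∈ D := h1 ⟨hxb, hx⟩
        simp [hv, hxD]; norm_num
      · simp [hu, hxb]
    · have : U x = 2 * v x - u x := by simp [hU, hx]
      rw [this]
      have hxg : 1 / 2 < g x := not_le.1 hx
      by_cases hxD : x ∈ D
      · have hxb : x ∈ b := h2 ⟨hxD, hxg⟩
        simp [hv, hu, hxD, hxb]
      · simp [hv, hxD]
  have hz2 : ∫ x, w x * ((2 * v x - 1) * u x) ∂P = ∫ x, w x ^ 2 ∂P := by
    have e1 := integral_mul_condExp' (P := P) hm hwm (C := 1) (by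
      filter_upwards [hwb] with x h1
      rw [Real.norm_of_nonneg h1.1]; exact h1.2) hUi
    have e2 : ∫ x, w x * (P[U | m]) x ∂P = ∫ x, w x ^ 2 ∂P := by
      apply integral_congr_ae
      filter_upwards [hcU] with x hx
      rw [hx]; ring
    rw [e2] at e1
    rw [← e1]
    apply integral_congr_ae
    filter_upwards with x
    rw [hUval]
  -- integrability
  have hvX := hvi.aestronglyMeasurable
  have huX := hui.aestronglyMeasurable
  have hwX := hwi.aestronglyMeasurable
  have hgX := hgi.aestronglyMeasurable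
  have hi1 : Integrable (fun x => (u x - g x) ^ 2) P := by
    refine integrable_of_bdd hm ((huX.sub hgX).pow 2) 1 ?_
    filter_upwards [hgb] with x hx
    change ‖(u x - g x) ^ 2‖ ≤ _
    rw [norm_pow, Real.norm_eq_abs, sq_abs]
    rcases hub x with h | h <;> rw [h] <;> nlinarith [hx.1, hx.2]
  have hi2 : Integrable (fun x => w x ^ 2) P := by
    refine integrable_of_bdd hm (hwX.pow 2) 1 ?_
    filter_upwards [hwb] with x hx
    change ‖(w x) ^ 2‖ ≤ _
    rw [norm_pow, Real.norm_eq_abs, sq_abs]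
    nlinarith [hx.1, hx.2]
  have hρX : AEStronglyMeasurable (fun x => 2 * v x - 1) P :=
    (hvX.const_mul 2).sub aestronglyMeasurable_const
  have hi3 : Integrable (fun x => (w x * g x) * (2 * v x - 1)) P := by
    refine integrable_of_bdd hm ((hwX.mul hgX).mul hρX) 1 ?_
    filter_upwards [hwb, hgb] with x h1 h2
    change ‖(w x * g x) * (2 * v x - 1)‖ ≤ _
    rw [norm_mul, norm_mul, Real.norm_of_nonneg h1.1, Real.norm_of_nonneg h2.1]
    rcases hvb x with h | h <;> rw [h] <;> norm_num <;> nlinarith [h1.1, h1.2, h2.1, h2.2]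
  have hi4 : Integrable (fun x => w x * ((2 * v x - 1) * u x)) P := by
    refine integrable_of_bdd hm (hwX.mul (hρX.mul huX)) 1 ?_
    filter_upwards [hwb] with x h1
    change ‖w x * ((2 * v x - 1) * u x)‖ ≤ _
    rw [norm_mul, norm_mul, Real.norm_of_nonneg h1.1]
    rcases hvb x with h | h <;> rcases hub x with h' | h' <;> rw [h, h'] <;> norm_num <;>
      exact h1.2
  unfold er
  have hexp : ∫ x, (u x - (g x + w x * (2 * v x - 1))) ^ 2 ∂P
      = ∫ x, (u x - g x) ^ 2 ∂P + ∫ x, w x ^ 2 ∂P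
        + 2 * ∫ x, (w x * g x) * (2 * v x - 1) ∂P
        + (-2) * ∫ x, w x * ((2 * v x - 1) * u x) ∂P := by
    have e1 : ∫ x, ((u x - g x) ^ 2 + w x ^ 2) ∂P = _ := integral_add hi1 hi2
    have e2 : ∫ x, (((u x - g x) ^ 2 + w x ^ 2)
      + 2 * ((w x * g x) * (2 * v x - 1))) ∂P = _ := integral_add (hi1.add hi2) (hi3.const_mul 2)
    have e3 : ∫ x, ((((u x - g x) ^ 2 + w x ^ 2)
      + 2 * ((w x * g x) * (2 * v x - 1))) + (-2) * (w x * ((2 * v x - 1) * u x))) ∂P = _ :=
      integral_add ((hi1.add hi2).add (hi3.const_mul 2)) (hi4.const_mul (-2))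
    rw [← integral_const_mul, ← integral_const_mul]
    refine Eq.trans ?_ (e3.trans (congrArg (· + _) (e2.trans (congrArg (· + _) e1))))
    apply integral_congr_ae
    filter_upwards with x
    have hv2 : v x * v x = v x := by rcases hvb x with h | h <;> rw [h] <;> norm_num
    have : (2 * v x - 1) * (2 * v x - 1) = 1 := by nlinarith
    calc (u x - (g x + w x * (2 * v x - 1))) ^ 2
        = (u x - g x) ^ 2 + w x ^ 2 * ((2 * v x - 1) * (2 * v x - 1))
          + 2 * (w x * g x * (2 * v x - 1)) + -2 * (w x * ((2 * v x - 1) * u x)) := by ring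
      _ = _ := by rw [this, mul_one]
  rw [hexp, hz1, hz2]
  ring

end

end Pool.Agent.MP_fe632d_an
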