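import Pool.Agent.MP_fe632d_an.Maharam3
import Pool.Agent.MP_fe632d_an.Embed

open MeasureTheory Set
open scoped ENNReal NNReal symmDiff

set_option linter.unusedSectionVars false

namespace Pool.Agent.MP_fe632d_an

attribute [local instance] Classical.propDecidable

universe u

variable {X : Type u} [mX : MeasurableSpace X]

theorem gen_comp_le {J J' : Type*} (D : J → Set X) (e : J' → J) :
    gen (fun j => D (e j)) ≤ gen D := by
  rintro G ⟨B, hB, rfl⟩
  refine ⟨(fun (y : J → Bool) j' => y (e j')) ⁻¹' B, ?_, rfl⟩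
  refine (measurable_pi_lambda _ fun j' => ?_) hB
  exact measurable_pi_apply (X := fun _ : J => Bool) (e j')

theorem gen_Iio_mono {ι : Type*} [LinearOrder ι] (D : ι → Set X) {i k : ι} (h : i ≤ k) :
    gen (fun j : Iio i => D j) ≤ gen (fun j : Iio k => D j) :=
  gen_comp_le (fun j : Iio k => D j) (fun j : Iio i => (⟨j.1, lt_of_lt_of_le j.2 h⟩ : Iio k))

theorem gen_Iio_le {ι : Type*} [LinearOrder ι] (D : ι → Set X) (i : ι) :
    gen (fun j : Iio i => D j) ≤ gen D :=
  gen_comp_le D (fun j : Iio i => j.1)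

theorem relAtomless_gen {J : Type u} {D : J → Set X} (hD : ∀ j, MeasurableSet (D j))
    (P : Measure X) [IsFiniteMeasure P] {κ : Cardinal.{u}} (hκ : Cardinal.aleph0 ≤ κ)
    (hJ : Cardinal.mk J < κ)
    (hdens : ∀ A, MeasurableSet A → P A ≠ 0 → κ ≤ density P A) : RelAtomless P (gen D) :=
  fun A hA h0 => exists_not_trace hD P hκ hJ hA (hdens A hA h0)

/-- the specification of the recursive construction -/
def Spec (P : Measure X) (m : MeasurableSpace X) (b D : Set X) : Prop :=
  (cp P m D =ᵐ[P] fun _ => 1 / 2) ∧ b ∩ {x | cp P m b x ≤ 1 / 2} ⊆ D ∧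
    D ∩ {x | 1 / 2 < cp P m b x} ⊆ b

theorem exists_family {ι : Type u} [LinearOrder ι] [WellFoundedLT ι]
    (P : Measure X) [IsFiniteMeasure P] {κ : Cardinal.{u}} (hκ : Cardinal.aleph0 ≤ κ)
    (hι : ∀ i : ι, Cardinal.mk (Iio i) < κ)
    (hdens : ∀ A, MeasurableSet A → P A ≠ 0 → κ ≤ density P A)
    (b : ι → Set X) (hb : ∀ i, MeasurableSet (b i)) :
    ∃ D : ι → Set X, (∀ i, MeasurableSet (D i)) ∧
      ∀ i, Spec P (gen (fun j : Iio i => D j)) (b i) (D i) := by
  have hstep : ∀ (i : ι) (f : ∀ j : ι, j < i → {s : Set X // MeasurableSet s}),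
      ∃ D : {s : Set X // MeasurableSet s},
        Spec P (gen (fun j : Iio i => (f j.1 j.2).1)) (b i) D.1 := by
    intro i f
    have hf : ∀ j : Iio i, MeasurableSet ((f j.1 j.2).1) := fun j => (f j.1 j.2).2
    obtain ⟨D, h1, h2, h3, h4⟩ := exists_split (P := P) (gen_le hf)
      (relAtomless_gen hf P hκ (hι i) hdens) (hb i)
    exact ⟨⟨D, h1⟩, h2, h3, h4⟩
  choose F hF using hstep
  let D : ι → {s : Set X // MeasurableSet s} :=
    (wellFounded_lt (α := ι)).fix (fun i f => F i f)
  have hD : ∀ i, D i = F i (fun j _ => D j) := fun i => WellFounded.fix_eq _ _ _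
  refine ⟨fun i => (D i).1, fun i => (D i).2, fun i => ?_⟩
  have := hF i (fun j _ => D j)
  rw [← hD i] at this
  exact this

theorem measure_half {X : Type u} {m : MeasurableSpace X} [mX : MeasurableSpace X]
    (P : Measure X) [IsFiniteMeasure P] (hm : m ≤ mX)
    {D : Set X} (hD : MeasurableSet[mX] D) (hhalf : cp P m D =ᵐ[P] fun _ => 1 / 2) {G : Set X}
    (hG : MeasurableSet[m] G) : P (D ∩ G) = 2⁻¹ * P G ∧ P (Dᶜ ∩ G) = 2⁻¹ * P G := by
  have h1 := setIntegral_cp (P := P) hm hD hG
  have h2 : ∫ x in G, cp P m D x ∂P = (1 / 2) * P.real G := by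
    rw [setIntegral_congr_ae (g := fun _ => (1:ℝ) / 2) (hm _ hG)]
    · rw [setIntegral_const]; simp [mul_comm]
    · filter_upwards [hhalf] with x hx _
      exact hx
  rw [h1] at h2
  have h3 : P (D ∩ G) = 2⁻¹ * P G := by
    rw [← ENNReal.toReal_eq_toReal_iff' (measure_ne_top _ _)
      (ENNReal.mul_ne_top (by simp) (measure_ne_top _ _)), ENNReal.toReal_mul]
    change P.real (D ∩ G) = _
    rw [h2]; simp [measureReal_def]
  refine ⟨h3, ?_⟩
  have h4 : P (Dᶜ ∩ G) + P (D ∩ G) = P G := by
    rw [inter_comm, inter_comm D G, add_comm]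
    exact measure_inter_add_diff₀ G hD.nullMeasurableSet
  have h5 : (2⁻¹ : ℝ≥0∞) * P G + 2⁻¹ * P G = P G := by
    rw [← add_mul, ENNReal.inv_two_add_inv_two, one_mul]
  rw [h3] at h4
  nth_rewrite 2 [← h5] at h4
  exact (ENNReal.add_left_inj (ENNReal.mul_ne_top (by simp) (measure_ne_top _ _))).1 h4

theorem coin_apply (T : Set Bool) : coin T = 2⁻¹ * (T.indicator 1 true + T.indicator 1 false) := by
  unfold coin
  rw [Measure.smul_apply, Measure.add_apply, Measure.dirac_apply' _ (Set.toFinite _).measurableSet,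
    Measure.dirac_apply' _ (Set.toFinite _).measurableSet]
  rfl

theorem measure_code_step {ι : Type*} [LinearOrder ι] {D : ι → Set X}
    (hD : ∀ i, MeasurableSet (D i)) (P : Measure X) [IsFiniteMeasure P] (a : ι)
    (hhalf : cp P (gen (fun j : Iio a => D j)) (D a) =ᵐ[P] fun _ => 1 / 2) {G : Set X}
    (hG : MeasurableSet[gen (fun j : Iio a => D j)] G) (T : Set Bool) :
    P ({x | code D x a ∈ T} ∩ G) = coin T * P G := by
  obtain ⟨h1, h2⟩ := measure_half (m := gen (fun j : Iio a => D j)) P
    (gen_le (fun j : Iio a => hD j)) (hD a) hhalf hG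
  rw [coin_apply]
  have ht : {x | code D x a = true} = D a := by ext x; simp [code]
  have hf : {x | code D x a = false} = (D a)ᶜ := by ext x; simp [code]
  by_cases h3 : true ∈ T <;> by_cases h4 : false ∈ T
  · have : {x | code D x a ∈ T} = univ := by
      ext x; simp only [mem_setOf_eq, mem_univ, iff_true]
      cases code D x a <;> assumption
    rw [this, univ_inter, Set.indicator_of_mem h3, Set.indicator_of_mem h4]
    simp only [Pi.one_apply]
    rw [one_add_one_eq_two, ENNReal.inv_mul_cancel (by simp) (by simp), one_mul]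
  · have : {x | code D x a ∈ T} = D a := by
      rw [← ht]; ext x; simp only [mem_setOf_eq]
      cases code D x a <;> simp [h3, h4]
    rw [this, h1, Set.indicator_of_mem h3, Set.indicator_of_notMem h4]
    simp
  · have : {x | code D x a ∈ T} = (D a)ᶜ := by
      rw [← hf]; ext x; simp only [mem_setOf_eq]
      cases code D x a <;> simp [h3, h4]
    rw [this, h2, Set.indicator_of_notMem h3, Set.indicator_of_mem h4]
    simp
  · have : {x | code D x a ∈ T} = ∅ := by
      ext x; simp only [mem_setOf_eq, mem_empty_iff_false, iff_false]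
      cases code D x a <;> assumption
    rw [this, empty_inter, Set.indicator_of_notMem h3, Set.indicator_of_notMem h4]
    simp

theorem map_code_eq {ι : Type*} [LinearOrder ι] {D : ι → Set X}
    (hD : ∀ i, MeasurableSet (D i)) (P : Measure X) [IsFiniteMeasure P]
    (hhalf : ∀ a, cp P (gen (fun j : Iio a => D j)) (D a) =ᵐ[P] fun _ => 1 / 2) :
    P.map (code D) = P univ • cube ι := by
  by_cases h0 : P univ = 0
  · have : P = 0 := Measure.measure_univ_eq_zero.1 h0
    rw [this]; simp
  have hbox : ∀ (s : Finset ι) (t : ι → Set Bool), P {x | ∀ i ∈ s, code D x i ∈ t i}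
      = (∏ i ∈ s, coin (t i)) * P univ := by
    intro s t
    induction s using Finset.induction_on_max with
    | empty => simp
    | insert a s ha ih =>
      have has : a ∉ s := fun h => lt_irrefl _ (ha a h)
      have hset : {x | ∀ i ∈ insert a s, code D x i ∈ t i}
          = {x | code D x a ∈ t a} ∩ {x | ∀ i ∈ s, code D x i ∈ t i} := by
        ext x; simp
      have hG : MeasurableSet[gen (fun j : Iio a => D j)] {x | ∀ i ∈ s, code D x i ∈ t i} := by
        refine ⟨{y | ∀ i : Iio a, i.1 ∈ s → y i ∈ t i.1}, ?_, ?_⟩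
        · have : {y : Iio a → Bool | ∀ i : Iio a, i.1 ∈ s → y i ∈ t i.1}
              = ⋂ i ∈ s.attach.image (fun j => (⟨j.1, ha j.1 j.2⟩ : Iio a)),
                (fun y => y i) ⁻¹' (t i.1) := by
            ext y
            simp only [mem_setOf_eq, Finset.mem_image, Finset.mem_attach, true_and, mem_iInter,
              mem_preimage]
            constructor
            · rintro h i ⟨j, rfl⟩
              exact h _ j.2
            · intro h i hi
              exact h i ⟨⟨i.1, hi⟩, rfl⟩
          rw [this]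
          refine Finset.measurableSet_biInter _ fun i _ => ?_
          exact measurable_pi_apply (X := fun _ : Iio a => Bool) i
            (Set.toFinite _).measurableSet
        · ext x
          simp only [mem_preimage, mem_setOf_eq]
          constructor
          · intro h i hi
            exact h ⟨i, ha i hi⟩ hi
          · intro h i hi
            exact h i.1 hi
      rw [hset, measure_code_step hD P a (hhalf a) hG, ih, Finset.prod_insert has, mul_assoc]
  have hQ : (P univ)⁻¹ • P.map (code D) = Measure.infinitePi (fun _ : ι => coin) := by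
    refine Measure.eq_infinitePi _ fun s t ht => ?_
    rw [Measure.smul_apply, Measure.map_apply (measurable_code hD)
      (MeasurableSet.pi s.countable_toSet fun i _ => ht i)]
    have : code D ⁻¹' ((s : Set ι).pi t) = {x | ∀ i ∈ s, code D x i ∈ t i} := by
      ext x; simp [Set.pi]
    rw [this, hbox, smul_eq_mul, mul_comm, mul_assoc, ENNReal.mul_inv_cancel h0
      (measure_ne_top _ _), mul_one]
  unfold cube
  rw [← hQ, smul_smul, ENNReal.mul_inv_cancel h0 (measure_ne_top _ _), one_smul]

theorem er_nonneg (P : Measure X) (m : MeasurableSpace X) (b : Set X) : 0 ≤ er P m b :=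
  integral_nonneg fun _ => sq_nonneg _

theorem er_le_univ {X : Type u} {m : MeasurableSpace X} [mX : MeasurableSpace X]
    (hm : m ≤ mX) (P : Measure X) [IsFiniteMeasure P]
    {b : Set X} (hb : MeasurableSet[mX] b) : er P m b ≤ P.real univ := by
  unfold er
  have : ∫ x, (b.indicator (fun _ => (1:ℝ)) x - cp P m b x) ^ 2 ∂P ≤ ∫ _, (1:ℝ) ∂P := by
    apply integral_mono_of_nonneg (Filter.Eventually.of_forall fun _ => sq_nonneg _)
      (integrable_const _)
    filter_upwards [ae_cp_bd (P := P) hm hb] with x hx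
    by_cases hxb : x ∈ b
    · rw [Set.indicator_of_mem hxb]; nlinarith [hx.1, hx.2]
    · rw [Set.indicator_of_notMem hxb]; nlinarith [hx.1, hx.2]
  simpa using this

theorem er_drop {ι : Type*} [LinearOrder ι] {D : ι → Set X} (hD : ∀ i, MeasurableSet (D i))
    (P : Measure X) [IsFiniteMeasure P] {b : Set X} (hb : MeasurableSet b) {i k : ι}
    (hik : i < k) (hspec : Spec P (gen (fun j : Iio i => D j)) b (D i)) :
    er P (gen (fun j : Iio k => D j)) b ≤ er P (gen (fun j : Iio i => D j)) b
      - ∫ x, unc P (gen (fun j : Iio i => D j)) b x ^ 2 ∂P := by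
  have hmi : gen (fun j : Iio i => D j) ≤ mX := gen_le fun j => hD j
  have hmk : gen (fun j : Iio k => D j) ≤ mX := gen_le fun j => hD j
  obtain ⟨h1, h2, h3⟩ := hspec
  rw [← er_step (P := P) hmi hb (hD i) h1 h2 h3]
  have hmono := gen_Iio_mono D hik.le
  have hg : StronglyMeasurable[gen (fun j : Iio k => D j)]
      (cp P (gen (fun j : Iio i => D j)) b) := (sm_cp b).mono hmono
  have hw : StronglyMeasurable[gen (fun j : Iio k => D j)]
      (unc P (gen (fun j : Iio i => D j)) b) := sm_min hg ((sm_const _ 1).sub hg)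
  have hDk : MeasurableSet[gen (fun j : Iio k => D j)] (D i) :=
    mem_gen (D := fun j : Iio k => D j) ⟨i, hik⟩
  have hv : StronglyMeasurable[gen (fun j : Iio k => D j)]
      ((D i).indicator (fun _ => (1:ℝ))) := (sm_const _ 1).indicator hDk
  refine er_le (P := P) hmk hb (C := 2) (hg.add (hw.mul ((hv.const_mul 2).sub (sm_const _ 1)))) ?_
  filter_upwards [ae_cp_bd (P := P) hmi hb] with x hx
  set g := cp P (gen (fun j : Iio i => D j)) b x with hgx
  set w := unc P (gen (fun j : Iio i => D j)) b x with hwx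
  have hw0 : 0 ≤ w := le_min hx.1 (by linarith [hx.2])
  have hw1 : w ≤ 1 := (min_le_left _ _).trans hx.2
  change ‖g + w * (2 * (D i).indicator (fun _ => (1:ℝ)) x - 1)‖ ≤ 2
  rw [Real.norm_eq_abs, abs_le]
  by_cases hxD : x ∈ D i
  · rw [Set.indicator_of_mem hxD]
    constructor <;> nlinarith [hx.1, hx.2]
  · rw [Set.indicator_of_notMem hxD]
    constructor <;> nlinarith [hx.1, hx.2]

/-- along an infinite set of stages devoted to `b`, the uncertainty gets small. -/
theorem exists_small_unc {ι : Type*} [LinearOrder ι] {D : ι → Set X}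
    (hD : ∀ i, MeasurableSet (D i))
    (P : Measure X) [IsFiniteMeasure P] {b : Set X} (hb : MeasurableSet b) {I : Set ι}
    (hI : I.Infinite) (hspec : ∀ i ∈ I, Spec P (gen (fun j : Iio i => D j)) b (D i)) {ρ : ℝ}
    (hρ : 0 < ρ) : ∃ i ∈ I, ∫ x, unc P (gen (fun j : Iio i => D j)) b x ^ 2 ∂P < ρ := by
  by_contra hcon
  push Not at hcon
  obtain ⟨N, hN⟩ := exists_nat_gt (P.real univ / ρ)
  rw [div_lt_iff₀ hρ] at hN
  obtain ⟨s, hsI, hcard⟩ := hI.exists_subset_card_eq (N + 1)
  set f := s.orderEmbOfFin hcard with hf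
  have hfI : ∀ k, f k ∈ I := fun k => hsI (Finset.orderEmbOfFin_mem s hcard k)
  have hkey : ∀ k : ℕ, ∀ hk : k < N + 1,
      er P (gen (fun j : Iio (f ⟨k, hk⟩) => D j)) b ≤ P.real univ - k * ρ := by
    intro k
    induction k with
    | zero =>
      intro hk
      simp only [Nat.cast_zero, zero_mul, sub_zero]
      exact er_le_univ (m := gen (fun j : Iio (f ⟨0, hk⟩) => D j)) (gen_le fun j => hD j) P hb
    | succ k ih =>
      intro hk
      have h1 := ih (by omega)
      have hlt : f ⟨k, by omega⟩ < f ⟨k + 1, hk⟩ := by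
        rw [OrderEmbedding.lt_iff_lt]
        exact Fin.mk_lt_mk.2 (Nat.lt_succ_self k)
      have h2 := er_drop hD P hb hlt (hspec _ (hfI _))
      have h3 := hcon _ (hfI ⟨k, by omega⟩)
      push_cast
      linarith
  have h1 := hkey N (by omega)
  have h2 := er_nonneg P (gen (fun j : Iio (f ⟨N, by omega⟩) => D j)) b
  linarith

theorem measureReal_symmDiff_eq {X : Type u} {m : MeasurableSpace X} [mX : MeasurableSpace X]
    (hm : m ≤ mX) (P : Measure X) [IsFiniteMeasure P] {b : Set X} (hb : MeasurableSet b) :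
    MeasurableSet[m] {x | 1 / 2 < cp P m b x} ∧
    P.real (b ∆ {x | 1 / 2 < cp P m b x}) = ∫ x, unc P m b x ∂P ∧
    ∀ δ : ℝ, 0 < δ → ∫ x, unc P m b x ∂P ≤ P.real univ * δ + δ⁻¹ * ∫ x, unc P m b x ^ 2 ∂P := by
  set g := cp P m b with hg
  set w := unc P m b with hw
  have hgm : StronglyMeasurable[m] g := sm_cp b
  have hgi : Integrable g P := integrable_cp b
  set G := {x | 1 / 2 < g x} with hG
  have hGm : MeasurableSet[m] G := sm_lt (sm_const m _) hgm
  have hGX := hm _ hGm
  have hgb := ae_cp_bd (P := P) hm hb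
  have hwX : AEStronglyMeasurable w P :=
    ((sm_min hgm ((sm_const m 1).sub hgm)).mono hm).aestronglyMeasurable
  have hwb : ∀ᵐ x ∂P, 0 ≤ w x ∧ w x ≤ 1 := by
    filter_upwards [hgb] with x hx
    refine ⟨le_min hx.1 (by linarith [hx.2]), (min_le_left _ _).trans hx.2⟩
  have hwi : Integrable w P := by
    refine integrable_of_bdd hm hwX 1 ?_
    filter_upwards [hwb] with x hx
    rw [Real.norm_of_nonneg hx.1]; exact hx.2
  have hw2 : Integrable (fun x => w x ^ 2) P := by
    refine integrable_of_bdd hm (hwX.pow 2) 1 ?_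
    filter_upwards [hwb] with x hx
    rw [norm_pow, Real.norm_of_nonneg hx.1]
    nlinarith [hx.1, hx.2]
  refine ⟨hGm, ?_, ?_⟩
  · have e1 : b ∆ G = (b ∩ Gᶜ) ∪ (bᶜ ∩ G) := by
      ext x; simp only [mem_symmDiff, mem_union, mem_inter_iff, mem_compl_iff]; tauto
    have hdisj : Disjoint (b ∩ Gᶜ) (bᶜ ∩ G) := by
      rw [Set.disjoint_left]; intro x h1 h2; exact h2.1 h1.1
    rw [e1, measureReal_union hdisj (hb.compl.inter hGX),
      ← setIntegral_cp (P := P) hm hb hGm.compl, ← setIntegral_cp (P := P) hm hb.compl hGm]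
    have hbc : cp P m bᶜ =ᵐ[P] fun x => 1 - g x := by
      have := cp_union (P := P) hm hb hb.compl disjoint_compl_right
      rw [union_compl_self, cp_univ hm] at this
      filter_upwards [this] with x hx
      simp only [Pi.add_apply] at hx
      rw [hg]; linarith
    rw [← integral_add_compl hGX hwi, add_comm]
    congr 1
    · apply setIntegral_congr_ae hGX
      filter_upwards [hbc] with x hx hxG
      rw [hx]
      have : 1 / 2 < g x := hxG
      change _ = min (g x) (1 - g x)
      rw [min_eq_right (by linarith)]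
    · apply setIntegral_congr_ae hGX.compl
      filter_upwards with x hxG
      have : ¬ 1 / 2 < g x := hxG
      change _ = min (g x) (1 - g x)
      rw [min_eq_left (by linarith [not_lt.1 this])]
  · intro δ hδpos
    have hle : ∫ x, w x ∂P ≤ ∫ x, (δ + δ⁻¹ * w x ^ 2) ∂P := by
      apply integral_mono hwi ((integrable_const _).add (hw2.const_mul _))
      intro x
      change w x ≤ δ + δ⁻¹ * w x ^ 2
      have h1 : δ * δ⁻¹ = 1 := mul_inv_cancel₀ hδpos.ne'
      have h2 : 0 < δ⁻¹ := inv_pos.2 hδpos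
      have h3 : 0 ≤ δ⁻¹ * (w x - δ) ^ 2 := by positivity
      have h4 : δ⁻¹ * (w x - δ) ^ 2
        = δ⁻¹ * w x ^ 2 - 2 * (δ * δ⁻¹) * w x + (δ * δ⁻¹) * δ := by ring
      rw [h4, h1] at h3
      nlinarith [sq_nonneg (w x), mul_nonneg h2.le (sq_nonneg (w x))]
    rw [integral_add (integrable_const _) (hw2.const_mul _), integral_const_mul] at hle
    simpa only [integral_const, smul_eq_mul] using hle

theorem exists_approx_stage {ι : Type*} [LinearOrder ι] {D : ι → Set X}
    (hD : ∀ i, MeasurableSet (D i))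
    (P : Measure X) [IsFiniteMeasure P] {b : Set X} (hb : MeasurableSet b) {I : Set ι}
    (hI : I.Infinite) (hspec : ∀ i ∈ I, Spec P (gen (fun j : Iio i => D j)) b (D i)) {ε : ℝ}
    (hε : 0 < ε) : ∃ G, MeasurableSet[gen D] G ∧ P.real (b ∆ G) < ε := by
  have hPnn : 0 ≤ P.real univ := measureReal_nonneg
  obtain ⟨δ, hδpos, hδ⟩ : ∃ δ : ℝ, 0 < δ ∧ P.real univ * δ ≤ ε / 2 := by
    refine ⟨ε / (2 * (P.real univ + 1)), by positivity, ?_⟩
    have : P.real univ * (ε / (2 * (P.real univ + 1)))
      = (ε / 2) * (P.real univ / (P.real univ + 1)) := by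
      field_simp
    rw [this]
    have h7 : P.real univ / (P.real univ + 1) ≤ 1 := by
      rw [div_le_one (by positivity)]; linarith
    nlinarith
  obtain ⟨i, hiI, hi⟩ := exists_small_unc hD P hb hI hspec (ρ := δ * (ε / 2)) (by positivity)
  obtain ⟨h1, h2, h3⟩ := measureReal_symmDiff_eq (m := gen (fun j : Iio i => D j))
    (gen_le fun j => hD j) P hb
  refine ⟨_, gen_Iio_le D i _ h1, ?_⟩
  rw [h2]
  have h4 := h3 δ hδpos
  have h5 : δ⁻¹ * ∫ x, unc P (gen (fun j : Iio i => D j)) b x ^ 2 ∂P < ε / 2 := by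
    rw [inv_mul_lt_iff₀ hδpos]; exact hi
  linarith

theorem exists_coding {μ : Measure X} {E : Set X} (ht : μ E ≠ ∞)
    {κ : Cardinal.{u}} (hκ : Cardinal.aleph0 ≤ κ)
    (hlow : ∀ A, MeasurableSet A → A ⊆ E → μ A ≠ 0 → κ ≤ density μ A)
    (hE : MeasurableSet E) (hup : density μ E ≤ κ) : Nonempty (Coding μ E κ.ord.ToType) := by
  set P := μ.restrict E with hP
  have hfin : IsFiniteMeasure P := ⟨by rw [hP, Measure.restrict_apply_univ]; exact ht.lt_top⟩
  have hdens : ∀ A, MeasurableSet A → P A ≠ 0 → κ ≤ density P A := by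
    intro A hA h0
    have h1 : P A = μ (A ∩ E) := Measure.restrict_apply hA
    have h2 : density P A = density μ (A ∩ E) := by
      unfold density
      rw [hP, Measure.restrict_restrict hA]
    rw [h2]
    exact hlow _ (hA.inter hE) inter_subset_right (by rwa [h1] at h0)
  obtain ⟨𝒜, h𝒜card, h𝒜⟩ := exists_density μ E
  have hne : 𝒜.Nonempty := h𝒜.nonempty
  have hsurj : ∃ t : κ.ord.ToType → 𝒜 × ULift.{u} ℕ, Function.Surjective t := by
    have hle : Cardinal.mk (𝒜 × ULift.{u} ℕ) ≤ Cardinal.mk κ.ord.ToType := by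
      rw [Cardinal.mk_ord_toType, Cardinal.mk_prod, Cardinal.lift_id, Cardinal.lift_id, h𝒜card,
        Cardinal.mk_uLift, Cardinal.mk_nat, Cardinal.lift_aleph0]
      exact (mul_le_mul' hup hκ).trans (Cardinal.mul_eq_self hκ).le
    obtain ⟨e⟩ := (Cardinal.le_def _ _).1 hle
    have : Nonempty (𝒜 × ULift.{u} ℕ) := ⟨⟨⟨hne.some, hne.some_mem⟩, ⟨0⟩⟩⟩
    exact ⟨Function.invFun e, Function.invFun_surjective e.injective⟩
  obtain ⟨t, htsurj⟩ := hsurj
  set b : κ.ord.ToType → Set X := fun i => ((t i).1 : Set X) with hb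
  have hbm : ∀ i, MeasurableSet (b i) := fun i => h𝒜.measurable _ (t i).1.2
  obtain ⟨D, hD, hspec⟩ := exists_family P hκ (fun i => by
      have := Cardinal.mk_Iio_lt i (by rw [Cardinal.mk_ord_toType, Ordinal.type_toType])
      rwa [Cardinal.mk_ord_toType] at this)
    hdens b hbm
  refine ⟨⟨code D, measurable_code hD, ?_, ?_⟩⟩
  · have := map_code_eq hD P (fun a => (hspec a).1)
    rw [this, hP, Measure.restrict_apply_univ]
  · intro A hA ε hε
    -- reduce to a real ε
    obtain ⟨ε', hε'pos, hε'⟩ : ∃ ε' : ℝ, 0 < ε' ∧ ENNReal.ofReal ε' ≤ ε := by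
      by_cases h : ε = ∞
      · exact ⟨1, one_pos, by rw [h]; exact le_top⟩
      · exact ⟨ε.toReal, ENNReal.toReal_pos hε.ne' h, (ENNReal.ofReal_toReal h).le⟩
    obtain ⟨B, hB, hAB⟩ := h𝒜.approx A hA (measure_ne_top P A) (ε' / 2) (half_pos hε'pos)
    set I : Set κ.ord.ToType := {i | b i = B} with hI
    have hIinf : I.Infinite := by
      have hinj : ∀ n : ℕ, ∃ i ∈ I, (t i).2 = ⟨n⟩ := by
        intro n
        obtain ⟨i, hi⟩ := htsurj (⟨B, hB⟩, ⟨n⟩)
        refine ⟨i, ?_, by rw [hi]⟩
        change ((t i).1 : Set X) = B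
        rw [hi]
      choose φ hφ1 hφ2 using hinj
      refine Set.infinite_of_injective_forall_mem (f := φ) ?_ hφ1
      intro n n' h
      have h1 := hφ2 n
      have h2 := hφ2 n'
      rw [h, h2] at h1
      exact (ULift.up_injective h1).symm
    obtain ⟨G, hG, hGlt⟩ := exists_approx_stage hD P (h𝒜.measurable B hB) hIinf
      (fun i hi => by
        have := hspec i
        rw [show b i = B from hi] at this
        exact this) (half_pos hε'pos)
    obtain ⟨S, hS, rfl⟩ := hG
    refine ⟨S, hS, lt_of_lt_of_le ?_ hε'⟩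
    have h1 : P (B ∆ (code D ⁻¹' S)) < ENNReal.ofReal (ε' / 2) := by
      rw [measureReal_def] at hGlt
      exact (ENNReal.lt_ofReal_iff_toReal_lt (measure_ne_top _ _)).2 hGlt
    calc P (A ∆ (code D ⁻¹' S)) ≤ P (A ∆ B) + P (B ∆ (code D ⁻¹' S)) :=
          measure_symmDiff_le _ _ _
      _ < ENNReal.ofReal (ε' / 2) + ENNReal.ofReal (ε' / 2) := ENNReal.add_lt_add hAB h1
      _ = ENNReal.ofReal ε' := by
          rw [← ENNReal.ofReal_add (half_pos hε'pos).le (half_pos hε'pos).le, add_halves]

end Pool.Agent.MP_fe632d_an
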