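import Pool.Agent.MP_fe632d_an.Maharam4

open MeasureTheory Set
open scoped ENNReal NNReal symmDiff

set_option linter.unusedSectionVars false

namespace Pool.Agent.MP_fe632d_an

universe u

variable {X : Type u} [mX : MeasurableSpace X] {μ : Measure X}

/-- atoms of a measure -/
def IsAtomOf (μ : Measure X) (B : Set X) : Prop :=
  MeasurableSet B ∧ μ B ≠ 0 ∧ ∀ C, MeasurableSet C → C ⊆ B → μ C = 0 ∨ μ (B \ C) = 0

/-- A set of finite density contains an atom. -/
theorem exists_atom_of_density_lt {E : Set X} (hE : MeasurableSet E) (h0 : μ E ≠ 0)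
    (ht : μ E ≠ ∞) (hd : density μ E < Cardinal.aleph0) : ∃ A ⊆ E, IsAtomOf μ A := by
  obtain ⟨𝒜, hc, hMD⟩ := exists_density μ E
  rw [← hc] at hd
  have hfin : 𝒜.Finite := Cardinal.lt_aleph0_iff_set_finite.1 hd
  have hfinE : IsFiniteMeasure (μ.restrict E) :=
    ⟨by rw [Measure.restrict_apply_univ]; exact ht.lt_top⟩
  set 𝒜' : Set (Set X) := {d ∈ 𝒜 | μ (d ∩ E) ≠ 0} with h𝒜'
  have hfin' : 𝒜'.Finite := hfin.subset (sep_subset _ _)
  have hne : 𝒜'.Nonempty := by
    have hpos : 0 < (μ E).toReal := ENNReal.toReal_pos h0 ht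
    obtain ⟨d, hd, hlt⟩ := hMD.approx E hE (measure_ne_top _ _) (μ E).toReal hpos
    refine ⟨d, hd, fun hz => ?_⟩
    rw [Measure.restrict_apply (hE.symmDiff (hMD.measurable d hd)),
      ENNReal.ofReal_toReal ht] at hlt
    have h1 : E ⊆ ((E ∆ d) ∩ E) ∪ (d ∩ E) := by
      intro x hx
      by_cases hxd : x ∈ d
      · exact Or.inr ⟨hxd, hx⟩
      · exact Or.inl ⟨Or.inl ⟨hx, hxd⟩, hx⟩
    have h2 := (measure_mono h1).trans (measure_union_le (μ := μ) _ _)
    rw [hz, add_zero] at h2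
    exact absurd hlt (not_lt.2 h2)
  obtain ⟨d, hd, hmin⟩ := hfin'.exists_minimalFor (fun d => μ (d ∩ E)) _ hne
  have hdm := hMD.measurable d hd.1
  have hAm : MeasurableSet (d ∩ E) := hdm.inter hE
  refine ⟨d ∩ E, inter_subset_right, hAm, hd.2, ?_⟩
  intro C hC hCA
  by_contra hcon
  push Not at hcon
  obtain ⟨hC0, hC1⟩ := hcon
  have hAt : μ (d ∩ E) ≠ ∞ := ne_top_of_le_ne_top ht (measure_mono inter_subset_right)
  have hCt : μ C ≠ ∞ := ne_top_of_le_ne_top hAt (measure_mono hCA)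
  have hsplit : μ C + μ ((d ∩ E) \ C) = μ (d ∩ E) := by
    rw [measure_sdiff hCA hC.nullMeasurableSet hCt]
    exact add_tsub_cancel_of_le (measure_mono hCA)
  set ε : ℝ := min (μ C).toReal (μ ((d ∩ E) \ C)).toReal with hε
  have hC1t : μ ((d ∩ E) \ C) ≠ ∞ := ne_top_of_le_ne_top hAt (measure_mono sdiff_subset)
  have hεpos : 0 < ε := lt_min (ENNReal.toReal_pos hC0 hCt) (ENNReal.toReal_pos hC1 hC1t)
  obtain ⟨d', hd', hlt⟩ := hMD.approx C hC (measure_ne_top _ _) ε hεpos
  have hd'm := hMD.measurable d' hd'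
  rw [Measure.restrict_apply (hC.symmDiff hd'm)] at hlt
  have hεC : ENNReal.ofReal ε ≤ μ C := by
    rw [← ENNReal.ofReal_toReal hCt]
    exact ENNReal.ofReal_le_ofReal (min_le_left _ _)
  have hεC' : ENNReal.ofReal ε ≤ μ ((d ∩ E) \ C) := by
    rw [← ENNReal.ofReal_toReal hC1t]
    exact ENNReal.ofReal_le_ofReal (min_le_right _ _)
  have hd'0 : μ (d' ∩ E) ≠ 0 := by
    intro hz
    have h1 : C ⊆ ((C ∆ d') ∩ E) ∪ (d' ∩ E) := by
      intro x hx
      have hxE : x ∈ E := (hCA hx).2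
      by_cases hxd : x ∈ d'
      · exact Or.inr ⟨hxd, hxE⟩
      · exact Or.inl ⟨Or.inl ⟨hx, hxd⟩, hxE⟩
    have h2 := (measure_mono h1).trans (measure_union_le (μ := μ) _ _)
    rw [hz, add_zero] at h2
    exact absurd (hlt.trans_le hεC) (not_lt.2 h2)
  have hlt2 : μ (d' ∩ E) < μ (d ∩ E) := by
    have h1 : d' ∩ E ⊆ ((C ∆ d') ∩ E) ∪ C := by
      intro x hx
      by_cases hxC : x ∈ C
      · exact Or.inr hxC
      · exact Or.inl ⟨Or.inr ⟨hx.1, hxC⟩, hx.2⟩
    calc μ (d' ∩ E) ≤ μ ((C ∆ d') ∩ E) + μ C :=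
          (measure_mono h1).trans (measure_union_le (μ := μ) _ _)
      _ < μ ((d ∩ E) \ C) + μ C := ENNReal.add_lt_add_right hCt (hlt.trans_le hεC')
      _ = μ (d ∩ E) := by rw [add_comm, hsplit]
  exact absurd (hmin ⟨hd', hd'0⟩ hlt2.le) (not_le.2 hlt2)

theorem rankOne_atom_exps {A B : Set X} (hA : MeasurableSet A) (hAt : μ A ≠ ∞)
    (hB : IsAtomOf μ B) (hBt : μ B ≠ ∞) :
    Exps (InnerProductSpace.rankOne ℂ (indicatorConstLp 2 hA hAt (1:ℂ))
      (indicatorConstLp 2 hB.1 hBt (1:ℂ))) ((μ A).toNNReal / (μ B).toNNReal) := by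
  intro ξ
  rw [InnerProductSpace.rankOne_apply]
  by_cases hz : inner ℂ (indicatorConstLp 2 hB.1 hBt (1:ℂ)) ξ = 0
  · rw [hz, zero_smul, support_measure_congr (Lp.coeFn_zero ℂ 2 μ)]
    simp
  · have h1 : μ (Function.support ((inner ℂ (indicatorConstLp 2 hB.1 hBt (1:ℂ)) ξ) •
        (indicatorConstLp 2 hA hAt (1:ℂ)) : Lp ℂ 2 μ)) ≤ μ A := by
      rw [support_measure_congr (Lp.coeFn_smul _ _)]
      have h2 : ∀ᵐ x ∂μ, ((inner ℂ (indicatorConstLp 2 hB.1 hBt (1:ℂ)) ξ) •
          ((indicatorConstLp 2 hA hAt (1:ℂ) : Lp ℂ 2 μ) : X → ℂ)) x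
          = A.indicator (fun _ => (inner ℂ (indicatorConstLp 2 hB.1 hBt (1:ℂ)) ξ : ℂ)) x := by
        filter_upwards [indicatorConstLp_coeFn (p := 2) (hs := hA) (hμs := hAt) (c := (1:ℂ))]
          with x hx
        rw [Pi.smul_apply, hx]
        by_cases hxA : x ∈ A <;> simp [hxA]
      rw [support_measure_congr h2]
      exact measure_mono Set.support_indicator_subset
    have h3 : μ B ≤ μ (Function.support ξ) := by
      have hm : MeasurableSet (Function.support ξ) :=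
        measurableSet_support (Lp.stronglyMeasurable ξ).measurable
      rcases hB.2.2 (B ∩ Function.support ξ) (hB.1.inter hm) inter_subset_left with h | h
      · exfalso
        apply hz
        rw [L2.inner_indicatorConstLp_one]
        rw [← integral_zero X ℂ (μ := μ.restrict B)]
        apply setIntegral_congr_ae hB.1
        have h4 : ∀ᵐ x ∂μ, x ∉ B ∩ Function.support ξ := measure_eq_zero_iff_ae_notMem.1 h
        filter_upwards [h4] with x hx hxB
        by_contra hcon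
        exact hx ⟨hxB, hcon⟩
      · have h5 : B ⊆ (B \ (B ∩ Function.support ξ)) ∪ Function.support ξ := by
          intro x hx
          by_cases hxs : x ∈ Function.support ξ
          · exact Or.inr hxs
          · exact Or.inl ⟨hx, fun h => hxs h.2⟩
        have h6 := (measure_mono h5).trans (measure_union_le (μ := μ) _ _)
        rwa [h, zero_add] at h6
    refine h1.trans ?_
    have hBne : (μ B).toNNReal ≠ 0 := by
      rw [Ne, ENNReal.toNNReal_eq_zero_iff]; push Not; exact ⟨hB.2.1, hBt⟩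
    rw [ENNReal.coe_div hBne, ENNReal.coe_toNNReal hAt, ENNReal.coe_toNNReal hBt]
    calc μ A = μ A / μ B * μ B := (ENNReal.div_mul_cancel hB.2.1 hBt).symm
      _ ≤ μ A / μ B * μ (Function.support ξ) := by gcongr

theorem adjoint_rankOne {H : Type*} [NormedAddCommGroup H] [InnerProductSpace ℂ H]
    [CompleteSpace H] (x y : H) :
    ContinuousLinearMap.adjoint (InnerProductSpace.rankOne ℂ x y)
      = InnerProductSpace.rankOne ℂ y x := by
  symm
  rw [ContinuousLinearMap.eq_adjoint_iff]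
  intro a b
  rw [InnerProductSpace.rankOne_apply, InnerProductSpace.rankOne_apply, inner_smul_left,
    inner_smul_right, inner_conj_symm, mul_comm]

theorem rankOne_atoms_mem {A B : Set X} (hA : IsAtomOf μ A) (hAt : μ A ≠ ∞)
    (hB : IsAtomOf μ B) (hBt : μ B ≠ ∞) :
    InnerProductSpace.rankOne ℂ (indicatorConstLp 2 hA.1 hAt (1:ℂ))
      (indicatorConstLp 2 hB.1 hBt (1:ℂ)) ∈ CStarU μ := by
  apply subset_closure
  refine ⟨max ((μ A).toNNReal / (μ B).toNNReal) ((μ B).toNNReal / (μ A).toNNReal), ?_, ?_⟩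
  · exact (rankOne_atom_exps hA.1 hAt hB hBt).mono (le_max_left _ _)
  · rw [adjoint_rankOne]
    exact (rankOne_atom_exps hB.1 hBt hA hAt).mono (le_max_right _ _)

theorem isCompactOperator_rankOne {H : Type*} [NormedAddCommGroup H] [InnerProductSpace ℂ H]
    (x y : H) : IsCompactOperator (InnerProductSpace.rankOne ℂ x y) := by
  rw [InnerProductSpace.rankOne_def']
  have h : IsCompactOperator (ContinuousLinearMap.toSpanSingleton ℂ x) :=
    isCompactOperator_of_locallyCompactSpace_rng (ContinuousLinearMap.toSpanSingleton ℂ x)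
  exact h.comp_clm (innerSL ℂ y)

theorem indicator_ne_zero {E : Set X} (hE : MeasurableSet E) (h0 : μ E ≠ 0) (ht : μ E ≠ ∞) :
    indicatorConstLp 2 hE ht (1:ℂ) ≠ 0 := by
  intro h
  have h1 : ‖indicatorConstLp (μ := μ) 2 hE ht (1:ℂ)‖ = 0 := by rw [h, norm_zero]
  rw [norm_indicatorConstLp (by norm_num) (by norm_num)] at h1
  simp only [norm_one, one_mul] at h1
  have h2 : 0 < μ.real E := ENNReal.toReal_pos h0 ht
  have h3 : 0 < μ.real E ^ (1 / (2:ℝ≥0∞).toReal) := Real.rpow_pos_of_pos h2 _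
  linarith

/-- If `L²` is nonzero there is a set of finite positive measure. -/
theorem exists_finite_pos (h : ∃ ξ : Lp ℂ 2 μ, ξ ≠ 0) :
    ∃ A, MeasurableSet A ∧ μ A ≠ 0 ∧ μ A ≠ ∞ := by
  by_contra hcon
  push Not at hcon
  obtain ⟨ξ, hξ⟩ := h
  apply hξ
  refine Lp.induction (p := 2) (μ := μ) (E := ℂ) (by simp) (fun g => g = 0) ?_ ?_
    (isClosed_singleton) ξ
  · intro c s hs hμs
    have h0 : μ s = 0 := by
      by_contra h0
      exact hμs.ne (hcon s hs h0)
    rw [Lp.simpleFunc.coe_indicatorConst]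
    apply Lp.ext
    have h4 : ∀ᵐ x ∂μ, x ∉ s := measure_eq_zero_iff_ae_notMem.1 h0
    filter_upwards [indicatorConstLp_coeFn (p := 2) (hs := hs) (hμs := hμs.ne) (c := c), h4,
      Lp.coeFn_zero ℂ 2 μ] with x h1 h2 h3
    rw [h1, h3, Set.indicator_of_notMem h2]; rfl
  · intro f g hf hg _ h1 h2
    change _ + _ = _
    rw [h1, h2, add_zero]

/-- Q1: `C*_u` contains a nonzero compact operator as soon as `L²` is nonzero. -/
theorem exists_compact (h : ∃ ξ : Lp ℂ 2 μ, ξ ≠ 0) :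
    ∃ k ∈ CStarU μ, IsCompactOperator k ∧ k ≠ 0 := by
  obtain ⟨A0, hA0, hA01, hA02⟩ := exists_finite_pos h
  set s : Set Cardinal.{u} := {c | ∃ A, MeasurableSet A ∧ μ A ≠ 0 ∧ μ A ≠ ∞ ∧ density μ A = c}
    with hs
  have hne : s.Nonempty := ⟨_, A0, hA0, hA01, hA02, rfl⟩
  obtain ⟨E, hE, h0, ht, hEd⟩ := csInf_mem hne
  have hmin : ∀ A, MeasurableSet A → μ A ≠ 0 → μ A ≠ ∞ → density μ E ≤ density μ A := by
    intro A hA hA0 hAt
    rw [hEd]
    exact csInf_le' ⟨A, hA, hA0, hAt, rfl⟩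
  rcases lt_or_ge (density μ E) Cardinal.aleph0 with hlt | hge
  · obtain ⟨A, hAE, hA⟩ := exists_atom_of_density_lt hE h0 ht hlt
    have hAt : μ A ≠ ∞ := ne_top_of_le_ne_top ht (measure_mono hAE)
    exact ⟨_, rankOne_atoms_mem hA hAt hA hAt, isCompactOperator_rankOne _ _,
      InnerProductSpace.rankOne_ne_zero (indicator_ne_zero hA.1 hA.2.1 hAt)
        (indicator_ne_zero hA.1 hA.2.1 hAt)⟩
  · obtain ⟨C⟩ := exists_coding (μ := μ) (E := E) ht hge
      (fun A hA hAE hA0 => hmin A hA hA0 (ne_top_of_le_ne_top ht (measure_mono hAE))) hE le_rfl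
    have hinf : Infinite (density μ E).ord.ToType := by
      rw [Cardinal.infinite_iff, Cardinal.mk_ord_toType]; exact hge
    exact ⟨_, rankOne_mem_of_coding C C hE h0 ht hE h0 ht, isCompactOperator_rankOne _ _,
      InnerProductSpace.rankOne_ne_zero (indicator_ne_zero hE h0 ht)
        (indicator_ne_zero hE h0 ht)⟩

end Pool.Agent.MP_fe632d_an
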