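import Pool.Agent.MP_fe632d_an.Main1

open MeasureTheory Set
open scoped ENNReal NNReal symmDiff

set_option linter.unusedSectionVars false

namespace Pool.Agent.MP_fe632d_an

universe u

/-! ### Compact operators and rank-one operators -/

/-- A closed subspace of operators containing all rank-one operators contains all compact
operators. -/
theorem compact_mem_of_rankOne {H : Type*} [NormedAddCommGroup H] [InnerProductSpace ℂ H]
    [CompleteSpace H] (S : Submodule ℂ (H →L[ℂ] H)) (hS : IsClosed (S : Set (H →L[ℂ] H)))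
    (h : ∀ x y, InnerProductSpace.rankOne ℂ x y ∈ S) (K : H →L[ℂ] H)
    (hK : IsCompactOperator K) : K ∈ S := by
  have hcl : K ∈ closure (S : Set (H →L[ℂ] H)) := by
    rw [Metric.mem_closure_iff]
    intro ε hε
    have hcomp := IsCompactOperator.isCompact_closure_image_closedBall (f := K.toLinearMap) hK 1
    obtain ⟨t, -, htfin, hcov⟩ := exists_finite_cover_balls_of_isCompact_closure hcomp
      (half_pos hε)
    set U : Submodule ℂ H := Submodule.span ℂ t with hU
    have hUfin : FiniteDimensional ℂ U := FiniteDimensional.span_of_finite ℂ htfin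
    refine ⟨U.starProjection ∘L K, ?_, ?_⟩
    · have hb := (stdOrthonormalBasis ℂ U).starProjection_eq_sum_rankOne
      change U.starProjection ∘L K ∈ S
      rw [hb]
      have : (∑ i, InnerProductSpace.rankOne ℂ ((stdOrthonormalBasis ℂ U) i : H)
          ((stdOrthonormalBasis ℂ U) i : H)) ∘L K
          = ∑ i, InnerProductSpace.rankOne ℂ ((stdOrthonormalBasis ℂ U) i : H)
          (ContinuousLinearMap.adjoint K ((stdOrthonormalBasis ℂ U) i : H)) := by
        ext1 x
        rw [ContinuousLinearMap.comp_apply, sum_apply, sum_apply]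
        refine Finset.sum_congr rfl fun i _ => ?_
        rw [InnerProductSpace.rankOne_apply, InnerProductSpace.rankOne_apply,
          ContinuousLinearMap.adjoint_inner_left]
      rw [this]
      exact Submodule.sum_mem _ fun i _ => h _ _
    · rw [dist_eq_norm]
      refine lt_of_le_of_lt ?_ (half_lt_self hε)
      refine ContinuousLinearMap.opNorm_le_of_unit_norm (half_pos hε).le fun x hx => ?_
      have hKx : K x ∈ K '' Metric.closedBall 0 1 := ⟨x, by simp [hx], rfl⟩
      have := hcov hKx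
      simp only [mem_iUnion, Metric.mem_ball] at this
      obtain ⟨y, hy, hxy⟩ := this
      have hyU : y ∈ U := Submodule.subset_span hy
      have h1 : ‖K x - U.starProjection (K x)‖ ≤ ‖K x - y‖ := by
        rw [Submodule.starProjection_minimal]
        exact ciInf_le ⟨0, by rintro _ ⟨z, rfl⟩; exact norm_nonneg _⟩ (⟨y, hyU⟩ : U)
      change ‖K x - U.starProjection (K x)‖ ≤ _
      rw [dist_eq_norm] at hxy
      linarith
  rwa [hS.closure_eq] at hcl

/-- Rank-one operators built from a total family suffice. -/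
theorem rankOne_mem_of_total {H : Type*} [NormedAddCommGroup H] [InnerProductSpace ℂ H]
    [CompleteSpace H] (S : Submodule ℂ (H →L[ℂ] H)) (hS : IsClosed (S : Set (H →L[ℂ] H)))
    (G : Set H) (hG : (Submodule.span ℂ G).topologicalClosure = ⊤)
    (h : ∀ x ∈ G, ∀ y ∈ G, InnerProductSpace.rankOne ℂ x y ∈ S) (x y : H) :
    InnerProductSpace.rankOne ℂ x y ∈ S := by
  have h1 : ∀ y ∈ G, ∀ x, InnerProductSpace.rankOne ℂ x y ∈ S := by
    intro y hy x
    have hc : Continuous fun x : H => InnerProductSpace.rankOne ℂ x y :=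
      ((InnerProductSpace.rankOne ℂ (E := H) (F := H)).flip y).continuous
    have hx : x ∈ closure ((Submodule.span ℂ G : Submodule ℂ H) : Set H) := by
      rw [← Submodule.topologicalClosure_coe, hG]; trivial
    have hmap : MapsTo (fun x : H => InnerProductSpace.rankOne ℂ x y)
        ((Submodule.span ℂ G : Submodule ℂ H) : Set H) (S : Set (H →L[ℂ] H)) := by
      intro z hz
      change InnerProductSpace.rankOne ℂ z y ∈ S
      induction hz using Submodule.span_induction with
      | mem z hz => exact h z hz y hy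
      | zero => rw [map_zero]; exact S.zero_mem
      | add a b _ _ ha hb => rw [map_add]; exact S.add_mem ha hb
      | smul c a _ ha => rw [map_smul]; exact S.smul_mem c ha
    have := map_mem_closure hc hx hmap
    rwa [hS.closure_eq] at this
  have hc : Continuous fun y : H => InnerProductSpace.rankOne ℂ x y :=
    (InnerProductSpace.rankOne ℂ (E := H) (F := H) x).continuous
  have hy : y ∈ closure ((Submodule.span ℂ G : Submodule ℂ H) : Set H) := by
    rw [← Submodule.topologicalClosure_coe, hG]; trivial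
  have hmap : MapsTo (fun y : H => InnerProductSpace.rankOne ℂ x y)
      ((Submodule.span ℂ G : Submodule ℂ H) : Set H) (S : Set (H →L[ℂ] H)) := by
    intro z hz
    change InnerProductSpace.rankOne ℂ x z ∈ S
    induction hz using Submodule.span_induction with
    | mem z hz => exact h1 z hz x
    | zero => rw [map_zero]; exact S.zero_mem
    | add a b _ _ ha hb => rw [map_add]; exact S.add_mem ha hb
    | smul c a _ ha => rw [map_smulₛₗ]; exact S.smul_mem _ ha
  have := map_mem_closure hc hy hmap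
  rwa [hS.closure_eq] at this

variable {X : Type u} [mX : MeasurableSpace X] {μ : Measure X}

/-- indicator functions of sets of finite measure are total. -/
theorem closure_eq_top_of_indicator (T : Submodule ℂ (Lp ℂ 2 μ))
    (hT : IsClosed (T : Set (Lp ℂ 2 μ)))
    (h : ∀ s (hs : MeasurableSet s) (hμs : μ s ≠ ∞), indicatorConstLp 2 hs hμs (1:ℂ) ∈ T) :
    T = ⊤ := by
  rw [eq_top_iff]
  intro f _
  refine Lp.induction (p := 2) (μ := μ) (E := ℂ) (by simp) (fun g => g ∈ T) ?_ ?_ hT f
  · intro c s hs hμs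
    have : (Lp.simpleFunc.indicatorConst 2 hs hμs.ne c : Lp ℂ 2 μ)
        = c • indicatorConstLp 2 hs hμs.ne (1:ℂ) := by
      rw [Lp.simpleFunc.coe_indicatorConst]
      apply Lp.ext
      filter_upwards [indicatorConstLp_coeFn (p := 2) (hs := hs)
          (hμs := hμs.ne) (c := c),
        indicatorConstLp_coeFn (p := 2) (hs := hs)
          (hμs := hμs.ne) (c := (1:ℂ)),
        Lp.coeFn_smul c (indicatorConstLp 2 hs hμs.ne (1:ℂ))] with x h1 h2 h3
      rw [h1, h3, Pi.smul_apply, h2]
      by_cases hx : x ∈ s <;> simp [hx]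
    rw [this]
    exact T.smul_mem _ (h s hs hμs.ne)
  · intro f g hf hg _ h1 h2
    exact T.add_mem h1 h2

theorem indicator_zero {E : Set X} (hE : MeasurableSet E) (h0 : μ E = 0) (ht : μ E ≠ ∞) :
    indicatorConstLp 2 hE ht (1:ℂ) = 0 := by
  apply Lp.ext
  have h4 : ∀ᵐ x ∂μ, x ∉ E := measure_eq_zero_iff_ae_notMem.1 h0
  filter_upwards [indicatorConstLp_coeFn (p := 2) (hs := hE) (hμs := ht) (c := (1:ℂ)), h4,
    Lp.coeFn_zero ℂ 2 μ] with x h1 h2 h3
  rw [h1, h3, Set.indicator_of_notMem h2]; rfl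

/-- Sufficient condition: indicators of sets of finite positive measure. -/
theorem all_compact_of_indicator
    (h : ∀ E F (hE : MeasurableSet E) (hF : MeasurableSet F) (_ : μ E ≠ 0) (_ : μ F ≠ 0)
      (hEt : μ E ≠ ∞) (hFt : μ F ≠ ∞),
      InnerProductSpace.rankOne ℂ (indicatorConstLp 2 hE hEt (1:ℂ))
        (indicatorConstLp 2 hF hFt (1:ℂ)) ∈ CStarU μ)
    (k : Lp ℂ 2 μ →L[ℂ] Lp ℂ 2 μ) (hk : IsCompactOperator k) : k ∈ CStarU μ := by
  rw [mem_cStarU_iff]
  refine compact_mem_of_rankOne _ (Submodule.isClosed_topologicalClosure _) ?_ k hk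
  refine rankOne_mem_of_total _ (Submodule.isClosed_topologicalClosure _)
    {f | ∃ (s : Set X) (hs : MeasurableSet s) (hμs : μ s ≠ ∞), f = indicatorConstLp 2 hs hμs (1:ℂ)}
    ?_ ?_
  · apply closure_eq_top_of_indicator _ (Submodule.isClosed_topologicalClosure _)
    intro s hs hμs
    exact Submodule.le_topologicalClosure _ (Submodule.subset_span ⟨s, hs, hμs, rfl⟩)
  · rintro _ ⟨E, hE, hEt, rfl⟩ _ ⟨F, hF, hFt, rfl⟩
    by_cases hE0 : μ E = 0
    · rw [indicator_zero hE hE0 hEt, map_zero]; exact Submodule.zero_mem _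
    by_cases hF0 : μ F = 0
    · rw [indicator_zero hF hF0 hFt, map_zero]; exact Submodule.zero_mem _
    rw [← mem_cStarU_iff]
    exact h E F hE hF hE0 hF0 hEt hFt

/-- The homogeneous case. -/
theorem all_compact_of_homogeneous {κ : Cardinal.{u}} (hκ : Cardinal.aleph0 ≤ κ)
    (h : ∀ A, MeasurableSet A → μ A ≠ 0 → μ A ≠ ∞ → density μ A = κ)
    (k : Lp ℂ 2 μ →L[ℂ] Lp ℂ 2 μ) (hk : IsCompactOperator k) : k ∈ CStarU μ := by
  refine all_compact_of_indicator ?_ k hk
  intro E F hE hF hE0 hF0 hEt hFt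
  obtain ⟨C⟩ := exists_coding (μ := μ) (E := E) hEt hκ
    (fun A hA hAE hA0 => (h A hA hA0 (ne_top_of_le_ne_top hEt (measure_mono hAE))).ge) hE
    (h E hE hE0 hEt).le
  obtain ⟨D⟩ := exists_coding (μ := μ) (E := F) hFt hκ
    (fun A hA hAE hA0 => (h A hA hA0 (ne_top_of_le_ne_top hFt (measure_mono hAE))).ge) hF
    (h F hF hF0 hFt).le
  have hinf : Infinite κ.ord.ToType := by
    rw [Cardinal.infinite_iff, Cardinal.mk_ord_toType]; exact hκ
  exact rankOne_mem_of_coding C D hE hE0 hEt hF hF0 hFt

/-- `μ` is purely atomic: every set of finite positive measure contains an atom. -/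
def PurelyAtomic (μ : Measure X) : Prop :=
  ∀ A, MeasurableSet A → μ A ≠ 0 → μ A ≠ ∞ → ∃ B ⊆ A, IsAtomOf μ B

/-- increasing unions and indicators -/
theorem tendsto_indicator_iUnion {f : ℕ → Set X} (hf : ∀ n, MeasurableSet (f n))
    (hmono : Monotone f) (ht : μ (⋃ n, f n) ≠ ∞) (hft : ∀ n, μ (f n) ≠ ∞) :
    Filter.Tendsto (fun n => indicatorConstLp (μ := μ) 2 (hf n) (hft n) (1:ℂ)) Filter.atTop
      (nhds (indicatorConstLp 2 (MeasurableSet.iUnion hf) ht (1:ℂ))) := by
  apply tendsto_indicatorConstLp_set (by simp)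
  have hsub : ∀ n, (f n) ∆ (⋃ i, f i) = (⋃ i, f i) \ f n := by
    intro n
    rw [Set.symmDiff_def, Set.sdiff_eq_empty.2 (subset_iUnion f n), Set.empty_union]
  simp only [hsub]
  have hanti : Antitone fun n => (⋃ i, f i) \ f n := by
    intro m n hmn
    exact Set.sdiff_subset_sdiff_right (hmono hmn)
  have hlim := tendsto_measure_iInter_atTop (μ := μ) (s := fun n => (⋃ i, f i) \ f n)
    (fun n => ((MeasurableSet.iUnion hf).diff (hf n)).nullMeasurableSet) hanti
    ⟨0, ne_top_of_le_ne_top ht (measure_mono sdiff_subset)⟩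
  have hemp : (⋂ n, (⋃ i, f i) \ f n) = ∅ := by
    ext x
    simp only [mem_iInter, mem_sdiff, mem_iUnion, mem_empty_iff_false,
      iff_false, not_forall]
    by_cases hx : ∃ i, x ∈ f i
    · obtain ⟨i, hi⟩ := hx
      exact ⟨i, fun h => h.2 hi⟩
    · exact ⟨0, fun h => hx h.1⟩
  rw [hemp, measure_empty] at hlim
  exact hlim

theorem indicator_union {A B : Set X} (hA : MeasurableSet A) (hB : MeasurableSet B)
    (hAt : μ A ≠ ∞) (hBt : μ B ≠ ∞) (hd : Disjoint A B) (ht : μ (A ∪ B) ≠ ∞) :
    indicatorConstLp 2 (hA.union hB) ht (1:ℂ)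
      = indicatorConstLp 2 hA hAt (1:ℂ) + indicatorConstLp 2 hB hBt (1:ℂ) :=
  indicatorConstLp_disjoint_union hA hB hAt hBt hd 1

/-- The purely atomic case. -/
theorem all_compact_of_atomic (h : PurelyAtomic μ)
    (k : Lp ℂ 2 μ →L[ℂ] Lp ℂ 2 μ) (hk : IsCompactOperator k) : k ∈ CStarU μ := by
  rw [mem_cStarU_iff]
  refine compact_mem_of_rankOne _ (Submodule.isClosed_topologicalClosure _) ?_ k hk
  refine rankOne_mem_of_total _ (Submodule.isClosed_topologicalClosure _)
    {f | ∃ (s : Set X) (hs : IsAtomOf μ s) (hμs : μ s ≠ ∞),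
      f = indicatorConstLp 2 hs.1 hμs (1:ℂ)} ?_ ?_
  · set T := (Submodule.span ℂ {f | ∃ (s : Set X) (hs : IsAtomOf μ s) (hμs : μ s ≠ ∞),
      f = indicatorConstLp 2 hs.1 hμs (1:ℂ)}).topologicalClosure with hT
    have hTc : IsClosed (T : Set (Lp ℂ 2 μ)) := Submodule.isClosed_topologicalClosure _
    apply closure_eq_top_of_indicator _ hTc
    intro E hE hEt
    have hfinE : IsFiniteMeasure (μ.restrict E) :=
      ⟨by rw [Measure.restrict_apply_univ]; exact hEt.lt_top⟩
    obtain ⟨D, ⟨hD, hDt, hDE, hDT⟩, hmax⟩ := exists_maximal (μ.restrict E)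
      (fun D => ∃ (hD : MeasurableSet D) (hDt : μ D ≠ ∞), D ⊆ E ∧
        indicatorConstLp 2 hD hDt (1:ℂ) ∈ T)
      ⟨MeasurableSet.empty, by simp, empty_subset _, by
        rw [indicator_zero MeasurableSet.empty (by simp)]; exact T.zero_mem⟩
      (by
        intro f hmono hf
        choose hfm hft hfE hfT using hf
        have hUE : (⋃ n, f n) ⊆ E := iUnion_subset hfE
        have hUt : μ (⋃ n, f n) ≠ ∞ := ne_top_of_le_ne_top hEt (measure_mono hUE)
        refine ⟨MeasurableSet.iUnion hfm, hUt, hUE, ?_⟩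
        exact hTc.mem_of_tendsto (tendsto_indicator_iUnion hfm hmono hUt hft)
          (Filter.Eventually.of_forall hfT))
    by_cases h0 : μ (E \ D) = 0
    · have heq : indicatorConstLp 2 hE hEt (1:ℂ) = indicatorConstLp 2 hD hDt (1:ℂ) := by
        apply Lp.ext
        have h4 : ∀ᵐ x ∂μ, x ∉ E \ D := measure_eq_zero_iff_ae_notMem.1 h0
        filter_upwards [indicatorConstLp_coeFn (p := 2) (hs := hE) (hμs := hEt) (c := (1:ℂ)),
          indicatorConstLp_coeFn (p := 2) (hs := hD) (hμs := hDt) (c := (1:ℂ)), h4]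
          with x h1 h2 h3
        rw [h1, h2]
        by_cases hx : x ∈ D
        · rw [Set.indicator_of_mem hx, Set.indicator_of_mem (hDE hx)]
        · have hxE : x ∉ E := fun hh => h3 ⟨hh, hx⟩
          rw [Set.indicator_of_notMem hx, Set.indicator_of_notMem hxE]
      rw [heq]; exact hDT
    · exfalso
      have hEDt : μ (E \ D) ≠ ∞ := ne_top_of_le_ne_top hEt (measure_mono sdiff_subset)
      obtain ⟨B, hBE, hB⟩ := h (E \ D) (hE.diff hD) h0 hEDt
      have hBt : μ B ≠ ∞ := ne_top_of_le_ne_top hEDt (measure_mono hBE)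
      have hdisj : Disjoint D B := by
        rw [Set.disjoint_left]; intro x h1 h2; exact (hBE h2).2 h1
      have hDBE : D ∪ B ⊆ E := union_subset hDE (hBE.trans sdiff_subset)
      have hDBt : μ (D ∪ B) ≠ ∞ := ne_top_of_le_ne_top hEt (measure_mono hDBE)
      have h1 := hmax (D ∪ B) ⟨hD.union hB.1, hDBt, hDBE, by
        rw [indicator_union hD hB.1 hDt hBt hdisj hDBt]
        refine T.add_mem hDT ?_
        exact Submodule.le_topologicalClosure _ (Submodule.subset_span ⟨B, hB, hBt, rfl⟩)⟩
        subset_union_left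
      rw [measureReal_union hdisj hB.1] at h1
      have h2 : 0 < (μ.restrict E).real B := by
        rw [measureReal_def, Measure.restrict_apply hB.1,
          inter_eq_left.2 (hBE.trans sdiff_subset)]
        exact ENNReal.toReal_pos hB.2.1 hBt
      linarith
  · rintro _ ⟨A, hA, hAt, rfl⟩ _ ⟨B, hB, hBt, rfl⟩
    rw [← mem_cStarU_iff]
    exact rankOne_atoms_mem hA hAt hB hBt

end Pool.Agent.MP_fe632d_an
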