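import Pool.Agent.MP_fe632d_an.Main2

open MeasureTheory Set
open scoped ENNReal NNReal symmDiff

set_option linter.unusedSectionVars false

namespace Pool.Agent.MP_fe632d_an

universe u

variable {X : Type u} [mX : MeasurableSpace X] {μ : Measure X}

/-- Sets without atoms contain subsets of arbitrarily small positive measure. -/
theorem exists_subset_small {A : Set X} (hA : MeasurableSet A) (h0 : μ A ≠ 0) (ht : μ A ≠ ∞)
    (hna : ∀ B ⊆ A, ¬ IsAtomOf μ B) (n : ℕ) :
    ∃ C ⊆ A, MeasurableSet C ∧ μ C ≠ 0 ∧ μ C ≤ 2⁻¹ ^ n * μ A := by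
  induction n with
  | zero => exact ⟨A, subset_rfl, hA, h0, by simp⟩
  | succ n ih =>
    obtain ⟨C, hCA, hC, hC0, hle⟩ := ih
    have hCt : μ C ≠ ∞ := ne_top_of_le_ne_top ht (measure_mono hCA)
    have hnat := hna C hCA
    unfold IsAtomOf at hnat
    push Not at hnat
    obtain ⟨D, hD, hDC, hD0, hD1⟩ := hnat hC hC0
    have hDt : μ D ≠ ∞ := ne_top_of_le_ne_top hCt (measure_mono hDC)
    have hsum : μ D + μ (C \ D) = μ C := by
      rw [measure_sdiff hDC hD.nullMeasurableSet hDt]
      exact add_tsub_cancel_of_le (measure_mono hDC)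
    have hhalf : ∀ a b : ℝ≥0∞, a ≤ b → a + b = μ C → a ≤ 2⁻¹ ^ (n+1) * μ A := by
      intro a b hab hs
      have h1 : 2 * a ≤ μ C := by rw [← hs, two_mul]; gcongr
      have h2 : a = 2⁻¹ * (2 * a) := by
        rw [← mul_assoc, ENNReal.inv_mul_cancel (by simp) (by simp), one_mul]
      rw [h2, pow_succ', mul_assoc]
      exact mul_le_mul' le_rfl (h1.trans hle)
    rcases le_total (μ D) (μ (C \ D)) with h | h
    · exact ⟨D, hDC.trans hCA, hD, hD0, hhalf _ _ h hsum⟩
    · exact ⟨C \ D, sdiff_subset.trans hCA, hC.diff hD, hD1, hhalf _ _ h (by rw [add_comm]; exact hsum)⟩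

/-- A continuous functional vanishing on the operators of finite expansion vanishes on `C*_u`. -/
theorem inner_eq_zero_of_mem {x y : Lp ℂ 2 μ}
    (h : ∀ a : Lp ℂ 2 μ →L[ℂ] Lp ℂ 2 μ, (∃ lam, HasSupportExpansion μ a lam) →
      inner ℂ x (a y) = 0) {a : Lp ℂ 2 μ →L[ℂ] Lp ℂ 2 μ} (ha : a ∈ CStarU μ) :
    inner ℂ x (a y) = 0 := by
  have hcont : Continuous fun a : Lp ℂ 2 μ →L[ℂ] Lp ℂ 2 μ => inner ℂ x (a y) := by
    have h1 : Continuous fun a : Lp ℂ 2 μ →L[ℂ] Lp ℂ 2 μ => a y :=
      continuous_id.clm_apply continuous_const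
    exact continuous_const.inner h1
  have hcl : IsClosed {a : Lp ℂ 2 μ →L[ℂ] Lp ℂ 2 μ | inner ℂ x (a y) = 0} :=
    isClosed_eq hcont continuous_const
  exact closure_minimal (s := {a | ∃ lam : ℝ≥0, HasSupportExpansion μ a lam})
    (fun a ha => h a ha) hcl ha

theorem rankOne_not_mem {E F : Set X} (hE : MeasurableSet E) (hF : MeasurableSet F)
    (hE0 : μ E ≠ 0) (hF0 : μ F ≠ 0) (hEt : μ E ≠ ∞) (hFt : μ F ≠ ∞)
    (h : ∀ a : Lp ℂ 2 μ →L[ℂ] Lp ℂ 2 μ, (∃ lam, HasSupportExpansion μ a lam) →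
      inner ℂ (indicatorConstLp 2 hE hEt (1:ℂ)) (a (indicatorConstLp 2 hF hFt (1:ℂ))) = 0) :
    InnerProductSpace.rankOne ℂ (indicatorConstLp 2 hE hEt (1:ℂ))
      (indicatorConstLp 2 hF hFt (1:ℂ)) ∉ CStarU μ := by
  intro hmem
  have h1 := inner_eq_zero_of_mem h hmem
  rw [InnerProductSpace.rankOne_apply, inner_smul_right] at h1
  rcases mul_eq_zero.1 h1 with h2 | h2
  · exact indicator_ne_zero hF hF0 hFt (inner_self_eq_zero.1 h2)
  · exact indicator_ne_zero hE hE0 hEt (inner_self_eq_zero.1 h2)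

theorem measure_support_indicator {C : Set X} (hC : MeasurableSet C) (f : Lp ℂ 2 μ) :
    μ (Function.support ((Coding.memLp_indicator f hC).toLp (C.indicator f) : Lp ℂ 2 μ))
      ≤ μ C := by
  rw [support_measure_congr (MemLp.coeFn_toLp (Coding.memLp_indicator f hC))]
  exact measure_mono Set.support_indicator_subset

/-- atoms against sets without atoms -/
theorem inner_atom_eq_zero {A F : Set X} (hA : IsAtomOf μ A) (hAt : μ A ≠ ∞)
    (hF : MeasurableSet F) (hFt : μ F ≠ ∞) (hna : ∀ B ⊆ F, ¬ IsAtomOf μ B)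
    (a : Lp ℂ 2 μ →L[ℂ] Lp ℂ 2 μ) (ha : ∃ lam, HasSupportExpansion μ a lam) :
    inner ℂ (indicatorConstLp 2 hA.1 hAt (1:ℂ)) (a (indicatorConstLp 2 hF hFt (1:ℂ))) = 0 := by
  obtain ⟨lam, hlam, -⟩ := ha
  set η : Lp ℂ 2 μ := ContinuousLinearMap.adjoint a (indicatorConstLp 2 hA.1 hAt (1:ℂ)) with hη
  have hfinF : IsFiniteMeasure (μ.restrict F) :=
    ⟨by rw [Measure.restrict_apply_univ]; exact hFt.lt_top⟩
  -- small sets carry nothing
  have hsmall : ∀ C, MeasurableSet C → (lam : ℝ≥0∞) * μ C < μ A →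
      ∀ᵐ x ∂μ, x ∈ C → η x = 0 := by
    intro C hC hlt
    set g : Lp ℂ 2 μ := (Coding.memLp_indicator η hC).toLp (C.indicator η) with hg
    have hgc := MemLp.coeFn_toLp (Coding.memLp_indicator η hC)
    have hηg : inner ℂ η g = inner ℂ g g := by
      rw [L2.inner_def, L2.inner_def]
      apply integral_congr_ae
      filter_upwards [hgc] with x hx
      rw [← hg] at hx
      rw [hx]
      by_cases hxC : x ∈ C
      · rw [Set.indicator_of_mem hxC]
      · rw [Set.indicator_of_notMem hxC]; simp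
    have hag : inner ℂ (indicatorConstLp 2 hA.1 hAt (1:ℂ)) (a g) = inner ℂ g g := by
      rw [← hηg, hη, ContinuousLinearMap.adjoint_inner_left]
    have hg0 : g = 0 := by
      by_contra hgne
      have hne : inner ℂ (indicatorConstLp 2 hA.1 hAt (1:ℂ)) (a g) ≠ 0 := by
        rw [hag]; exact fun h => hgne (inner_self_eq_zero.1 h)
      have hm : MeasurableSet (Function.support (a g)) :=
        measurableSet_support (Lp.stronglyMeasurable (a g)).measurable
      have h3 : μ A ≤ μ (Function.support (a g)) := by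
        rcases hA.2.2 (A ∩ Function.support (a g)) (hA.1.inter hm) inter_subset_left with h | h
        · exfalso
          apply hne
          rw [L2.inner_indicatorConstLp_one]
          rw [← integral_zero X ℂ (μ := μ.restrict A)]
          apply setIntegral_congr_ae hA.1
          have h4 : ∀ᵐ x ∂μ, x ∉ A ∩ Function.support (a g) :=
            measure_eq_zero_iff_ae_notMem.1 h
          filter_upwards [h4] with x hx hxB
          by_contra hcon
          exact hx ⟨hxB, hcon⟩
        · have h5 : A ⊆ (A \ (A ∩ Function.support (a g))) ∪ Function.support (a g) := by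
            intro x hx
            by_cases hxs : x ∈ Function.support (a g)
            · exact Or.inr hxs
            · exact Or.inl ⟨hx, fun h => hxs h.2⟩
          have h6 := (measure_mono h5).trans (measure_union_le (μ := μ) _ _)
          rwa [h, zero_add] at h6
      have h4 : μ (Function.support (a g)) ≤ lam * μ C :=
        (hlam g).trans (mul_le_mul' le_rfl (measure_support_indicator hC η))
      exact absurd (h3.trans h4) (not_le.2 hlt)
    have hgz : (g : X → ℂ) =ᵐ[μ] 0 := by rw [hg0]; exact Lp.coeFn_zero ℂ 2 μ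
    filter_upwards [hgc, hgz] with x h1 h2 hxC
    rw [← hg, h2, Set.indicator_of_mem hxC] at h1
    exact h1.symm
  obtain ⟨D, ⟨hD, hDF, hDη⟩, hmax⟩ := exists_maximal (μ.restrict F)
    (fun D => MeasurableSet D ∧ D ⊆ F ∧ ∀ᵐ x ∂μ, x ∈ D → η x = 0)
    ⟨MeasurableSet.empty, empty_subset _, Filter.Eventually.of_forall fun x hx => by simp at hx⟩
    (by
      intro f _ hf
      refine ⟨MeasurableSet.iUnion fun n => (hf n).1, iUnion_subset fun n => (hf n).2.1, ?_⟩
      have := ae_all_iff.2 fun n => (hf n).2.2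
      filter_upwards [this] with x hx hxU
      obtain ⟨n, hn⟩ := mem_iUnion.1 hxU
      exact hx n hn)
  have h0 : μ (F \ D) = 0 := by
    by_contra h0
    have hFDt : μ (F \ D) ≠ ∞ := ne_top_of_le_ne_top hFt (measure_mono sdiff_subset)
    obtain ⟨n, hn⟩ : ∃ n : ℕ, (lam : ℝ≥0∞) * (2⁻¹ ^ n * μ (F \ D)) < μ A := by
      have h1 : Filter.Tendsto (fun n : ℕ => (lam : ℝ≥0∞) * (2⁻¹ ^ n * μ (F \ D)))
          Filter.atTop (nhds ((lam : ℝ≥0∞) * (0 * μ (F \ D)))) := by
        refine ENNReal.Tendsto.const_mul ?_ (Or.inr ENNReal.coe_ne_top)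
        refine ENNReal.Tendsto.mul_const ?_ (Or.inr hFDt)
        exact ENNReal.tendsto_pow_atTop_nhds_zero_of_lt_one (by
          rw [ENNReal.inv_lt_one]; norm_num)
      rw [zero_mul, mul_zero] at h1
      exact ((h1.eventually (gt_mem_nhds (pos_iff_ne_zero.2 hA.2.1))).exists)
    obtain ⟨C, hCF, hC, hC0, hCle⟩ := exists_subset_small (hF.diff hD) h0 hFDt
      (fun B hB => hna B (hB.trans sdiff_subset)) n
    have hCη := hsmall C hC (lt_of_le_of_lt (mul_le_mul' le_rfl hCle) hn)
    have hdisj : Disjoint D C := by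
      rw [Set.disjoint_left]; intro x h1 h2; exact (hCF h2).2 h1
    have h1 := hmax (D ∪ C) ⟨hD.union hC, union_subset hDF (hCF.trans sdiff_subset), by
      filter_upwards [hDη, hCη] with x h1 h2 hx
      rcases hx with hx | hx
      · exact h1 hx
      · exact h2 hx⟩ subset_union_left
    rw [measureReal_union hdisj hC] at h1
    have h2 : 0 < (μ.restrict F).real C := by
      rw [measureReal_def, Measure.restrict_apply hC,
        inter_eq_left.2 (hCF.trans sdiff_subset)]
      exact ENNReal.toReal_pos hC0 (ne_top_of_le_ne_top hFDt (measure_mono hCF))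
    linarith
  have hηF : ∀ᵐ x ∂μ, x ∈ F → η x = 0 := by
    have h4 : ∀ᵐ x ∂μ, x ∉ F \ D := measure_eq_zero_iff_ae_notMem.1 h0
    filter_upwards [hDη, h4] with x h1 h2 hxF
    exact h1 (by by_contra hcon; exact h2 ⟨hxF, hcon⟩)
  rw [← ContinuousLinearMap.adjoint_inner_left, ← hη, ← inner_conj_symm,
    L2.inner_indicatorConstLp_one]
  have : ∫ x in F, η x ∂μ = 0 := by
    rw [← integral_zero X ℂ (μ := μ.restrict F)]
    apply setIntegral_congr_ae hF
    filter_upwards [hηF] with x hx hxF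
    exact hx hxF
  rw [this, map_zero]

end Pool.Agent.MP_fe632d_an
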