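import Pool.Agent.MP_fe632d_an.Main3

open MeasureTheory Set
open scoped ENNReal NNReal symmDiff

set_option linter.unusedSectionVars false

namespace Pool.Agent.MP_fe632d_an

universe u

theorem sm_of_rat {Y : Type*} {mY : MeasurableSpace Y} {f : Y → ℝ}
    (h : ∀ q : ℚ, MeasurableSet[mY] {x | (q : ℝ) < f x}) : StronglyMeasurable[mY] f := by
  have h1 : @Measurable _ _ mY (borel ℝ) f := by
    rw [Real.borel_eq_generateFrom_Ioi_rat]
    refine @measurable_generateFrom _ _ mY _ _ ?_
    intro t ht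
    obtain ⟨q, hq⟩ := mem_iUnion.1 ht
    rw [mem_singleton_iff] at hq
    subst hq
    exact h q
  have h2 : @Measurable _ _ mY _ f := by
    intro s hs
    exact h1 (BorelSpace.measurable_eq (α := ℝ) ▸ hs)
  exact h2.stronglyMeasurable

section
variable {X : Type u} {m : MeasurableSpace X} [mX : MeasurableSpace X]
variable {P : Measure X} [IsFiniteMeasure P]

theorem integral_mul_cp (hm : m ≤ mX) {ψ : X → ℝ} (hψ : StronglyMeasurable[m] ψ)
    (hi : Integrable ψ P) {C : Set X} (hC : MeasurableSet C) {r : ℝ}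
    (hr : cp P m C =ᵐ[P] fun _ => r) : ∫ x in C, ψ x ∂P = r * ∫ x, ψ x ∂P := by
  have hint : Integrable (ψ * C.indicator (fun _ => (1:ℝ))) P := by
    have : ψ * C.indicator (fun _ => (1:ℝ)) = C.indicator ψ := by
      funext x
      by_cases hx : x ∈ C <;> simp [hx]
    rw [this]; exact hi.indicator hC
  have h1 := condExp_mul_of_stronglyMeasurable_left (μ := P) hψ hint (integrable_ind hC)
  have h2 : ∫ x, (ψ * C.indicator (fun _ => (1:ℝ))) x ∂P
      = ∫ x, (P[ψ * C.indicator (fun _ => (1:ℝ)) | m]) x ∂P := (integral_condExp hm).symm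
  have h3 : ∫ x in C, ψ x ∂P = ∫ x, (ψ * C.indicator (fun _ => (1:ℝ))) x ∂P := by
    rw [← integral_indicator hC]
    congr 1
    funext x
    by_cases hx : x ∈ C <;> simp [hx]
  rw [h3, h2, integral_congr_ae h1, ← integral_const_mul]
  apply integral_congr_ae
  filter_upwards [hr] with x hx
  rw [Pi.mul_apply]
  change ψ x * cp P m C x = _
  rw [hx, mul_comm]

end

variable {X : Type u} [mX : MeasurableSpace X] {μ : Measure X}

/-- the family of rational level sets of real and imaginary parts -/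
def levels {I : Type u} (h : I → X → ℂ) (j : I × ULift.{u} (ℚ × Bool)) : Set X :=
  if j.2.down.2 then {x | (j.2.down.1 : ℝ) < (h j.1 x).re} else {x | (j.2.down.1 : ℝ) < (h j.1 x).im}

theorem measurableSet_levels {I : Type u} {h : I → X → ℂ} (hh : ∀ i, Measurable (h i))
    (j : I × ULift.{u} (ℚ × Bool)) : MeasurableSet (levels h j) := by
  unfold levels
  split
  · exact measurableSet_lt measurable_const (Complex.measurable_re.comp (hh _))
  · exact measurableSet_lt measurable_const (Complex.measurable_im.comp (hh _))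

theorem sm_re {I : Type u} (h : I → X → ℂ) (i : I) :
    StronglyMeasurable[gen (levels h)] (fun x => (h i x).re) := by
  apply sm_of_rat
  intro q
  have := mem_gen (D := levels h) (i, ⟨(q, true)⟩)
  simpa [levels] using this

theorem sm_im {I : Type u} (h : I → X → ℂ) (i : I) :
    StronglyMeasurable[gen (levels h)] (fun x => (h i x).im) := by
  apply sm_of_rat
  intro q
  have := mem_gen (D := levels h) (i, ⟨(q, false)⟩)
  simpa [levels] using this

theorem card_levels_lt {I : Type u} {κ : Cardinal.{u}} (hκ : Cardinal.aleph0 ≤ κ)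
    (hI : Cardinal.mk I ≤ κ) : Cardinal.mk (I × ULift.{u} (ℚ × Bool)) < Order.succ κ := by
  rw [Order.lt_succ_iff, Cardinal.mk_prod, Cardinal.lift_id, Cardinal.lift_id]
  have h1 : Cardinal.mk (ULift.{u} (ℚ × Bool)) ≤ Cardinal.aleph0 := by
    rw [Cardinal.mk_uLift]
    exact Cardinal.lift_le_aleph0.2 (Cardinal.mk_le_aleph0)
  exact (mul_le_mul' hI (h1.trans hκ)).trans (Cardinal.mul_eq_self hκ).le

theorem integrable_restrict (f : Lp ℂ 2 μ) {F : Set X} (hFt : μ F ≠ ∞) :
    Integrable f (μ.restrict F) := by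
  have hfinF : IsFiniteMeasure (μ.restrict F) :=
    ⟨by rw [Measure.restrict_apply_univ]; exact hFt.lt_top⟩
  exact ((Lp.memLp f).restrict F).integrable (by norm_num)

/-- sets of small density against sets all of whose parts have large density -/
theorem inner_density_eq_zero {E F : Set X} (hE : MeasurableSet E) (hEt : μ E ≠ ∞)
    (hF : MeasurableSet F) (hFt : μ F ≠ ∞) {κ : Cardinal.{u}} (hκ : Cardinal.aleph0 ≤ κ)
    (hdE : density μ E ≤ κ)
    (hdF : ∀ A, MeasurableSet A → A ⊆ F → μ A ≠ 0 → κ < density μ A)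
    (a : Lp ℂ 2 μ →L[ℂ] Lp ℂ 2 μ) (ha : ∃ lam, HasSupportExpansion μ a lam) :
    inner ℂ (indicatorConstLp 2 hE hEt (1:ℂ)) (a (indicatorConstLp 2 hF hFt (1:ℂ))) = 0 := by
  obtain ⟨lam, hlam, -⟩ := ha
  obtain ⟨𝒜, h𝒜card, h𝒜⟩ := exists_density μ E
  have hBE : ∀ B : 𝒜, MeasurableSet (B.1 ∩ E) := fun B => (h𝒜.measurable _ B.2).inter hE
  have hBEt : ∀ B : 𝒜, μ (B.1 ∩ E) ≠ ∞ := fun B =>
    ne_top_of_le_ne_top hEt (measure_mono inter_subset_right)
  set h : 𝒜 → Lp ℂ 2 μ := fun B =>
    ContinuousLinearMap.adjoint a (indicatorConstLp 2 (hBE B) (hBEt B) (1:ℂ)) with hh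
  have hmeas : ∀ B : 𝒜, Measurable (h B : X → ℂ) := fun B => (Lp.stronglyMeasurable _).measurable
  set D := levels (fun B : 𝒜 => (h B : X → ℂ)) with hD
  have hDm : ∀ j, MeasurableSet (D j) := measurableSet_levels hmeas
  have hfinF : IsFiniteMeasure (μ.restrict F) :=
    ⟨by rw [Measure.restrict_apply_univ]; exact hFt.lt_top⟩
  have hfinE : IsFiniteMeasure (μ.restrict E) :=
    ⟨by rw [Measure.restrict_apply_univ]; exact hEt.lt_top⟩
  have hrel : RelAtomless (μ.restrict F) (gen D) := by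
    refine relAtomless_gen hDm (μ.restrict F) (κ := Order.succ κ)
      (hκ.trans (Order.le_succ κ)) (card_levels_lt hκ (by rw [h𝒜card]; exact hdE)) ?_
    intro A hA hA0
    have h1 : (μ.restrict F) A = μ (A ∩ F) := Measure.restrict_apply hA
    have h2 : density (μ.restrict F) A = density μ (A ∩ F) := by
      unfold density
      rw [Measure.restrict_restrict hA]
    rw [h2, Order.succ_le_iff]
    exact hdF _ (hA.inter hF) inter_subset_right (by rwa [h1] at hA0)
  have hC : ∀ n : ℕ, ∃ C, MeasurableSet C ∧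
      cp (μ.restrict F) (gen D) C =ᵐ[μ.restrict F] fun _ => (1/2 : ℝ) ^ n := by
    intro n
    obtain ⟨C, hC, -, hC2⟩ := exists_cp_eq (P := μ.restrict F) (gen_le hDm) hrel
      MeasurableSet.univ (h := fun _ => (1/2 : ℝ) ^ n) (sm_const _ _)
      (Filter.Eventually.of_forall fun x => by simp only [Pi.zero_apply]; positivity)
      (by
        rw [cp_univ (gen_le hDm)]
        exact Filter.Eventually.of_forall fun x => pow_le_one₀ (by norm_num) (by norm_num))
    exact ⟨C, hC, hC2⟩
  choose C hCm hCcp using hC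
  have hCF : ∀ n, MeasurableSet (C n ∩ F) := fun n => (hCm n).inter hF
  have hCFt : ∀ n, μ (C n ∩ F) ≠ ∞ := fun n =>
    ne_top_of_le_ne_top hFt (measure_mono inter_subset_right)
  -- measure of `C n ∩ F`
  have hCmeas : ∀ n, μ (C n ∩ F) = ENNReal.ofReal ((1/2) ^ n) * μ F := by
    intro n
    have h1 := setIntegral_cp (P := μ.restrict F) (gen_le hDm) (hCm n)
      (G := univ) MeasurableSet.univ
    rw [inter_univ, Measure.restrict_univ, integral_congr_ae (hCcp n)] at h1
    simp only [integral_const, smul_eq_mul] at h1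
    have h2 : (μ.restrict F).real (C n) = (μ (C n ∩ F)).toReal := by
      rw [measureReal_def, Measure.restrict_apply (hCm n)]
    have h3 : (μ.restrict F).real univ = (μ F).toReal := by
      rw [measureReal_def, Measure.restrict_apply_univ]
    rw [h2, h3] at h1
    rw [← ENNReal.toReal_eq_toReal_iff' (hCFt n)
      (ENNReal.mul_ne_top ENNReal.ofReal_ne_top hFt), ENNReal.toReal_mul,
      ENNReal.toReal_ofReal (by positivity), ← h1, mul_comm]
  -- integrals of `h B`
  have hint : ∀ (n : ℕ) (B : 𝒜), ∫ x in C n ∩ F, h B x ∂μ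
      = ((1/2 : ℝ) ^ n : ℝ) • ∫ x in F, h B x ∂μ := by
    intro n B
    have hi := integrable_restrict (h B) hFt
    have h1 := integral_mul_cp (P := μ.restrict F) (gen_le hDm)
      (sm_re (fun B : 𝒜 => (h B : X → ℂ)) B) hi.re (hCm n) (hCcp n)
    have h2 := integral_mul_cp (P := μ.restrict F) (gen_le hDm)
      (sm_im (fun B : 𝒜 => (h B : X → ℂ)) B) hi.im (hCm n) (hCcp n)
    rw [← Measure.restrict_restrict (hCm n)]
    have hi' : Integrable (h B) ((μ.restrict F).restrict (C n)) := hi.integrableOn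
    apply Complex.ext
    · have e1 : ∫ x in C n, (h B x).re ∂(μ.restrict F)
          = (∫ x in C n, h B x ∂(μ.restrict F)).re := integral_re (𝕜 := ℂ) hi'
      have e2 : ∫ x in F, (h B x).re ∂μ = (∫ x in F, h B x ∂μ).re := integral_re (𝕜 := ℂ) hi
      rw [Complex.smul_re, ← e1, ← e2]
      exact h1
    · have e1 : ∫ x in C n, (h B x).im ∂(μ.restrict F)
          = (∫ x in C n, h B x ∂(μ.restrict F)).im := integral_im (𝕜 := ℂ) hi'
      have e2 : ∫ x in F, (h B x).im ∂μ = (∫ x in F, h B x ∂μ).im := integral_im (𝕜 := ℂ) hi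
      rw [Complex.smul_im, ← e1, ← e2]
      exact h2
  set y : Lp ℂ 2 μ := a (indicatorConstLp 2 hF hFt (1:ℂ)) with hy
  set z : ℕ → Lp ℂ 2 μ := fun n => a (indicatorConstLp 2 (hCF n) (hCFt n) (1:ℂ)) with hz
  -- orthogonality
  have horth : ∀ (n : ℕ) (B : 𝒜), ∫ x in B.1 ∩ E, (z n - ((1/2 : ℝ) ^ n : ℂ) • y) x ∂μ = 0 := by
    intro n B
    rw [← L2.inner_indicatorConstLp_one (hBE B) (hBEt B), inner_sub_right, inner_smul_right]
    have e1 : inner ℂ (indicatorConstLp 2 (hBE B) (hBEt B) (1:ℂ)) (z n)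
        = (starRingEnd ℂ) (∫ x in C n ∩ F, h B x ∂μ) := by
      rw [hz]
      simp only
      rw [← ContinuousLinearMap.adjoint_inner_left, ← inner_conj_symm,
        L2.inner_indicatorConstLp_one]
    have e2 : inner ℂ (indicatorConstLp 2 (hBE B) (hBEt B) (1:ℂ)) y
        = (starRingEnd ℂ) (∫ x in F, h B x ∂μ) := by
      rw [hy, ← ContinuousLinearMap.adjoint_inner_left, ← inner_conj_symm,
        L2.inner_indicatorConstLp_one]
    rw [e1, e2, hint n B, Complex.real_smul, map_mul, Complex.conj_ofReal]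
    push_cast
    ring
  -- vanish on `E`
  have hvan : ∀ n, ∀ᵐ x ∂(μ.restrict E), (z n - ((1/2 : ℝ) ^ n : ℂ) • y) x = 0 := by
    intro n
    set v : Lp ℂ 2 μ := z n - ((1/2 : ℝ) ^ n : ℂ) • y with hv
    have hvi := integrable_restrict v hEt
    refine hvi.ae_eq_zero_of_forall_setIntegral_eq_zero fun s hs _ => ?_
    rw [Measure.restrict_restrict hs]
    -- continuity of the integral
    have hsE : MeasurableSet (s ∩ E) := hs.inter hE
    have hsEt : μ (s ∩ E) ≠ ∞ := ne_top_of_le_ne_top hEt (measure_mono inter_subset_right)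
    have hex : ∀ k : ℕ, ∃ B : 𝒜, (μ.restrict E) (s ∆ B.1) < ENNReal.ofReal (1 / ((k:ℝ) + 1)) := by
      intro k
      obtain ⟨B, hB, hlt⟩ := h𝒜.approx s hs (measure_ne_top _ _) (1 / ((k:ℝ) + 1)) (by positivity)
      exact ⟨⟨B, hB⟩, hlt⟩
    choose B hB using hex
    have hlim : Filter.Tendsto (fun k => indicatorConstLp (μ := μ) 2 (hBE (B k)) (hBEt (B k))
        (1:ℂ)) Filter.atTop (nhds (indicatorConstLp 2 hsE hsEt (1:ℂ))) := by
      apply tendsto_indicatorConstLp_set (by simp)
      have hlim0 : Filter.Tendsto (fun k : ℕ => ENNReal.ofReal (1 / ((k:ℝ) + 1)))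
          Filter.atTop (nhds 0) := by
        have := ENNReal.tendsto_ofReal tendsto_one_div_add_atTop_nhds_zero_nat
        rwa [ENNReal.ofReal_zero] at this
      refine tendsto_of_tendsto_of_tendsto_of_le_of_le tendsto_const_nhds hlim0
        (fun n => bot_le) (fun k => ?_)
      have h1 : ((B k).1 ∩ E) ∆ (s ∩ E) = (s ∆ (B k).1) ∩ E := by
        ext x; simp only [mem_symmDiff, mem_inter_iff]; tauto
      change μ (((B k).1 ∩ E) ∆ (s ∩ E)) ≤ _
      rw [h1, ← Measure.restrict_apply (hs.symmDiff (h𝒜.measurable _ (B k).2))]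
      exact (hB k).le
    have hlim2 : Filter.Tendsto (fun k => inner ℂ (indicatorConstLp (μ := μ) 2 (hBE (B k))
        (hBEt (B k)) (1:ℂ)) v) Filter.atTop (nhds (inner ℂ (indicatorConstLp 2 hsE hsEt (1:ℂ)) v)) :=
      hlim.inner tendsto_const_nhds
    have hzero : ∀ k, inner ℂ (indicatorConstLp (μ := μ) 2 (hBE (B k)) (hBEt (B k)) (1:ℂ)) v = 0 := by
      intro k
      rw [L2.inner_indicatorConstLp_one]
      exact horth n (B k)
    simp only [hzero] at hlim2
    have := tendsto_nhds_unique hlim2 tendsto_const_nhds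
    rw [L2.inner_indicatorConstLp_one] at this
    exact this
  -- the support estimate
  have hsupp : ∀ n : ℕ, μ (Function.support y ∩ E) ≤ lam * (ENNReal.ofReal ((1/2) ^ n) * μ F) := by
    intro n
    have h1 : ∀ᵐ x ∂μ, x ∈ E → (z n - ((1/2 : ℝ) ^ n : ℂ) • y) x = 0 := by
      have := hvan n
      rwa [ae_restrict_iff' hE] at this
    have h2 : μ (Function.support y ∩ E) ≤ μ (Function.support (z n)) := by
      apply measure_mono_ae
      filter_upwards [h1, Lp.coeFn_sub (z n) (((1/2 : ℝ) ^ n : ℂ) • y),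
        Lp.coeFn_smul (((1/2 : ℝ) ^ n : ℂ)) y] with x hx1 hx2 hx3 hx4
      have hxE : x ∈ E := hx4.2
      have hxy : y x ≠ 0 := hx4.1
      have h5 := hx1 hxE
      rw [hx2, Pi.sub_apply, hx3, Pi.smul_apply, sub_eq_zero] at h5
      change z n x ≠ 0
      rw [h5, smul_eq_mul]
      exact mul_ne_zero (pow_ne_zero _ (by norm_num)) hxy
    refine h2.trans ((hlam _).trans ?_)
    refine mul_le_mul' le_rfl ?_
    rw [support_measure_congr indicatorConstLp_coeFn, ← hCmeas n]
    exact measure_mono Set.support_indicator_subset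
  have hzero : μ (Function.support y ∩ E) = 0 := by
    have hlim : Filter.Tendsto (fun n : ℕ => (lam : ℝ≥0∞) * (ENNReal.ofReal ((1/2) ^ n) * μ F))
        Filter.atTop (nhds ((lam : ℝ≥0∞) * (0 * μ F))) := by
      refine ENNReal.Tendsto.const_mul ?_ (Or.inr ENNReal.coe_ne_top)
      refine ENNReal.Tendsto.mul_const ?_ (Or.inr hFt)
      have := ENNReal.tendsto_ofReal (tendsto_pow_atTop_nhds_zero_of_lt_one
        (show (0:ℝ) ≤ 1/2 by norm_num) (show (1/2 : ℝ) < 1 by norm_num))
      rwa [ENNReal.ofReal_zero] at this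
    rw [zero_mul, mul_zero] at hlim
    exact le_antisymm (ge_of_tendsto' hlim hsupp) bot_le
  rw [L2.inner_indicatorConstLp_one]
  rw [← integral_zero X ℂ (μ := μ.restrict E)]
  apply setIntegral_congr_ae hE
  have h4 : ∀ᵐ x ∂μ, x ∉ Function.support y ∩ E := measure_eq_zero_iff_ae_notMem.1 hzero
  filter_upwards [h4] with x hx hxE
  by_contra hcon
  exact hx ⟨hcon, hxE⟩

end Pool.Agent.MP_fe632d_an
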