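import Pool.Agent.MP_fe632d_an.Main4

open MeasureTheory Set
open scoped ENNReal NNReal symmDiff

set_option linter.unusedSectionVars false

namespace Pool.Agent.MP_fe632d_an

universe u

variable {X : Type u} [mX : MeasurableSpace X] {μ : Measure X}

theorem density_iUnion_le {f : ℕ → Set X} (hf : ∀ n, MeasurableSet (f n)) (hmono : Monotone f)
    (ht : μ (⋃ n, f n) ≠ ∞) {κ : Cardinal.{u}} (hκ : Cardinal.aleph0 ≤ κ)
    (hd : ∀ n, density μ (f n) ≤ κ) : density μ (⋃ n, f n) ≤ κ := by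
  have hex := fun n => exists_density μ (f n)
  choose 𝒜 h𝒜c h𝒜 using hex
  set 𝒰 : Set (Set X) := Set.range (fun p : (Σ n : ULift.{u} ℕ, 𝒜 n.down) => p.2.1 ∩ f p.1.down)
    with h𝒰
  have hU : MeasurableSet (⋃ n, f n) := MeasurableSet.iUnion hf
  have hMD : (μ.restrict (⋃ n, f n)).MeasureDense 𝒰 := by
    refine ⟨?_, ?_⟩
    · rintro _ ⟨p, rfl⟩
      exact ((h𝒜 p.1.down).measurable _ p.2.2).inter (hf _)
    · intro s hs _ ε hε
      -- choose n
      have hanti : Antitone fun n => (⋃ i, f i) \ f n := fun m n hmn =>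
        Set.sdiff_subset_sdiff_right (hmono hmn)
      have hlim := tendsto_measure_iInter_atTop (μ := μ) (s := fun n => (⋃ i, f i) \ f n)
        (fun n => (hU.diff (hf n)).nullMeasurableSet) hanti
        ⟨0, ne_top_of_le_ne_top ht (measure_mono sdiff_subset)⟩
      have hemp : (⋂ n, (⋃ i, f i) \ f n) = ∅ := by
        ext x
        simp only [mem_iInter, mem_sdiff, mem_iUnion, mem_empty_iff_false,
          iff_false, not_forall]
        by_cases hx : ∃ i, x ∈ f i
        · obtain ⟨i, hi⟩ := hx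
          exact ⟨i, fun h => h.2 hi⟩
        · exact ⟨0, fun h => hx h.1⟩
      rw [hemp, measure_empty] at hlim
      have hpos : (0 : ℝ≥0∞) < ENNReal.ofReal (ε / 2) := ENNReal.ofReal_pos.2 (half_pos hε)
      obtain ⟨n, hn⟩ := (hlim.eventually (gt_mem_nhds hpos)).exists
      have hfin : IsFiniteMeasure (μ.restrict (f n)) :=
        ⟨by rw [Measure.restrict_apply_univ];
            exact (ne_top_of_le_ne_top ht (measure_mono (subset_iUnion f n))).lt_top⟩
      obtain ⟨B, hB, hlt⟩ := (h𝒜 n).approx s hs (measure_ne_top _ _) (ε / 2) (half_pos hε)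
      have hBm := (h𝒜 n).measurable B hB
      refine ⟨B ∩ f n, ⟨⟨⟨n⟩, ⟨B, hB⟩⟩, rfl⟩, ?_⟩
      rw [Measure.restrict_apply (hs.symmDiff (hBm.inter (hf n)))]
      rw [Measure.restrict_apply (hs.symmDiff hBm)] at hlt
      have hsub : (s ∆ (B ∩ f n)) ∩ (⋃ n, f n) ⊆ ((s ∆ B) ∩ f n) ∪ ((⋃ i, f i) \ f n) := by
        intro x hx
        by_cases hxf : x ∈ f n
        · left
          refine ⟨?_, hxf⟩
          rcases hx.1 with h | h
          · exact Or.inl ⟨h.1, fun hh => h.2 ⟨hh, hxf⟩⟩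
          · exact Or.inr ⟨h.1.1, h.2⟩
        · exact Or.inr ⟨hx.2, hxf⟩
      calc μ ((s ∆ (B ∩ f n)) ∩ (⋃ n, f n)) ≤ μ ((s ∆ B) ∩ f n) + μ ((⋃ i, f i) \ f n) :=
            (measure_mono hsub).trans (measure_union_le _ _)
        _ < ENNReal.ofReal (ε / 2) + ENNReal.ofReal (ε / 2) := ENNReal.add_lt_add hlt hn
        _ = ENNReal.ofReal ε := by
            rw [← ENNReal.ofReal_add (half_pos hε).le (half_pos hε).le, add_halves]
  refine (density_le_of hMD).trans (Cardinal.mk_range_le.trans ?_)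
  rw [Cardinal.mk_sigma]
  refine (Cardinal.sum_le_mk_mul_iSup _).trans ?_
  have h1 : Cardinal.mk (ULift.{u} ℕ) ≤ κ := by
    rw [Cardinal.mk_uLift, Cardinal.mk_nat, Cardinal.lift_aleph0]; exact hκ
  have h2 : (⨆ n : ULift.{u} ℕ, Cardinal.mk (𝒜 n.down)) ≤ κ :=
    ciSup_le' fun n => by rw [h𝒜c]; exact hd _
  exact (mul_le_mul' h1 h2).trans (Cardinal.mul_eq_self hκ).le

theorem density_union_le {D C : Set X} (hD : MeasurableSet D) (hC : MeasurableSet C)
    (hdisj : Disjoint D C) (hDt : μ D ≠ ∞) (hCt : μ C ≠ ∞) {κ : Cardinal.{u}}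
    (hκ : Cardinal.aleph0 ≤ κ)
    (h1 : density μ D ≤ κ) (h2 : density μ C ≤ κ) : density μ (D ∪ C) ≤ κ := by
  obtain ⟨𝒜, h𝒜c, h𝒜⟩ := exists_density μ D
  obtain ⟨ℬ, hℬc, hℬ⟩ := exists_density μ C
  set 𝒰 : Set (Set X) := Set.range (fun p : 𝒜 × ℬ => (p.1.1 ∩ D) ∪ (p.2.1 ∩ C)) with h𝒰
  have hfinD : IsFiniteMeasure (μ.restrict D) :=
    ⟨by rw [Measure.restrict_apply_univ]; exact hDt.lt_top⟩
  have hfinC : IsFiniteMeasure (μ.restrict C) :=
    ⟨by rw [Measure.restrict_apply_univ]; exact hCt.lt_top⟩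
  have hMD : (μ.restrict (D ∪ C)).MeasureDense 𝒰 := by
    refine ⟨?_, ?_⟩
    · rintro _ ⟨p, rfl⟩
      exact ((h𝒜.measurable _ p.1.2).inter hD).union ((hℬ.measurable _ p.2.2).inter hC)
    · intro s hs _ ε hε
      obtain ⟨A, hA, hlt1⟩ := h𝒜.approx s hs (measure_ne_top _ _) (ε / 2) (half_pos hε)
      obtain ⟨B, hB, hlt2⟩ := hℬ.approx s hs (measure_ne_top _ _) (ε / 2) (half_pos hε)
      have hAm := h𝒜.measurable A hA
      have hBm := hℬ.measurable B hB
      refine ⟨(A ∩ D) ∪ (B ∩ C), ⟨(⟨A, hA⟩, ⟨B, hB⟩), rfl⟩, ?_⟩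
      rw [Measure.restrict_apply (hs.symmDiff ((hAm.inter hD).union (hBm.inter hC)))]
      rw [Measure.restrict_apply (hs.symmDiff hAm)] at hlt1
      rw [Measure.restrict_apply (hs.symmDiff hBm)] at hlt2
      have hsub : (s ∆ ((A ∩ D) ∪ (B ∩ C))) ∩ (D ∪ C) ⊆ ((s ∆ A) ∩ D) ∪ ((s ∆ B) ∩ C) := by
        intro x hx
        have hd : x ∈ D → x ∉ C := fun h => Set.disjoint_left.1 hdisj h
        simp only [mem_symmDiff, mem_inter_iff, mem_union] at hx ⊢
        tauto
      calc μ ((s ∆ ((A ∩ D) ∪ (B ∩ C))) ∩ (D ∪ C)) ≤ μ ((s ∆ A) ∩ D) + μ ((s ∆ B) ∩ C) :=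
            (measure_mono hsub).trans (measure_union_le _ _)
        _ < ENNReal.ofReal (ε / 2) + ENNReal.ofReal (ε / 2) := ENNReal.add_lt_add hlt1 hlt2
        _ = ENNReal.ofReal ε := by
            rw [← ENNReal.ofReal_add (half_pos hε).le (half_pos hε).le, add_halves]
  refine (density_le_of hMD).trans (Cardinal.mk_range_le.trans ?_)
  rw [Cardinal.mk_prod, Cardinal.lift_id, Cardinal.lift_id, h𝒜c, hℬc]
  exact (mul_le_mul' h1 h2).trans (Cardinal.mul_eq_self hκ).le

/-- The density does not see null sets. -/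
theorem density_congr {A B : Set X} (h : A =ᵐ[μ] B) : density μ A = density μ B := by
  unfold density
  rw [Measure.restrict_congr_set h]

/-- The criterion for `C*_u` to contain all compact operators. -/
theorem all_compact_iff (μ : Measure X) :
    (∀ k : Lp ℂ 2 μ →L[ℂ] Lp ℂ 2 μ, IsCompactOperator k → k ∈ CStarU μ) ↔
    (PurelyAtomic μ ∨ ∃ κ : Cardinal.{u}, Cardinal.aleph0 ≤ κ ∧
      ∀ A, MeasurableSet A → μ A ≠ 0 → μ A ≠ ∞ → density μ A = κ) := by
  constructor
  · intro hall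
    by_cases hPA : PurelyAtomic μ
    · exact Or.inl hPA
    right
    unfold PurelyAtomic at hPA
    push Not at hPA
    obtain ⟨F0, hF0, hF00, hF0t, hF0na⟩ := hPA
    -- no atoms of finite measure
    have hna : ∀ A, μ A ≠ ∞ → ¬ IsAtomOf μ A := by
      intro A hAt hA
      have hmem := hall _ (isCompactOperator_rankOne
        (indicatorConstLp 2 hA.1 hAt (1:ℂ) : Lp ℂ 2 μ) (indicatorConstLp 2 hF0 hF0t (1:ℂ)))
      exact rankOne_not_mem hA.1 hF0 hA.2.1 hF00 hAt hF0t
        (fun a ha => inner_atom_eq_zero hA hAt hF0 hF0t hF0na a ha) hmem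
    have hinf : ∀ A, MeasurableSet A → μ A ≠ 0 → μ A ≠ ∞ → Cardinal.aleph0 ≤ density μ A := by
      intro A hA hA0 hAt
      by_contra hcon
      obtain ⟨B, hBA, hB⟩ := exists_atom_of_density_lt hA hA0 hAt (not_le.1 hcon)
      exact hna B (ne_top_of_le_ne_top hAt (measure_mono hBA)) hB
    -- the minimal density
    set s : Set Cardinal.{u} := {c | ∃ A, MeasurableSet A ∧ μ A ≠ 0 ∧ μ A ≠ ∞ ∧ density μ A = c}
      with hs
    have hne : s.Nonempty := ⟨_, F0, hF0, hF00, hF0t, rfl⟩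
    obtain ⟨E, hE, h0, ht, hEd⟩ := csInf_mem hne
    have hmin : ∀ A, MeasurableSet A → μ A ≠ 0 → μ A ≠ ∞ → density μ E ≤ density μ A := by
      intro A hA hA0 hAt
      rw [hEd]
      exact csInf_le' ⟨A, hA, hA0, hAt, rfl⟩
    have hκ := hinf E hE h0 ht
    refine ⟨density μ E, hκ, ?_⟩
    intro A hA hA0 hAt
    refine le_antisymm ?_ (hmin A hA hA0 hAt)
    have hfinA : IsFiniteMeasure (μ.restrict A) :=
      ⟨by rw [Measure.restrict_apply_univ]; exact hAt.lt_top⟩
    have hdempty : density μ (∅ : Set X) ≤ density μ E := by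
      have hMD : (μ.restrict (∅ : Set X)).MeasureDense {∅} := by
        refine ⟨fun s hs => by rw [mem_singleton_iff.1 hs]; exact MeasurableSet.empty, ?_⟩
        intro s hs _ ε hε
        exact ⟨∅, rfl, by simpa using hε⟩
      refine (density_le_of hMD).trans ?_
      rw [Cardinal.mk_singleton]
      exact Cardinal.one_le_aleph0.trans hκ
    obtain ⟨D, ⟨hD, hDA, hDd⟩, hmax⟩ := exists_maximal (μ.restrict A)
      (fun D => MeasurableSet D ∧ D ⊆ A ∧ density μ D ≤ density μ E)
      ⟨MeasurableSet.empty, empty_subset _, hdempty⟩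
      (by
        intro f hmono hf
        have hUA : (⋃ n, f n) ⊆ A := iUnion_subset fun n => (hf n).2.1
        exact ⟨MeasurableSet.iUnion fun n => (hf n).1, hUA,
          density_iUnion_le (fun n => (hf n).1) hmono
            (ne_top_of_le_ne_top hAt (measure_mono hUA)) hκ fun n => (hf n).2.2⟩)
    by_cases hAD : μ (A \ D) = 0
    · have : A =ᵐ[μ] D := by
        have h4 : ∀ᵐ x ∂μ, x ∉ A \ D := measure_eq_zero_iff_ae_notMem.1 hAD
        filter_upwards [h4] with x hx
        have : (x ∈ A) = (x ∈ D) := by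
          apply propext
          exact ⟨fun h => by by_contra hcon; exact hx ⟨h, hcon⟩, fun h => hDA h⟩
        exact this
      rw [density_congr this]; exact hDd
    · exfalso
      have hADt : μ (A \ D) ≠ ∞ := ne_top_of_le_ne_top hAt (measure_mono sdiff_subset)
      have hlarge : ∀ C, MeasurableSet C → C ⊆ A \ D → μ C ≠ 0 → density μ E < density μ C := by
        intro C hC hCAD hC0
        by_contra hcon
        have hCt : μ C ≠ ∞ := ne_top_of_le_ne_top hADt (measure_mono hCAD)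
        have hdisj : Disjoint D C := by
          rw [Set.disjoint_left]; intro x h1 h2; exact (hCAD h2).2 h1
        have h1 := hmax (D ∪ C) ⟨hD.union hC, union_subset hDA (hCAD.trans sdiff_subset),
          density_union_le hD hC hdisj (ne_top_of_le_ne_top hAt (measure_mono hDA)) hCt hκ hDd
            (not_lt.1 hcon)⟩ subset_union_left
        rw [measureReal_union hdisj hC] at h1
        have h2 : 0 < (μ.restrict A).real C := by
          rw [measureReal_def, Measure.restrict_apply hC,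
            inter_eq_left.2 (hCAD.trans sdiff_subset)]
          exact ENNReal.toReal_pos hC0 hCt
        linarith
      have hmem := hall _ (isCompactOperator_rankOne
        (indicatorConstLp 2 hE ht (1:ℂ) : Lp ℂ 2 μ)
        (indicatorConstLp 2 (hA.diff hD) hADt (1:ℂ)))
      exact rankOne_not_mem hE (hA.diff hD) h0 hAD ht hADt
        (fun a ha => inner_density_eq_zero hE ht (hA.diff hD) hADt hκ le_rfl hlarge a ha) hmem
  · rintro (h | ⟨κ, hκ, h⟩) k hk
    · exact all_compact_of_atomic h k hk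
    · exact all_compact_of_homogeneous hκ h k hk

/-- Countably generated spaces have countable density. -/
theorem density_le_aleph0 (J : Type u) [Countable J] {D : J → Set X}
    (hD : ∀ j, MeasurableSet (D j)) (hgen : mX ≤ gen D) {A : Set X} (hAt : μ A ≠ ∞) :
    density μ A ≤ Cardinal.aleph0 := by
  have hfinA : IsFiniteMeasure (μ.restrict A) :=
    ⟨by rw [Measure.restrict_apply_univ]; exact hAt.lt_top⟩
  have hMD : (μ.restrict A).MeasureDense (Set.range (cylSet D)) := by
    refine ⟨?_, ?_⟩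
    · rintro _ ⟨c, rfl⟩; exact measurableSet_cylSet hD c
    · intro s hs _ ε hε
      obtain ⟨c, hc⟩ := approx_cyl hD (μ.restrict A) (hgen _ hs) hε
      exact ⟨_, ⟨c, rfl⟩, hc⟩
  refine (density_le_of hMD).trans (Cardinal.mk_range_le.trans ?_)
  have h1 : Cardinal.mk J < Order.succ (Cardinal.aleph0.{u}) := by
    rw [Order.lt_succ_iff]; exact Cardinal.mk_le_aleph0
  have h2 := card_cylIdx_lt (κ := Order.succ (Cardinal.aleph0.{u})) (Order.le_succ _) h1
  exact Order.lt_succ_iff.1 h2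

/-- Lebesgue measure on the line has no atoms. -/
theorem real_no_atom (A : Set ℝ) (ht : volume A ≠ ∞) : ¬ IsAtomOf (volume : Measure ℝ) A := by
  rintro ⟨hA, h0, hat⟩
  have hpos : 0 < (volume A).toReal := ENNReal.toReal_pos h0 ht
  set δ : ℝ := (volume A).toReal / 2 with hδ
  have hδpos : 0 < δ := half_pos hpos
  -- some interval of length δ meets A in positive measure
  have hcov : A ⊆ ⋃ k : ℤ, A ∩ Ico ((k : ℝ) * δ) ((k + 1 : ℝ) * δ) := by
    intro x hx
    refine mem_iUnion.2 ⟨⌊x / δ⌋, hx, ?_, ?_⟩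
    · have := Int.floor_le (x / δ)
      rwa [le_div_iff₀ hδpos] at this
    · have := Int.lt_floor_add_one (x / δ)
      rwa [div_lt_iff₀ hδpos] at this
  have hex : ∃ k : ℤ, volume (A ∩ Ico ((k : ℝ) * δ) ((k + 1 : ℝ) * δ)) ≠ 0 := by
    by_contra hcon
    push Not at hcon
    exact h0 (measure_mono_null hcov (measure_iUnion_null hcon))
  obtain ⟨k, hk⟩ := hex
  have hI : MeasurableSet (A ∩ Ico ((k : ℝ) * δ) ((k + 1 : ℝ) * δ)) :=
    hA.inter measurableSet_Ico
  rcases hat _ hI inter_subset_left with h | h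
  · exact hk h
  · have h1 : volume A ≤ volume (A ∩ Ico ((k : ℝ) * δ) ((k + 1 : ℝ) * δ)) := by
      have h2 : A ⊆ (A \ (A ∩ Ico ((k : ℝ) * δ) ((k + 1 : ℝ) * δ)))
          ∪ (A ∩ Ico ((k : ℝ) * δ) ((k + 1 : ℝ) * δ)) := by
        intro x hx
        by_cases hxs : x ∈ A ∩ Ico ((k : ℝ) * δ) ((k + 1 : ℝ) * δ)
        · exact Or.inr hxs
        · exact Or.inl ⟨hx, hxs⟩
      have h3 := (measure_mono h2).trans (measure_union_le (μ := volume) _ _)
      rwa [h, zero_add] at h3
    have h4 : volume (A ∩ Ico ((k : ℝ) * δ) ((k + 1 : ℝ) * δ)) ≤ ENNReal.ofReal δ := by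
      refine (measure_mono inter_subset_right).trans ?_
      rw [Real.volume_Ico]
      apply ENNReal.ofReal_le_ofReal
      ring_nf; exact le_rfl
    have h5 := h1.trans h4
    rw [← ENNReal.ofReal_toReal ht] at h5
    have h6 := (ENNReal.ofReal_le_ofReal_iff hδpos.le).1 h5
    linarith

/-- The real line. -/
theorem real_all_compact (k : Lp ℂ 2 (volume : Measure ℝ) →L[ℂ] Lp ℂ 2 (volume : Measure ℝ))
    (hk : IsCompactOperator k) : k ∈ CStarU (volume : Measure ℝ) := by
  refine all_compact_of_homogeneous (κ := Cardinal.aleph0) le_rfl ?_ k hk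
  intro A hA hA0 hAt
  apply le_antisymm
  · have hgen : (inferInstance : MeasurableSpace ℝ) ≤ gen (fun q : ℚ => Ioi (q : ℝ)) := by
      intro s hs
      have h1 : MeasurableSet[borel ℝ] s := (BorelSpace.measurable_eq (α := ℝ)) ▸ hs
      rw [Real.borel_eq_generateFrom_Ioi_rat] at h1
      have h2 : MeasurableSpace.generateFrom (⋃ a : ℚ, {Ioi (a : ℝ)})
          ≤ gen (fun q : ℚ => Ioi (q : ℝ)) := by
        apply MeasurableSpace.generateFrom_le
        intro t ht
        obtain ⟨q, hq⟩ := mem_iUnion.1 ht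
        rw [mem_singleton_iff] at hq
        subst hq
        exact mem_gen (D := fun q : ℚ => Ioi (q : ℝ)) q
      exact h2 _ h1
    exact density_le_aleph0 ℚ (fun q => measurableSet_Ioi) hgen hAt
  · by_contra hcon
    obtain ⟨B, hBA, hB⟩ := exists_atom_of_density_lt hA hA0 hAt (not_le.1 hcon)
    exact real_no_atom B (ne_top_of_le_ne_top hAt (measure_mono hBA)) hB

end Pool.Agent.MP_fe632d_an
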